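import Pool.Agent.LT.GD
import Pool.Agent.LG.Va

/-!
# LT Vm: the map to `ℙ^m` as rational functions

As `LG/Wc.lean` (helper37), for `ℙ^m`.
* `VMapm.ex`, `VMapm.smul`: formal.
* `exists_vm`: a point `a₀` of the cone (`exists_cone_point` with `B = 1`), `VMapm` at `a₀` gives forms `γ l`; `Vf l = γ l (ξ)`.  For a point `a` with forms `γ' l`: the vectors `γ (a')`, `γ' (a')` are proportional for all points `a'` of the cone where both are not `0`, so `γ l γ' l' - γ l' γ' l ∈ Q`, and the quotients agree;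
  `V a x` gives `x = c γ' (a)`.  `Vf l ≠ 0` if `x l ≠ 0`: `γ' l (ξ) ≠ 0`, and some `γ l' (ξ) ≠ 0`.
* `Vm_const`: at `γ 0` take `x` with `V (γ 0) x`, `x l ≠ 0`, and forms `γ'` at `γ 0`; `γ' l (γ t) ≠ 0` near `0`; `V (γ t) (γ' (γ t))`, and the quotients are constant, so `V (γ t) q` with `q = (w l l')_(l')`.
-/

set_option autoImplicit false

open Topology Filter MvPolynomial
open Pool.Agent.PXF (Cn form IsThetaForm)
open Pool.Agent.LG (Cone GP RegAt BdG IsType Lft RegL NZ IsVal Fam wr exists_cone_point aeval_ne_zero)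

noncomputable section

namespace Pool.Agent.LT

variable {K : Type} [Field K] [Algebra ℂ K] {N κ d m : ℕ} {ξ : Fin (N + 1) → K} {Q : Ideal (MvPolynomial (Fin (N + 1)) ℂ)} {V : (Fin (N + 1) → ℂ) → Cn (m + 1) → Prop}

theorem VMapm.ex (hV : VMapm Q V) {a : Fin (N + 1) → ℂ} (ha : Cone Q a) : ∃ q : Cn (m + 1), q ≠ 0 ∧ V a q := by
  obtain ⟨D, γ, hγ, ⟨i, hi⟩, hV'⟩ := hV a ha
  refine ⟨fun i => eval a (γ i), fun h => hi (congrFun h i), ?_⟩
  refine (hV' a ha ⟨i, hi⟩ _).2 ⟨1, one_ne_zero, ?_⟩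
  funext j
  rw [one_mul]

theorem VMapm.ne (hV : VMapm Q V) {a : Fin (N + 1) → ℂ} (ha : Cone Q a) {q : Cn (m + 1)} (h : V a q) : q ≠ 0 := by
  obtain ⟨D, γ, hγ, ⟨i, hi⟩, hV'⟩ := hV a ha
  obtain ⟨c, hc, rfl⟩ := (hV' a ha ⟨i, hi⟩ q).1 h
  exact fun h0 => mul_ne_zero hc hi (congrFun h0 i)

theorem VMapm.smul (hV : VMapm Q V) {a : Fin (N + 1) → ℂ} (ha : Cone Q a) {q q' : Cn (m + 1)} (h : V a q) : V a q' ↔ ∃ c : ℂ, c ≠ 0 ∧ q' = c • q := by
  obtain ⟨D, γ, hγ, hne, hV'⟩ := hV a ha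
  obtain ⟨c, hc, rfl⟩ := (hV' a ha hne q).1 h
  rw [hV' a ha hne q']
  constructor
  · rintro ⟨e, he, rfl⟩
    refine ⟨e / c, div_ne_zero he hc, ?_⟩
    funext j
    show e * eval a (γ j) = e / c * (c * eval a (γ j))
    field_simp
  · rintro ⟨e, he, rfl⟩
    refine ⟨e * c, mul_ne_zero he hc, ?_⟩
    funext j
    show e * (c * eval a (γ j)) = e * c * eval a (γ j)
    ring

theorem exists_vm (hQ : Q.IsPrime) (hgp : GP Q ξ) (hV : VMapm Q V) : ∃ Vf : Fin (m + 1) → K, (∃ l, Vf l ≠ 0) ∧ IsVm Q ξ V Vf := by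
  obtain ⟨a₀, ha₀, -⟩ := exists_cone_point hQ hgp (isHomogeneous_one _ _)
    (fun h1 => hQ.ne_top ((Ideal.eq_top_iff_one Q).2 h1))
  obtain ⟨D, γ, hγ, ⟨i₀, hi₀⟩, hV'⟩ := hV a₀ ha₀
  have n0 : aeval ξ (γ i₀) ≠ 0 := aeval_ne_zero hgp ha₀ (hγ i₀) hi₀
  refine ⟨fun l => aeval ξ (γ l), ⟨i₀, n0⟩, ?_⟩
  intro a x haQ hx l hxl
  obtain ⟨D', γ', hγ', hne', hV''⟩ := hV a haQ
  obtain ⟨e, he, rfl⟩ := (hV'' a haQ hne' x).1 hx
  have key : ∀ l l', aeval ξ (γ l) * aeval ξ (γ' l') = aeval ξ (γ l') * aeval ξ (γ' l) := by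
    intro l l'
    have hhom : (γ l * γ' l' - γ l' * γ' l).IsHomogeneous (D + D') :=
      ((hγ l).mul (hγ' l')).sub ((hγ l').mul (hγ' l))
    have hmem : γ l * γ' l' - γ l' * γ' l ∈ Q := by
      by_contra hcon
      obtain ⟨b, hb, hb0⟩ := exists_cone_point hQ hgp hhom hcon
      rw [map_sub, map_mul, map_mul] at hb0
      have e1 : ∃ i, eval b (γ i) ≠ 0 := by
        by_contra h2
        push Not at h2
        rw [h2 l, h2 l', zero_mul, zero_mul, sub_zero] at hb0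
        exact hb0 rfl
      have e2 : ∃ i, eval b (γ' i) ≠ 0 := by
        by_contra h2
        push Not at h2
        rw [h2 l, h2 l', mul_zero, mul_zero, sub_zero] at hb0
        exact hb0 rfl
      have e3 : V b (fun i => eval b (γ i)) := by
        refine (hV' b hb e1 _).2 ⟨1, one_ne_zero, ?_⟩
        funext j
        rw [one_mul]
      obtain ⟨f, _, hf2⟩ := (hV'' b hb e2 _).1 e3
      have e4 : eval b (γ l) = f * eval b (γ' l) := congrFun hf2 l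
      have e5 : eval b (γ l') = f * eval b (γ' l') := congrFun hf2 l'
      refine hb0 ?_
      rw [e4, e5]
      ring
    have h2 := (hgp.zero _ _ hhom).2 hmem
    rw [map_sub, map_mul, map_mul] at h2
    exact sub_eq_zero.1 h2
  have h2 : eval a (γ' l) ≠ 0 := right_ne_zero_of_mul hxl
  have h3 : aeval ξ (γ' l) ≠ 0 := aeval_ne_zero hgp haQ (hγ' l) h2
  have h4 : aeval ξ (γ l) ≠ 0 := by
    intro h5
    have h6 := key l i₀
    rw [h5, zero_mul] at h6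
    exact mul_ne_zero n0 h3 h6.symm
  refine ⟨h4, fun l' => ⟨D', γ' l', γ' l, hγ' l', hγ' l, h2, ?_, ?_⟩⟩
  · show aeval ξ (γ l') / aeval ξ (γ l) * aeval ξ (γ' l) = aeval ξ (γ' l')
    rw [div_mul_eq_mul_div, ← key l l', mul_div_cancel_left₀ _ h4]
  · show eval a (γ' l') = e * eval a (γ' l') / (e * eval a (γ' l)) * eval a (γ' l)
    field_simp

theorem Vm_const (hgp : GP Q ξ) (hV : VMapm Q V) {Vf : Fin (m + 1) → K} (hw : IsVm Q ξ V Vf) {γ : ℂ → Fin (N + 1) → ℂ} (hγ : AnalyticAt ℂ γ 0) (hc : ∀ᶠ t in 𝓝 (0 : ℂ), Cone Q (γ t)) {w : Fin (m + 1) → Fin (m + 1) → ℂ}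
    (h : ∀ᶠ t in 𝓝 (0 : ℂ), ∀ l l' c, RegAt ξ (γ t) (Vf l' / Vf l) c → c = w l l') : ∃ q : Cn (m + 1), ∀ᶠ t in 𝓝 (0 : ℂ), V (γ t) q := by
  have _ := hgp
  obtain ⟨D, g, hg, ⟨i, hi⟩, hV'⟩ := hV (γ 0) hc.self_of_nhds
  have hcont : ContinuousAt (fun t => eval (γ t) (g i)) 0 :=
    (MvPolynomial.continuous_eval (g i)).continuousAt.comp hγ.continuousAt
  have hev : ∀ᶠ t in 𝓝 (0 : ℂ), eval (γ t) (g i) ≠ 0 := hcont.eventually_ne hi
  refine ⟨w i, ?_⟩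
  filter_upwards [hc, h, hev] with t ht1 ht2 ht3
  have h3 : V (γ t) (fun j => eval (γ t) (g j)) := by
    refine (hV' (γ t) ht1 ⟨i, ht3⟩ _).2 ⟨1, one_ne_zero, ?_⟩
    funext j
    rw [one_mul]
  refine (hV' (γ t) ht1 ⟨i, ht3⟩ _).2 ⟨(eval (γ t) (g i))⁻¹, inv_ne_zero ht3, ?_⟩
  funext j
  rw [← ht2 i j _ ((hw (γ t) _ ht1 h3 i ht3).2 j), div_eq_inv_mul]

end Pool.Agent.LT
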