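import Pool.Agent.LG.Al
import Pool.Agent.LT.Vm
import Pool.Agent.LG.Id
import Pool.Agent.LG.G4a

/-!
# LT Alm: the function field is algebraic over the field generated by the quotients of the coordinates and the `X b`

As `LG/Al.lean` (`algebraic_of_fin`, helper93), with the functions `Vf l / Vf l'` in place of `w`, and `Vm_const` in place of `V_const`.
-/

set_option autoImplicit false

open Topology Filter MvPolynomial
open Pool.Agent.PXF (Cn form IsThetaForm)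
open Pool.Agent.LG (Cone GP RegAt BdG IsType Lft RegL NZ IsVal Fam wr pd dd deriv_quot an_of_diff exists_basis_of_not_algebraic exists_repr exists_curve_on)
open Pool.Agent.H23 (dualDer dualDer_coord)

noncomputable section

namespace Pool.Agent.LT

variable {K : Type} [Field K] [Algebra ℂ K] {N κ d m n : ℕ} {ξ : Fin (N + 1) → K} {Q : Ideal (MvPolynomial (Fin (N + 1)) ℂ)} {Λ : AddSubgroup (Cn (κ + 1))} {θ : Fin (d + 1) → Cn (κ + 1) → ℂ}
  {L : (Fin (N + 1) → ℂ) → Cn (κ + 1) → Prop} {V : (Fin (N + 1) → ℂ) → Cn (m + 1) → Prop}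

private theorem al_const {E : Type} [NormedAddCommGroup E] [NormedSpace ℂ E] [CompleteSpace E] {f : ℂ → E} (hf : AnalyticAt ℂ f 0)
    (h : ∀ᶠ t in 𝓝 (0 : ℂ), deriv f t = 0) : ∀ᶠ t in 𝓝 (0 : ℂ), f t = f 0 := by
  obtain ⟨ε, hε, hb⟩ := Metric.eventually_nhds_iff_ball.1 ((hf.eventually_analyticAt).and h)
  filter_upwards [Metric.ball_mem_nhds (0 : ℂ) hε] with t ht
  exact Metric.isOpen_ball.is_const_of_deriv_eq_zero (convex_ball (0 : ℂ) ε).isPreconnected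
    (fun x hx => (hb x hx).1.differentiableAt.differentiableWithinAt) (fun x hx => (hb x hx).2) ht
    (Metric.mem_ball_self hε)

private theorem al_pd {f : Cn (κ + 1) → ℂ} (hf : Differentiable ℂ f) (i : Fin (κ + 1)) : Continuous (pd f i) := by
  have h1 : Differentiable ℂ (pd f i) := by
    intro y
    have h1 : AnalyticAt ℂ (fderiv ℂ f) y := (an_of_diff hf y).fderiv
    exact (h1.differentiableAt.clm_apply (differentiableAt_const _) : _)
  exact h1.continuous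

private theorem al_wr {f g : Cn (κ + 1) → ℂ} (hf : Differentiable ℂ f) (hg : Differentiable ℂ g) (i : Fin (κ + 1)) :
    Continuous (wr f g i) :=
  (hf.continuous.mul (al_pd hg i)).sub (hg.continuous.mul (al_pd hf i))

/-- the lift of a curve with constant coordinates is constant -/
private theorem al_lift {ι : Type} [Fintype ι] {Θ : ι → Cn (κ + 1) → ℂ} (hfam : Fam Λ θ Θ) {b₀ : ι}
    {y : ℂ → Cn (κ + 1)} (hy : AnalyticAt ℂ y 0) (h0 : ∀ᶠ t in 𝓝 (0 : ℂ), Θ b₀ (y t) ≠ 0) (x : ι → ℂ)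
    (hx : ∀ᶠ t in 𝓝 (0 : ℂ), ∀ b, Θ b (y t) = x b * Θ b₀ (y t)) : ∀ᶠ t in 𝓝 (0 : ℂ), y t = y 0 := by
  obtain ⟨c, β, hc, hdet⟩ := hfam.chart (y 0)
  have dΘ : ∀ b, Differentiable ℂ (Θ b) := fun b => (hfam.type b).1
  have hcont : Continuous fun z => (Matrix.of fun i j => wr (Θ c) (Θ (β j)) i z).det := by
    refine Continuous.matrix_det ?_
    exact continuous_matrix fun i j => al_wr (dΘ c) (dΘ (β j)) i
  have h1 : ∀ᶠ t in 𝓝 (0 : ℂ), Θ c (y t) ≠ 0 :=
    ((dΘ c).continuous.continuousAt.comp hy.continuousAt).eventually_ne hc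
  have h2 : ∀ᶠ t in 𝓝 (0 : ℂ), (Matrix.of fun i j => wr (Θ c) (Θ (β j)) i (y t)).det ≠ 0 :=
    (hcont.continuousAt.comp hy.continuousAt (f := y)
      (g := fun z => (Matrix.of fun i j => wr (Θ c) (Θ (β j)) i z).det)).eventually_ne hdet
  refine al_const hy ?_
  filter_upwards [h2, h1, hy.eventually_analyticAt, (h0.and (h1.and hx)).eventually_nhds] with t ht ht1 hta htn
  have h3 : ∀ j, ∑ i, deriv y t i * wr (Θ c) (Θ (β j)) i (y t) = 0 := by
    intro j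
    have h4 : (fun t => Θ (β j) (y t) / Θ c (y t)) =ᶠ[𝓝 t] fun _ => x (β j) / x c := by
      filter_upwards [htn] with u hu
      obtain ⟨hu0, hu1, hu2⟩ := hu
      rw [hu2 (β j), hu2 c, mul_div_mul_right _ _ hu0]
    have h5 := deriv_quot (dΘ (β j)) (dΘ c) hta.differentiableAt ht1
    rw [h4.deriv_eq, deriv_const] at h5
    have h6 : ∑ i, deriv y t i * wr (Θ c) (Θ (β j)) i (y t) =
        Θ c (y t) ^ 2 * ∑ i, wr (Θ c) (Θ (β j)) i (y t) / Θ c (y t) ^ 2 * deriv y t i := by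
      rw [Finset.mul_sum]
      refine Finset.sum_congr rfl fun i _ => ?_
      field_simp
    rw [h6, ← h5, mul_zero]
  have h7 : Matrix.vecMul (deriv y t) (Matrix.of fun i j => wr (Θ c) (Θ (β j)) i (y t)) = 0 := by
    funext j
    exact h3 j
  exact Matrix.eq_zero_of_vecMul_eq_zero ht h7

theorem algebraic_of_fin [Algebra.EssFiniteType ℂ K] {z : Fin n → K} (hz : IsTranscendenceBasis ℂ z) (hQ : Q.IsPrime) (homog : ∀ F ∈ Q, ∀ m, homogeneousComponent m F ∈ Q) (hgp : GP Q ξ) (hL : Lft Q Λ L) (hV : VMapm Q V)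
    (fin : ∀ (γ : ℂ → Fin (N + 1) → ℂ) (y : Cn (κ + 1)) (q : Cn (m + 1)), AnalyticAt ℂ γ 0 → (∀ᶠ t in 𝓝 (0 : ℂ), Cone Q (γ t)) → (∀ᶠ t in 𝓝 (0 : ℂ), L (γ t) y) → (∀ᶠ t in 𝓝 (0 : ℂ), V (γ t) q) → ∀ᶠ t in 𝓝 (0 : ℂ), ∃ c : ℂ, γ t = c • γ 0)
    {ι : Type} [Fintype ι] {Θ : ι → Cn (κ + 1) → ℂ} (hfam : Fam Λ θ Θ) {b₀ : ι} (h0 : NZ Q L (Θ b₀)) (X : ι → K) (hX : ∀ b, IsVal Q ξ L (X b) (Θ b) (Θ b₀)) {Vf : Fin (m + 1) → K} (hw : IsVm Q ξ V Vf) :
    Algebra.IsAlgebraic (IntermediateField.adjoin ℂ (Set.range X ∪ {y | ∃ l l', y = Vf l / Vf l'})) K := by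
  classical
  by_contra hna
  obtain ⟨s, b, j, hs, hb, hS⟩ := exists_basis_of_not_algebraic hz _ hna
  obtain ⟨D, B, hB, hBQ, hBn⟩ := h0
  obtain ⟨D', A', B', hA', hB', hBQ', hrep⟩ := exists_repr hQ hgp (s j)
  obtain ⟨R, ev, j₀, γ, hcur, hΦ, hj, hR, hγ, hγj, hcone, hana, hBγ, hval⟩ := exists_curve_on homog hgp hs b hb j
    (insert (s j) (Finset.univ.image X ∪ Finset.univ.image (fun p : Fin (m + 1) × Fin (m + 1) => Vf p.2 / Vf p.1)))
    (Sum.elim (fun _ : Unit => B) (fun _ : Unit => B'))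
    (by rintro (i | i); exacts [⟨_, hB⟩, ⟨_, hB'⟩]) (by rintro (i | i); exacts [hBQ, hBQ'])
  have hsR := (hΦ (s j) (Finset.mem_insert_self _ _)).1
  have hXR : ∀ b, X b ∈ R := fun b => (hΦ (X b) (Finset.mem_insert_of_mem (Finset.mem_union_left _
    (Finset.mem_image_of_mem _ (Finset.mem_univ b))))).1
  have hVR : ∀ l l', Vf l' / Vf l ∈ R := fun l l' => (hΦ (Vf l' / Vf l) (Finset.mem_insert_of_mem
    (Finset.mem_union_right _ (Finset.mem_image.2 ⟨(l, l'), Finset.mem_univ _, rfl⟩)))).1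
  -- functions with derivation zero are constant
  have hconst : ∀ f (hf : f ∈ R), dualDer b j f = 0 → ∀ᶠ t in 𝓝 (0 : ℂ), ev t ⟨f, hf⟩ = ev 0 ⟨f, hf⟩ := by
    intro f hf hD
    refine al_const (hcur.analytic ⟨f, hf⟩) ?_
    filter_upwards [hcur.deriv f hf] with t ht
    rw [ht]
    have h1 : (⟨dualDer b j f, hcur.stable f hf⟩ : R) = 0 := Subtype.ext hD
    rw [h1, map_zero]
  have hDV : ∀ l l', dualDer b j (Vf l' / Vf l) = 0 := fun l l' => hS _ (Or.inr ⟨l', l, rfl⟩)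
  have hDX : ∀ b', dualDer b j (X b') = 0 := fun b' => hS _ (Or.inl ⟨b', rfl⟩)
  -- the map to the projective space is constant
  obtain ⟨q, hq⟩ := Vm_const hgp hV hw hana (Eventually.of_forall hcone) (w := fun l l' => ev 0 ⟨Vf l' / Vf l, hVR l l'⟩) (by
      have h1 : ∀ᶠ t in 𝓝 (0 : ℂ), ∀ l l', ev t ⟨Vf l' / Vf l, hVR l l'⟩ = ev 0 ⟨Vf l' / Vf l, hVR l l'⟩ :=
        eventually_all.2 fun l => eventually_all.2 fun l' => hconst _ (hVR l l') (hDV l l')
      filter_upwards [h1] with t ht l l' c hc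
      rw [← ht l l']
      exact (hval t _ c (hVR l l') hc).symm)
  -- the map to the torus is constant
  obtain ⟨y₀, hy₀⟩ := hL.ex (γ 0) (hcone 0)
  obtain ⟨y, hya, hy0, hyL⟩ := hL.curve γ hana (Eventually.of_forall hcone) y₀ hy₀
  have hΘ0 : ∀ t, L (γ t) (y t) → Θ b₀ (y t) ≠ 0 := fun t ht => hBn _ _ (hcone t) ht (hBγ t (Sum.inl ()))
  have hyc : ∀ᶠ t in 𝓝 (0 : ℂ), y t = y 0 := by
    refine al_lift hfam hya (hyL.mono fun t ht => hΘ0 t ht) (fun b' => ev 0 ⟨X b', hXR b'⟩) ?_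
    have h1 : ∀ᶠ t in 𝓝 (0 : ℂ), ∀ b', ev t ⟨X b', hXR b'⟩ = ev 0 ⟨X b', hXR b'⟩ :=
      eventually_all.2 fun b' => hconst _ (hXR b') (hDX b')
    filter_upwards [h1, hyL] with t ht hLt b'
    have h2 := hval t (X b') _ (hXR b') (hX b' _ _ (hcone t) hLt (hΘ0 t hLt))
    rw [← ht b', h2, div_mul_cancel₀ _ (hΘ0 t hLt)]
  have hLc : ∀ᶠ t in 𝓝 (0 : ℂ), L (γ t) (y 0) := by
    filter_upwards [hyL, hyc] with t ht1 ht2
    rwa [ht2] at ht1
  -- so the curve is constant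
  have hγc : ∀ᶠ t in 𝓝 (0 : ℂ), γ t = γ 0 := by
    filter_upwards [fin γ (y 0) q hana (Eventually.of_forall hcone) hLc hq] with t ht
    obtain ⟨c, hc⟩ := ht
    have h1 := congrFun hc j₀
    rw [Pi.smul_apply, hγj, hγj, smul_eq_mul, mul_one] at h1
    rw [hc, ← h1, one_smul]
  -- contradiction
  have hs1 : (fun t => ev t ⟨s j, hsR⟩) =ᶠ[𝓝 0] fun _ => eval (γ 0) A' / eval (γ 0) B' := by
    filter_upwards [hγc] with t ht
    have hB0 : eval (γ t) B' ≠ 0 := hBγ t (Sum.inr ())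
    have h1 : RegAt ξ (γ t) (s j) (eval (γ t) A' / eval (γ t) B') :=
      ⟨D', A', B', hA', hB', hB0, hrep, (div_mul_cancel₀ _ hB0).symm⟩
    rw [hval t (s j) _ hsR h1, ht]
  have h1 := (hcur.deriv (s j) hsR).self_of_nhds
  rw [hs1.deriv_eq, deriv_const] at h1
  have h2 : (⟨dualDer b j (s j), hcur.stable (s j) hsR⟩ : R) = 1 := by
    apply Subtype.ext
    show dualDer b j (s j) = 1
    rw [dualDer_coord b hb, if_pos rfl]
  rw [h2, map_one] at h1
  exact zero_ne_one h1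

end Pool.Agent.LT
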