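import Pool.Agent.LT.Sb
import Pool.Agent.H23.Forms

/-!
# LT Ga: the product of the forms is defined over `K`

`b` is the basis of `Ω_K'` given by a transcendence basis `z` of `K`; `fc b (W J i₀ I) = det` of the coordinates.  `σ ∈ Gal (K' / K)`: the dual derivations `dualDer b i` of `K'` commute with `σ` (`σ ∘ D ∘ σ⁻¹` is a derivation which agrees with `D` on `K`; `K' / K` is separable algebraic, so they are equal: a derivation is determined by
its values at the `z i`).  The coordinates of `δ` (in the image of `Ω_K`) are in `K`; `σ (F j) = F (π j)` where `σ (e j) = e (π j)` (`π` a permutation of `Fin r`).  So `σ (fc b (W J i₀ I)) = fc b (W J (π i₀) (π ∘ I))`, the product over all `(i₀, I)` with `W ≠ 0` is invariant, so it is in `K` (`IsGalois.mem_bot_iff_fixed` or similar).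
-/

set_option autoImplicit false

open MvPolynomial
open Pool.Agent.H23 (RatForm PrimeDivisorOver fc dualDer)
open Pool.Agent.LG (dd wd IV FV)

noncomputable section

namespace Pool.Agent.LT

variable {K : Type} [Field K] [Algebra ℂ K] {ι : Type} {k n m D r p f : ℕ}
variable {K' : Type} [Field K'] [Algebra K K'] [Algebra ℂ K'] [IsScalarTower ℂ K K']

open Classical in
/-- the pairs `(i₀, I)` with `W J i₀ I ≠ 0` -/
def pairs (S' : LH.Dat K' ι Bool n m r) (J : Fin p → Fin n) : Finset (Fin r × (Fin f → Fin r)) := Finset.univ.filter fun q => S'.W J q.1 q.2 ≠ 0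

/-- the derivation `σ⁻¹ ∘ D ∘ σ` -/
private def conjDer (σ : K' ≃ₐ[K] K') (d : Derivation ℂ K' K') : Derivation ℂ K' K' :=
  Derivation.mk' ((σ.symm.toLinearMap.restrictScalars ℂ).comp
    ((d : K' →ₗ[ℂ] K').comp (σ.toLinearMap.restrictScalars ℂ))) (by
    intro a b
    change σ.symm (d (σ (a * b))) = a • σ.symm (d (σ b)) + b • σ.symm (d (σ a))
    rw [map_mul, Derivation.leibniz, map_add, smul_eq_mul, smul_eq_mul, smul_eq_mul, smul_eq_mul,
      map_mul, map_mul, AlgEquiv.symm_apply_apply, AlgEquiv.symm_apply_apply])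

private theorem conjDer_apply (σ : K' ≃ₐ[K] K') (d : Derivation ℂ K' K') (a : K') :
    conjDer σ d a = σ.symm (d (σ a)) := rfl

/-- a derivation is determined by its values at the elements whose differentials are a basis -/
private theorem der_ext {N : ℕ} (b : Module.Basis (Fin N) K' Ω[K'⁄ℂ]) {a : Fin N → K'}
    (hb : ∀ i, b i = dd (a i)) {d d' : Derivation ℂ K' K'} (h : ∀ i, d (a i) = d' (a i)) :
    d = d' := by
  have h1 : d.liftKaehlerDifferential = d'.liftKaehlerDifferential := by
    apply b.ext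
    intro i
    rw [hb i]
    change d.liftKaehlerDifferential (KaehlerDifferential.D ℂ K' (a i)) =
      d'.liftKaehlerDifferential (KaehlerDifferential.D ℂ K' (a i))
    rw [Derivation.liftKaehlerDifferential_comp_D, Derivation.liftKaehlerDifferential_comp_D, h i]
  ext x
  rw [← Derivation.liftKaehlerDifferential_comp_D d x, h1,
    Derivation.liftKaehlerDifferential_comp_D]

/-- the dual derivations commute with `σ` -/
private theorem dual_comm {N : ℕ} {z : Fin N → K} (b : Module.Basis (Fin N) K' Ω[K'⁄ℂ])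
    (hb : ∀ i, b i = dd (algebraMap K K' (z i))) (σ : K' ≃ₐ[K] K') (i : Fin N) (a : K') :
    σ (dualDer b i a) = dualDer b i (σ a) := by
  have h : conjDer σ (dualDer b i) = dualDer b i := by
    apply der_ext b hb
    intro j
    rw [conjDer_apply, AlgEquiv.commutes,
      Pool.Agent.H23.dualDer_coord b (a := fun i => algebraMap K K' (z i)) hb i j]
    split_ifs
    · exact map_one _
    · exact map_zero _
  have h1 : conjDer σ (dualDer b i) a = dualDer b i a := by rw [h]
  rw [conjDer_apply] at h1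
  rw [← h1, AlgEquiv.apply_symm_apply]

/-- the coordinates of a differential of `K` are fixed -/
private theorem repr_map {N : ℕ} {z : Fin N → K} (b : Module.Basis (Fin N) K' Ω[K'⁄ℂ])
    (hb : ∀ i, b i = dd (algebraMap K K' (z i))) (σ : K' ≃ₐ[K] K') (i : Fin N) (η : Ω[K⁄ℂ]) :
    σ (b.repr (KaehlerDifferential.map ℂ ℂ K K' η) i) =
      b.repr (KaehlerDifferential.map ℂ ℂ K K' η) i := by
  have hη : η ∈ Submodule.span K (Set.range (KaehlerDifferential.D ℂ K)) := by
    rw [KaehlerDifferential.span_range_derivation]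
    trivial
  induction hη using Submodule.span_induction with
  | mem x hx =>
    obtain ⟨y, rfl⟩ := hx
    rw [KaehlerDifferential.map_D]
    have h := dual_comm b hb σ i (algebraMap K K' y)
    rw [AlgEquiv.commutes] at h
    exact h
  | zero => rw [map_zero, map_zero, Finsupp.zero_apply, map_zero]
  | add x y _ _ hx hy =>
    rw [map_add, map_add, Finsupp.add_apply, map_add, hx, hy]
  | smul c x _ hx =>
    rw [map_smul, ← algebraMap_smul K' c, map_smul, Finsupp.smul_apply, smul_eq_mul, map_mul, hx,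
      AlgEquiv.commutes]

private theorem repr_dlog {N : ℕ} (b : Module.Basis (Fin N) K' Ω[K'⁄ℂ]) (i : Fin N) (a : K') :
    b.repr (LH.dlog a) i = a⁻¹ * dualDer b i a := by
  rw [LH.dlog, map_smul, Finsupp.smul_apply, smul_eq_mul]
  rfl

/-- `σ` permutes the roots -/
private theorem exists_perm (S : Dt K ι n m D) {e : Fin r → K'} (he : S.IsRoots e)
    (σ : K' ≃ₐ[K] K') : ∃ π : Equiv.Perm (Fin r), ∀ j, e (π j) = σ (e j) := by
  have h : ∀ j, ∃ j', e j' = σ (e j) := by
    intro j
    apply (he.root _).1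
    have h1 := (he.root (e j)).2 ⟨j, rfl⟩
    rw [Polynomial.IsRoot.def, Polynomial.eval_map_algebraMap] at h1 ⊢
    have h2 := Polynomial.aeval_algHom_apply σ.toAlgHom (e j) S.P
    change Polynomial.aeval (σ (e j)) S.P = σ (Polynomial.aeval (e j) S.P) at h2
    rw [h2, h1, map_zero]
  choose π hπ using h
  have hinj : Function.Injective π := by
    intro i j hij
    have h1 : σ (e i) = σ (e j) := by rw [← hπ, ← hπ, hij]
    exact he.inj (σ.injective h1)
  exact ⟨Equiv.ofBijective π (Finite.injective_iff_bijective.1 hinj), hπ⟩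

private theorem map_F (S : Dt K ι n m D) {e : Fin r → K'} (σ : K' ≃ₐ[K] K')
    {π : Equiv.Perm (Fin r)} (hπ : ∀ j, e (π j) = σ (e j)) (j : Fin r) :
    σ ((S.up e).F j) = (S.up e).F (π j) := by
  change σ (∑ l : Fin (m + 1), algebraMap K K' (S.V l) * e j ^ (l : ℕ)) =
    ∑ l : Fin (m + 1), algebraMap K K' (S.V l) * e (π j) ^ (l : ℕ)
  rw [map_sum]
  refine Finset.sum_congr rfl fun l _ => ?_
  rw [map_mul, AlgEquiv.commutes, map_pow, hπ]

private theorem map_W {z : Fin (p + f) → K} (b : Module.Basis (Fin (p + f)) K' Ω[K'⁄ℂ])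
    (hb : ∀ i, b i = dd (algebraMap K K' (z i))) (S : Dt K ι n m D) {e : Fin r → K'}
    (σ : K' ≃ₐ[K] K') {π : Equiv.Perm (Fin r)} (hπ : ∀ j, e (π j) = σ (e j)) (J : Fin p → Fin n)
    (i₀ : Fin r) (I : Fin f → Fin r) :
    σ (fc b ((S.up e).W J i₀ I)) = fc b ((S.up e).W J (π i₀) (fun t => π (I t))) := by
  rw [LH.Dat.W, LH.Dat.W, wd, wd, Pool.Agent.H23.fc_ιMulti, Pool.Agent.H23.fc_ιMulti,
    Module.Basis.det_apply, Module.Basis.det_apply]
  have h1 : σ (Matrix.det (b.toMatrix (Fin.append (fun t => (S.up e).δ (J t))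
      (fun t => LH.dlog ((S.up e).F (I t) / (S.up e).F i₀))))) =
      ((b.toMatrix (Fin.append (fun t => (S.up e).δ (J t))
      (fun t => LH.dlog ((S.up e).F (I t) / (S.up e).F i₀)))).map σ).det :=
    RingHom.map_det (σ : K' →+* K') _
  rw [h1]
  congr 1
  ext i j
  rw [Matrix.map_apply, Module.Basis.toMatrix_apply, Module.Basis.toMatrix_apply]
  refine Fin.addCases (fun t => ?_) (fun t => ?_) j
  · rw [Fin.append_left, Fin.append_left]
    exact repr_map b hb σ i (S.δ (J t))
  · rw [Fin.append_right, Fin.append_right, repr_dlog, repr_dlog, map_mul, map_inv₀,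
      dual_comm b hb, map_div₀, map_F S σ hπ, map_F S σ hπ]

private theorem fc_ne {N : ℕ} (b : Module.Basis (Fin N) K' Ω[K'⁄ℂ]) (ω : RatForm K' N) :
    fc b ω ≠ 0 ↔ ω ≠ 0 := by
  constructor
  · intro h h0
    exact h (by rw [h0, map_zero])
  · intro h h0
    apply h
    have h1 := Pool.Agent.H23.eq_fc_smul b ω
    rw [h0, zero_smul] at h1
    exact h1

theorem exists_f₀ [Algebra.EssFiniteType ℂ K] [FiniteDimensional K K'] [IsGalois K K'] {z : Fin (p + f) → K} (hz : IsTranscendenceBasis ℂ z) (b : Module.Basis (Fin (p + f)) K' Ω[K'⁄ℂ]) (hb : ∀ i, b i = dd (algebraMap K K' (z i)))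
    (S : Dt K ι n m D) {e : Fin r → K'} (he : S.IsRoots e) (J : Fin p → Fin n) :
    ∃ f₀ : K, f₀ ≠ 0 ∧ algebraMap K K' f₀ = ∏ q ∈ pairs (f := f) (S.up e) J, fc b ((S.up e).W J q.1 q.2) := by
  classical
  have hfix : ∀ σ : K' ≃ₐ[K] K', σ (∏ q ∈ pairs (f := f) (S.up e) J, fc b ((S.up e).W J q.1 q.2)) =
      ∏ q ∈ pairs (f := f) (S.up e) J, fc b ((S.up e).W J q.1 q.2) := by
    intro σ
    obtain ⟨π, hπ⟩ := exists_perm S he σ
    rw [map_prod]
    have hW := fun q : Fin r × (Fin f → Fin r) => map_W b hb S σ hπ J q.1 q.2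
    refine Finset.prod_bij (fun q _ => (π q.1, fun t => π (q.2 t))) ?_ ?_ ?_ ?_
    · intro q hq
      rw [pairs, Finset.mem_filter] at hq ⊢
      refine ⟨Finset.mem_univ _, (fc_ne b _).1 ?_⟩
      rw [← hW q]
      intro h
      exact (fc_ne b _).2 hq.2 ((map_eq_zero σ).1 h)
    · intro q _ q' _ h
      have h1 := congrArg Prod.fst h
      have h2 := congrArg Prod.snd h
      refine Prod.ext (π.injective h1) (funext fun t => π.injective (congrFun h2 t))
    · intro q hq
      refine ⟨(π.symm q.1, fun t => π.symm (q.2 t)), ?_, ?_⟩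
      · rw [pairs, Finset.mem_filter] at hq ⊢
        refine ⟨Finset.mem_univ _, (fc_ne b _).1 ?_⟩
        intro h
        have h1 := hW (π.symm q.1, fun t => π.symm (q.2 t))
        rw [h, map_zero] at h1
        simp only [Equiv.apply_symm_apply] at h1
        exact (fc_ne b _).2 hq.2 h1.symm
      · simp only [Equiv.apply_symm_apply]
    · intro q _
      exact hW q
  obtain ⟨f₀, hf₀⟩ := (IsGalois.mem_range_algebraMap_iff_fixed _).2 hfix
  refine ⟨f₀, ?_, hf₀⟩
  rintro rfl
  rw [map_zero] at hf₀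
  have h := Finset.prod_eq_zero_iff.1 hf₀.symm
  obtain ⟨q, hq, h1⟩ := h
  rw [pairs, Finset.mem_filter] at hq
  exact (fc_ne b _).2 hq.2 h1

end Pool.Agent.LT
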