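import Pool.Agent.LT.Sc
import Pool.Agent.LG.Wt
import Pool.Agent.LG.Wd
import Pool.Agent.LH.Tm
import Pool.Agent.H23.Forms

/-!
# LT Rk: regularity where the resultant is a unit

All `a_j = 0` (`off_R`): the functions `F^ j = F j / (Y j V l) = ∑_l' (V l' / V l) e^(l')` (or `e^(l' - m)` if `ν (e j) < 0`) are units at `ν`.  `d F^ j = ∑ (power of e j) d (V l' / V l) + ∑ (V l' / V l) d (power of e j)`, the powers are integral at `ν`, and `d (power of e j)` is in the span of the `δ (J t)` (`LH.dd_AL`).  So in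
`W J i₀ I = δ_J ∧ (dF^_(I 1) / F^_(I 1) - dF^_(i₀) / F^_(i₀)) ∧ ⋯` (`dlog Y` is in this span also) the second block is a combination with coefficients integral at `ν` of the `d (V l' / V l)`, and `δ (J t) = ∑ M b d (X b / X c)`, `M ∈ K` integral at `v`.  Expand: `W J i₀ I = ∑ a_T • wd (dd x_T, dd (V l'_T / V l))`, `ν (a_T) ≥ 0`, the functions `x_T`, `V l' / V l`
are in `K`, integral at `v`: `FV.reg`: `o (wd …) ≥ 0`, `wd … = b_T • ω`, `v (b_T) + o ω ≥ 0` (or it is `0`).  `fc b (W …) = ∑ a_T b_T`.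
-/

set_option autoImplicit false

open MvPolynomial
open Pool.Agent.H23 (RatForm PrimeDivisorOver fc dualDer)
open Pool.Agent.LG (dd wd IV FV)

noncomputable section

namespace Pool.Agent.LT

variable {K : Type} [Field K] [Algebra ℂ K] {ι : Type} {k n m D r p f : ℕ}
variable {K' : Type} [Field K'] [Algebra K K'] [Algebra ℂ K'] [IsScalarTower ℂ K K']

section aux

private theorem rk_update {N : ℕ} {u : Fin N → Ω[K⁄ℂ]} {i : Fin N} {s : Ω[K⁄ℂ]}
    (hs : s ∈ Submodule.span K (u '' {i}ᶜ)) : wd (Function.update u i (u i + s)) = wd u := by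
  have h0 : (exteriorPower.ιMulti K N : (Ω[K⁄ℂ]) [⋀^Fin N]→ₗ[K] _) (Function.update u i s) = 0 := by
    apply AlternatingMap.map_linearDependent
    intro hli
    have h1 := hli.notMem_span_image (s := {i}ᶜ) (x := i) (fun h => h rfl)
    rw [Function.update_self] at h1
    apply h1
    have h2 : Function.update u i s '' {i}ᶜ = u '' {i}ᶜ := by
      apply Set.image_congr
      intro j hj
      exact Function.update_of_ne hj _ _
    rw [h2]
    exact hs
  unfold wd
  rw [AlternatingMap.map_update_add, Function.update_eq_self, h0, add_zero]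

private theorem rk_append {η : Fin p → Ω[K⁄ℂ]} {ζ s : Fin f → Ω[K⁄ℂ]} (hs : ∀ t, s t ∈ Submodule.span K (Set.range η)) :
    wd (Fin.append η (fun t => ζ t + s t)) = wd (Fin.append η ζ) := by
  classical
  have key : ∀ T : Finset (Fin f), wd (Fin.append η (fun t => if t ∈ T then ζ t + s t else ζ t)) = wd (Fin.append η ζ) := by
    intro T
    induction T using Finset.induction_on with
    | empty => simp
    | insert a T ha ih =>
      rw [← ih]
      have h1 : Fin.append η (fun t => if t ∈ insert a T then ζ t + s t else ζ t) =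
          Function.update (Fin.append η (fun t => if t ∈ T then ζ t + s t else ζ t)) (Fin.natAdd p a)
            (Fin.append η (fun t => if t ∈ T then ζ t + s t else ζ t) (Fin.natAdd p a) + s a) := by
        funext l
        refine Fin.addCases (fun l => ?_) (fun l => ?_) l
        · rw [Function.update_of_ne, Fin.append_left, Fin.append_left]
          intro h
          have h2 := congrArg Fin.val h
          rw [Fin.val_castAdd, Fin.val_natAdd] at h2
          omega
        · by_cases hl : l = a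
          · subst hl
            rw [Function.update_self, Fin.append_right, Fin.append_right, if_pos (Finset.mem_insert_self l T), if_neg ha]
          · rw [Function.update_of_ne, Fin.append_right, Fin.append_right]
            · simp only [Finset.mem_insert, hl, false_or]
            · intro h
              exact hl (Fin.natAdd_injective _ _ h)
      rw [h1]
      apply rk_update
      refine Submodule.span_mono ?_ (hs a)
      rintro _ ⟨t, rfl⟩
      refine ⟨Fin.castAdd f t, ?_, Fin.append_left _ _ _⟩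
      intro h
      have h2 := congrArg Fin.val (Set.mem_singleton_iff.1 h)
      rw [Fin.val_castAdd, Fin.val_natAdd] at h2
      omega
  have h1 := key Finset.univ
  simpa using h1

private theorem rk_dlog_mul {a b : K} (ha : a ≠ 0) (hb : b ≠ 0) : LH.dlog (a * b) = LH.dlog a + LH.dlog b := by
  unfold LH.dlog LG.dd
  rw [Derivation.leibniz, smul_add, smul_smul, smul_smul, add_comm]
  congr 2
  · field_simp
  · field_simp

private theorem rk_dlog_inv {a : K} (ha : a ≠ 0) : LH.dlog (a⁻¹) = -LH.dlog a := by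
  have h1 := rk_dlog_mul ha (inv_ne_zero ha)
  rw [mul_inv_cancel₀ ha] at h1
  have h2 : LH.dlog (1 : K) = 0 := by
    unfold LH.dlog LG.dd
    rw [Derivation.map_one_eq_zero, smul_zero]
  rw [h2] at h1
  exact (neg_eq_of_add_eq_zero_right h1.symm).symm

private theorem rk_dlog_div {a b : K} (ha : a ≠ 0) (hb : b ≠ 0) : LH.dlog (a / b) = LH.dlog a - LH.dlog b := by
  rw [div_eq_mul_inv, rk_dlog_mul ha (inv_ne_zero hb), rk_dlog_inv hb, sub_eq_add_neg]

private theorem rk_expand {N : ℕ} {β : Type} [Fintype β] {η : Fin N → Ω[K⁄ℂ]} {M : Fin N → β → K} {ζ : β → Ω[K⁄ℂ]}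
    (hη : ∀ i, η i = ∑ b, M i b • ζ b) :
    wd η = ∑ J : Fin N → β, (∏ i, M i (J i)) • wd (fun i => ζ (J i)) := by
  classical
  have h1 : η = fun i => ∑ b, M i b • ζ b := funext hη
  have h2 : wd η = (exteriorPower.ιMulti K N).toMultilinearMap (fun i => ∑ b, M i b • ζ b) := by
    rw [h1]; rfl
  rw [h2, MultilinearMap.map_sum]
  refine Finset.sum_congr rfl fun J _ => ?_
  rw [MultilinearMap.map_smul_univ]
  rfl

/-- integral at `v` -/
private def Nn (v : K → ℤ) (a : K) : Prop := a ≠ 0 → 0 ≤ v a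

omit [Algebra ℂ K] in
private theorem nn_zero (v : K → ℤ) : Nn v 0 := fun h => absurd rfl h

private theorem nn_const {v : K → ℤ} (h : IV K v) (c : ℂ) : Nn v (algebraMap ℂ K c) := by
  intro h0
  rw [h.const c (fun hc => h0 (by rw [hc, map_zero]))]

private theorem nn_one {v : K → ℤ} (h : IV K v) : Nn v 1 := by
  have h1 := nn_const h 1
  rwa [map_one] at h1

private theorem nn_mul {v : K → ℤ} (h : IV K v) {a b : K} (ha : Nn v a) (hb : Nn v b) : Nn v (a * b) := by
  intro h0
  have h1 := left_ne_zero_of_mul h0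
  have h2 := right_ne_zero_of_mul h0
  rw [h.mul h1 h2]
  exact add_nonneg (ha h1) (hb h2)

private theorem nn_add {v : K → ℤ} (h : IV K v) {a b : K} (ha : Nn v a) (hb : Nn v b) : Nn v (a + b) := by
  intro h0
  by_cases h1 : a = 0
  · rw [h1, zero_add] at h0 ⊢; exact hb h0
  by_cases h2 : b = 0
  · rw [h2, add_zero] at h0 ⊢; exact ha h0
  exact (le_min (ha h1) (hb h2)).trans (h.add h1 h2 h0)

private theorem nn_neg {v : K → ℤ} (h : IV K v) {a : K} (ha : Nn v a) : Nn v (-a) := by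
  have h1 := nn_mul h (nn_const h (-1)) ha
  rwa [map_neg, map_one, neg_one_mul] at h1

private theorem nn_sub {v : K → ℤ} (h : IV K v) {a b : K} (ha : Nn v a) (hb : Nn v b) : Nn v (a - b) := by
  rw [sub_eq_add_neg]
  exact nn_add h ha (nn_neg h hb)

private theorem nn_prod {v : K → ℤ} (h : IV K v) {α : Type} (s : Finset α) (a : α → K) (ha : ∀ i ∈ s, Nn v (a i)) : Nn v (∏ i ∈ s, a i) := by
  classical
  induction s using Finset.induction_on with
  | empty => rw [Finset.prod_empty]; exact nn_one h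
  | insert i s hi ih =>
    rw [Finset.prod_insert hi]
    exact nn_mul h (ha i (Finset.mem_insert_self _ _)) (ih fun j hj => ha j (Finset.mem_insert_of_mem hj))

private theorem iv_one {v : K → ℤ} (h : IV K v) : v 1 = 0 := by
  simpa using h.const 1 one_ne_zero

private theorem iv_inv {v : K → ℤ} (h : IV K v) {a : K} (ha : a ≠ 0) : v a⁻¹ = -v a := by
  have h1 := h.mul ha (inv_ne_zero ha)
  rw [mul_inv_cancel₀ ha, iv_one h] at h1
  omega

private theorem iv_div {v : K → ℤ} (h : IV K v) {a b : K} (ha : a ≠ 0) (hb : b ≠ 0) : v (a / b) = v a - v b := by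
  rw [div_eq_mul_inv, h.mul ha (inv_ne_zero hb), iv_inv h hb, sub_eq_add_neg]

private theorem iv_pow {v : K → ℤ} (h : IV K v) {a : K} (ha : a ≠ 0) (N : ℕ) : v (a ^ N) = N * v a := by
  induction N with
  | zero => rw [pow_zero, iv_one h]; simp
  | succ N ih =>
    rw [pow_succ, h.mul (pow_ne_zero N ha) ha, ih]
    push_cast
    ring

private theorem iv_sum {v : K → ℤ} (h : IV K v) {α : Type} (s : Finset α) (T : α → K) {g : ℤ} (hT : ∀ a ∈ s, T a ≠ 0 → 0 ≤ v (T a) + g)
    (hs : ∑ a ∈ s, T a ≠ 0) : 0 ≤ v (∑ a ∈ s, T a) + g := by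
  classical
  induction s using Finset.induction_on with
  | empty => exact absurd Finset.sum_empty hs
  | insert a s ha ih =>
    rw [Finset.sum_insert ha] at hs ⊢
    by_cases h1 : T a = 0
    · rw [h1, zero_add] at hs ⊢
      exact ih (fun b hb => hT b (Finset.mem_insert_of_mem hb)) hs
    by_cases h2 : ∑ a ∈ s, T a = 0
    · rw [h2, add_zero]
      exact hT a (Finset.mem_insert_self a s) h1
    have h3 := ih (fun b hb => hT b (Finset.mem_insert_of_mem hb)) h2
    have h4 := hT a (Finset.mem_insert_self a s) h1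
    have h5 := h.add h1 h2 hs
    rcases min_le_iff.1 h5 with h6 | h6 <;> omega

end aux

section up

variable {N : ℕ}

private theorem rk_map (a : K) : KaehlerDifferential.map ℂ ℂ K K' (dd a) = dd (algebraMap K K' a) := KaehlerDifferential.map_D ℂ ℂ K K' a

private theorem rk_repr (B₀ : Module.Basis (Fin N) K Ω[K⁄ℂ]) (B : Module.Basis (Fin N) K' Ω[K'⁄ℂ]) (hB : ∀ i, B i = KaehlerDifferential.map ℂ ℂ K K' (B₀ i)) (η : Ω[K⁄ℂ]) (i : Fin N) :
    B.repr (KaehlerDifferential.map ℂ ℂ K K' η) i = algebraMap K K' (B₀.repr η i) := by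
  have h1 : KaehlerDifferential.map ℂ ℂ K K' η = ∑ j, algebraMap K K' (B₀.repr η j) • B j := by
    conv_lhs => rw [← B₀.sum_repr η]
    rw [map_sum]
    refine Finset.sum_congr rfl fun j _ => ?_
    rw [map_smul, hB, algebraMap_smul]
  rw [h1, map_sum, Finsupp.finsetSum_apply]
  simp only [map_smul, Module.Basis.repr_self, Finsupp.smul_apply, Finsupp.single_apply, smul_eq_mul, mul_ite, mul_one, mul_zero, Finset.sum_ite_eq', Finset.mem_univ, if_true]

private theorem rk_fc (B₀ : Module.Basis (Fin N) K Ω[K⁄ℂ]) (B : Module.Basis (Fin N) K' Ω[K'⁄ℂ]) (hB : ∀ i, B i = KaehlerDifferential.map ℂ ℂ K K' (B₀ i)) (η : Fin N → Ω[K⁄ℂ]) :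
    fc B (wd fun i => KaehlerDifferential.map ℂ ℂ K K' (η i)) = algebraMap K K' (fc B₀ (wd η)) := by
  unfold wd
  rw [Pool.Agent.H23.fc_ιMulti, Pool.Agent.H23.fc_ιMulti, Module.Basis.det_apply, Module.Basis.det_apply, RingHom.map_det]
  congr 1
  ext i j
  exact rk_repr B₀ B hB (η j) i

private theorem rk_term {z : Fin N → K} (B₀ : Module.Basis (Fin N) K Ω[K⁄ℂ]) (hB₀ : ∀ i, B₀ i = dd (z i)) {v : K → ℤ} {o : RatForm K N → ℤ} (h : FV N v o) {x : Fin N → K} (hx : ∀ i, Nn v (x i))
    (hne : fc B₀ (wd fun i => dd (x i)) ≠ 0) : 0 ≤ v (fc B₀ (wd fun i => dd (x i))) + o (wd fun i => dd (z i)) := by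
  have h1 : (wd fun i => dd (x i)) = fc B₀ (wd fun i => dd (x i)) • wd fun i => dd (z i) := by
    conv_lhs => rw [Pool.Agent.H23.eq_fc_smul B₀ (wd fun i => dd (x i))]
    simp only [hB₀]
    rfl
  have h2 : (wd fun i => dd (x i)) ≠ 0 := by
    intro h0
    rw [h0, map_zero] at hne
    exact hne rfl
  have h3 : (wd fun i => dd (z i)) ≠ 0 := by
    intro h0
    rw [h0, smul_zero] at h1
    exact h2 h1
  rw [← h.smul hne h3, ← h1]
  exact h.reg x hx h2

private theorem rk_main {z : Fin N → K} (B₀ : Module.Basis (Fin N) K Ω[K⁄ℂ]) (hB₀ : ∀ i, B₀ i = dd (z i)) (B : Module.Basis (Fin N) K' Ω[K'⁄ℂ]) (hB : ∀ i, B i = dd (algebraMap K K' (z i))) {v : K → ℤ} {o : RatForm K N → ℤ}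
    (h : FV N v o) {ν : K' → ℤ} {b : ℤ} (hb : 1 ≤ b) (hν : IV K' ν) (hνv : ∀ a, a ≠ 0 → ν (algebraMap K K' a) = b * v a) {β : Type} [Fintype β] {x : β → K} (hx : ∀ s, Nn v (x s)) {a : Fin N → β → K'} (ha : ∀ i s, Nn ν (a i s))
    {η : Fin N → Ω[K'⁄ℂ]} (hη : ∀ i, η i = ∑ s, a i s • dd (algebraMap K K' (x s))) (hne : wd η ≠ 0) : 0 ≤ ν (fc B (wd η)) + b * o (wd fun i => dd (z i)) := by
  classical
  have hBB : ∀ i, B i = KaehlerDifferential.map ℂ ℂ K K' (B₀ i) := fun i => by rw [hB, hB₀, rk_map]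
  have h0 : fc B (wd η) ≠ 0 := by
    intro h0
    apply hne
    rw [Pool.Agent.H23.eq_fc_smul B (wd η), h0, zero_smul]
  have h1 : fc B (wd η) = ∑ J : Fin N → β, (∏ i, a i (J i)) * algebraMap K K' (fc B₀ (wd fun i => dd (x (J i)))) := by
    rw [rk_expand hη, map_sum]
    refine Finset.sum_congr rfl fun J _ => ?_
    rw [map_smul, smul_eq_mul, ← rk_fc B₀ B hBB]
    simp only [rk_map]
  rw [h1] at h0 ⊢
  refine iv_sum hν _ _ (fun J _ hJ => ?_) h0
  have h2 := left_ne_zero_of_mul hJ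
  have h3 := right_ne_zero_of_mul hJ
  have h4 : fc B₀ (wd fun i => dd (x (J i))) ≠ 0 := fun h => h3 (by rw [h, map_zero])
  rw [hν.mul h2 h3, hνv _ h4]
  have h5 := nn_prod hν Finset.univ (fun i => a i (J i)) (fun i _ => ha i _) h2
  have h6 := rk_term B₀ hB₀ h (fun i => hx (J i)) h4
  nlinarith

end up

private theorem rk_coef {S : Dt K ι n m D} {e : Fin r → K'} {ν : K' → ℤ} (hν : IV K' ν) (j : Fin r) (l' : Fin (m + 1)) : Nn ν (e j ^ (l' : ℕ) / (S.up e).Y j (zc ν e j)) := by
  classical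
  change Nn ν (e j ^ (l' : ℕ) / (if zc ν e j then e j ^ m else 1))
  unfold zc
  by_cases h : e j ≠ 0 ∧ ν (e j) < 0
  · rw [if_pos (decide_eq_true h)]
    intro h0
    rw [iv_div hν (pow_ne_zero _ h.1) (pow_ne_zero _ h.1), iv_pow hν h.1, iv_pow hν h.1]
    have h1 : ((l' : ℕ) : ℤ) ≤ m := by exact_mod_cast Nat.lt_succ_iff.1 l'.2
    nlinarith [h.2]
  · rw [if_neg (by simpa using h), div_one]
    intro h0
    by_cases h1 : e j = 0
    · by_cases h2 : (l' : ℕ) = 0
      · rw [h2, pow_zero, iv_one hν]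
      · exact absurd (by rw [h1, zero_pow h2]) h0
    · rw [iv_pow hν h1]
      have h3 : 0 ≤ ν (e j) := by
        by_contra hc
        exact h ⟨h1, not_le.1 hc⟩
      positivity

private theorem rk_alg {S : Dt K ι n m D} {e : Fin r → K'} (hb : (S.up e).Base 1) (z : Fin r → Bool) (j : Fin r) (l' : Fin (m + 1)) : (S.up e).AL (e j ^ (l' : ℕ) / (S.up e).Y j (z j)) := by
  have h1 : (S.up e).AL (e j ^ (l' : ℕ)) := by
    by_cases hm : m = 0
    · have h2 : (l' : ℕ) = 0 := by have := l'.2; omega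
      rw [h2, pow_zero]
      exact isAlgebraic_one
    · have h2 : (S.up e).AL (e j ^ m) := hb.Y_alg j true
      have h3 : (S.up e).AL (e j) := IsAlgebraic.of_pow (Nat.pos_of_ne_zero hm) h2
      exact IsAlgebraic.pow h3 _
  have h2 := hb.Y_alg j (z j)
  unfold LH.Dat.AL at *
  rw [div_eq_mul_inv]
  exact h1.mul h2.inv

/-- the logarithmic differential of `F j`, up to differentials of the base -/
private theorem rk_dlogF {S : Dt K ι n m D} {e : Fin r → K'} (hbase : (S.up e).Base 1) {J : Fin p → Fin n} (hJ : (S.up e).Bas J) (z : Fin r → Bool) {l : Fin (m + 1)} (hV : S.V l ≠ 0) (hY : ∀ j, (S.up e).Y j (z j) ≠ 0) (j : Fin r) :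
    LH.dlog ((S.up e).F j) - LH.dlog (algebraMap K K' (S.V l)) - ∑ l' : Fin (m + 1), (((S.up e).F j / ((S.up e).Y j (z j) * algebraMap K K' (S.V l)))⁻¹ * (e j ^ (l' : ℕ) / (S.up e).Y j (z j))) • dd (algebraMap K K' (S.V l' / S.V l)) ∈
      Submodule.span K' (Set.range fun t => (S.up e).δ (J t)) := by
  have hV' : algebraMap K K' (S.V l) ≠ 0 := (map_ne_zero _).2 hV
  have hF := hbase.F_ne j
  set Fh := (S.up e).F j / ((S.up e).Y j (z j) * algebraMap K K' (S.V l)) with hFh
  have hFh0 : Fh ≠ 0 := div_ne_zero hF (mul_ne_zero (hY j) hV')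
  have h1 : (S.up e).F j = Fh * ((S.up e).Y j (z j) * algebraMap K K' (S.V l)) := by
    rw [hFh, div_mul_cancel₀ _ (mul_ne_zero (hY j) hV')]
  have h2 : LH.dlog ((S.up e).F j) = LH.dlog Fh + (LH.dlog ((S.up e).Y j (z j)) + LH.dlog (algebraMap K K' (S.V l))) := by
    conv_lhs => rw [h1]
    rw [rk_dlog_mul hFh0 (mul_ne_zero (hY j) hV'), rk_dlog_mul (hY j) hV']
  have h3 : Fh = ∑ l' : Fin (m + 1), (e j ^ (l' : ℕ) / (S.up e).Y j (z j)) * algebraMap K K' (S.V l' / S.V l) := by
    have h4 : (S.up e).F j = ∑ l' : Fin (m + 1), algebraMap K K' (S.V l') * e j ^ (l' : ℕ) := rfl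
    rw [hFh, h4, Finset.sum_div]
    refine Finset.sum_congr rfl fun l' _ => ?_
    rw [map_div₀]
    have := hY j
    field_simp
  have h4 : LH.dlog Fh = ∑ l' : Fin (m + 1), (Fh⁻¹ * (e j ^ (l' : ℕ) / (S.up e).Y j (z j))) • dd (algebraMap K K' (S.V l' / S.V l)) +
      ∑ l' : Fin (m + 1), (Fh⁻¹ * algebraMap K K' (S.V l' / S.V l)) • dd (e j ^ (l' : ℕ) / (S.up e).Y j (z j)) := by
    have h5 : dd Fh = ∑ l' : Fin (m + 1), ((e j ^ (l' : ℕ) / (S.up e).Y j (z j)) • dd (algebraMap K K' (S.V l' / S.V l)) + algebraMap K K' (S.V l' / S.V l) • dd (e j ^ (l' : ℕ) / (S.up e).Y j (z j))) := by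
      conv_lhs => rw [h3]
      unfold LG.dd
      rw [map_sum]
      refine Finset.sum_congr rfl fun l' _ => ?_
      rw [Derivation.leibniz]
    unfold LH.dlog
    rw [h5, Finset.smul_sum, ← Finset.sum_add_distrib]
    refine Finset.sum_congr rfl fun l' _ => ?_
    rw [smul_add, smul_smul, smul_smul]
  have h5 : LH.dlog ((S.up e).F j) - LH.dlog (algebraMap K K' (S.V l)) - ∑ l' : Fin (m + 1), (Fh⁻¹ * (e j ^ (l' : ℕ) / (S.up e).Y j (z j))) • dd (algebraMap K K' (S.V l' / S.V l)) =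
      LH.dlog ((S.up e).Y j (z j)) + ∑ l' : Fin (m + 1), (Fh⁻¹ * algebraMap K K' (S.V l' / S.V l)) • dd (e j ^ (l' : ℕ) / (S.up e).Y j (z j)) := by
    rw [h2, h4]
    abel
  rw [h5]
  refine Submodule.add_mem _ (Submodule.smul_mem _ _ (LH.dd_AL hbase hJ (hbase.Y_alg j (z j)))) (Submodule.sum_mem _ fun l' _ => Submodule.smul_mem _ _ (LH.dd_AL hbase hJ (rk_alg hbase z j l')))

theorem W_reg_up [Fintype ι] [Algebra.EssFiniteType ℂ K] [FiniteDimensional K K'] {z : Fin (p + f) → K} (hz : IsTranscendenceBasis ℂ z) (B : Module.Basis (Fin (p + f)) K' Ω[K'⁄ℂ]) (hB : ∀ i, B i = dd (algebraMap K K' (z i)))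
    {S : Dt K ι n m D} (hS : S.Base) {e : Fin r → K'} (he : S.IsRoots e) {J : Fin p → Fin n} (hJ : (S.up e).Bas J) {v : K → ℤ} {o : RatForm K (p + f) → ℤ} (h : FV (p + f) v o) {ν : K' → ℤ} {b : ℤ} (hb : 1 ≤ b) (hν : IV K' ν)
    (hνv : ∀ a, a ≠ 0 → ν (algebraMap K K' a) = b * v a) {c : ι} {l : Fin (m + 1)} (hc : S.Chart v c l) (hoff : ∀ j, ν ((S.up e).F j) = ν ((S.up e).Y j (zc ν e j)) + ν ((S.up e).V l)) {i₀ : Fin r} {I : Fin f → Fin r} (hW : (S.up e).W J i₀ I ≠ 0) :
    0 ≤ ν (fc B ((S.up e).W J i₀ I)) + b * o (wd fun i => dd (z i)) := by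
  classical
  have hbase := base_up S hS he
  have hch := ch_up hS he hb hν hνv hc
  obtain ⟨B₀, hB₀⟩ := Pool.Agent.H23.exists_basis_kaehler hz
  obtain ⟨M, hM, hδ⟩ := hc.mat
  have hv := h.toIV
  have hV' : algebraMap K K' (S.V l) ≠ 0 := (map_ne_zero _).2 hc.Vne
  have hup : ∀ a, Nn v a → Nn ν (algebraMap K K' a) := by
    intro a ha h0
    have h1 : a ≠ 0 := fun h => h0 (by rw [h, map_zero])
    rw [hνv a h1]
    have := ha h1
    nlinarith
  set Fh : Fin r → K' := fun j => (S.up e).F j / ((S.up e).Y j (zc ν e j) * algebraMap K K' (S.V l)) with hFh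
  have hFh0 : ∀ j, Fh j ≠ 0 := fun j => div_ne_zero (hbase.F_ne j) (mul_ne_zero (hch.Yne j) hV')
  have hFhν : ∀ j, Nn ν (Fh j)⁻¹ := by
    intro j _
    have h1 : ν (Fh j) = 0 := by
      rw [hFh]
      change ν ((S.up e).F j / ((S.up e).Y j (zc ν e j) * algebraMap K K' (S.V l))) = 0
      rw [iv_div hν (hbase.F_ne j) (mul_ne_zero (hch.Yne j) hV'), hν.mul (hch.Yne j) hV', hoff j]
      exact sub_self _
    rw [iv_inv hν (hFh0 j), h1]
    exact le_refl 0
  set q : Fin r → Fin (m + 1) → K' := fun j l' => (Fh j)⁻¹ * (e j ^ (l' : ℕ) / (S.up e).Y j (zc ν e j)) with hq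
  have hqν : ∀ j l', Nn ν (q j l') := fun j l' => nn_mul hν (hFhν j) (rk_coef hν j l')
  set ζ : Fin f → Ω[K'⁄ℂ] := fun t => ∑ l', (q (I t) l' - q i₀ l') • dd (algebraMap K K' (S.V l' / S.V l)) with hζ
  have hdF : ∀ j, LH.dlog ((S.up e).F j) - LH.dlog (algebraMap K K' (S.V l)) - ∑ l', q j l' • dd (algebraMap K K' (S.V l' / S.V l)) ∈ Submodule.span K' (Set.range fun t => (S.up e).δ (J t)) :=
    fun j => rk_dlogF hbase hJ (zc ν e) hc.Vne hch.Yne j
  have hs : ∀ t, LH.dlog ((S.up e).F (I t) / (S.up e).F i₀) - ζ t ∈ Submodule.span K' (Set.range fun t => (S.up e).δ (J t)) := by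
    intro t
    have h1 := Submodule.sub_mem _ (hdF (I t)) (hdF i₀)
    have h2 : LH.dlog ((S.up e).F (I t) / (S.up e).F i₀) - ζ t = (LH.dlog ((S.up e).F (I t)) - LH.dlog (algebraMap K K' (S.V l)) - ∑ l', q (I t) l' • dd (algebraMap K K' (S.V l' / S.V l))) -
        (LH.dlog ((S.up e).F i₀) - LH.dlog (algebraMap K K' (S.V l)) - ∑ l', q i₀ l' • dd (algebraMap K K' (S.V l' / S.V l))) := by
      rw [rk_dlog_div (hbase.F_ne _) (hbase.F_ne _), hζ]
      simp only [sub_smul, Finset.sum_sub_distrib]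
      abel
    rw [h2]
    exact h1
  have hWeq : (S.up e).W J i₀ I = wd (Fin.append (fun t => (S.up e).δ (J t)) ζ) := by
    unfold LH.Dat.W
    rw [← rk_append (ζ := ζ) hs]
    congr 2
    funext t
    abel
  rw [hWeq] at hW ⊢
  set x : ι ⊕ Fin (m + 1) → K := Sum.elim (fun b => S.X b / S.X c) (fun l' => S.V l' / S.V l) with hx
  set a : Fin (p + f) → ι ⊕ Fin (m + 1) → K' := Fin.append (fun t => Sum.elim (fun b => algebraMap K K' (M (J t) b)) fun _ => 0) (fun t => Sum.elim (fun _ => 0) fun l' => q (I t) l' - q i₀ l') with ha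
  refine rk_main B₀ hB₀ B hB h hb hν hνv (x := x) ?_ (a := a) ?_ ?_ hW
  · rintro (b' | l') h0
    · change S.X b' / S.X c ≠ 0 at h0
      have h1 : S.X b' ≠ 0 := fun h => h0 (by rw [h, zero_div])
      change 0 ≤ v (S.X b' / S.X c)
      rw [iv_div hv h1 hc.Xne]
      have := hc.Xle b' h1
      omega
    · change S.V l' / S.V l ≠ 0 at h0
      have h1 : S.V l' ≠ 0 := fun h => h0 (by rw [h, zero_div])
      change 0 ≤ v (S.V l' / S.V l)
      rw [iv_div hv h1 hc.Vne]
      have := hc.Vle l' h1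
      omega
  · intro i s
    refine Fin.addCases (fun t => ?_) (fun t => ?_) i
    · rw [ha, Fin.append_left]
      rcases s with b' | l'
      · exact hup _ (hM _ _)
      · exact nn_zero _
    · rw [ha, Fin.append_right]
      rcases s with b' | l'
      · exact nn_zero _
      · exact nn_sub hν (hqν _ _) (hqν _ _)
  · intro i
    refine Fin.addCases (fun t => ?_) (fun t => ?_) i
    · rw [ha, Fin.append_left, Fin.append_left, Fintype.sum_sum_type]
      simp only [Sum.elim_inl, Sum.elim_inr, zero_smul, Finset.sum_const_zero, add_zero]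
      change KaehlerDifferential.map ℂ ℂ K K' (S.δ (J t)) = _
      rw [hδ, map_sum]
      refine Finset.sum_congr rfl fun b' _ => ?_
      rw [map_smul, rk_map, algebraMap_smul]
      rfl
    · rw [ha, Fin.append_right, Fin.append_right, Fintype.sum_sum_type]
      simp only [Sum.elim_inl, Sum.elim_inr, zero_smul, Finset.sum_const_zero, zero_add]
      rfl

end Pool.Agent.LT
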