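import Pool.Agent.LT.Ov
import Pool.Agent.LT.Ga
import Pool.Agent.LT.Rk
import Pool.Agent.LH.Gh

/-!
# LT Bm: the bound

`exists_roots`: `K'`, `e`, `2 m + 1 ≤ r`; `S' = S.up e`, `base_up`.  `LH.exists_J` over `K'` (transcendence basis `algebraMap ∘ z`): `p + f = k + 1` (transport `z` along this equation), `J`.  `exists_f₀`; `m₀` = the number of the pairs, `≥ 1` by `LH.exists_I`; `ω = wd (dd ∘ z)`, `ω' = wd (dd ∘ algebraMap ∘ z)`, `W = fc B W • ω'`.
At `E`: `exists_fv_over`; chart `c`, `l`; `ch_up`.  `∑_pairs (o' (W) + 1) = ν (f₀) + m₀ (o' ω' + 1) = b (v f₀ + m₀ (o ω + 1))`; all summands are `≥ 0` (`LH.W_log`).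
* `LH.exists_H`; the set of the `j` with `∀ h ∈ H, ν h < a_j` has at most `m` elements, so its complement has at least `m + 1` (`2 m + 1 ≤ r`); `LH.exists_I` for `m + 1` of them gives a pair to which `LH.form_bound` applies: `∑_j a_j ≤ r N (o' (W) + 1)`; `LH.base_bound` for the finitely many `X (cf last) / X c`.  `le_R`: `b (v R - m v (X c) - D v (V l)) ≤ N' ∑ (o' (W) + 1)`.
* `off_R`, `W_reg_up`: `b (v f₀ + m₀ o ω) = ∑ (ν (fc B W) + b o ω) ≥ 0`.
-/

set_option autoImplicit false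

open MvPolynomial
open Pool.Agent.H23 (RatForm PrimeDivisorOver)
open Pool.Agent.LG (dd wd IV FV)

noncomputable section

namespace Pool.Agent.LT

variable {K : Type} [Field K] [Algebra ℂ K] {ι : Type} {k n m D r p f : ℕ}

/-- the order of a product -/
private theorem iv_prod {L : Type} [Field L] [Algebra ℂ L] {v : L → ℤ} (hv : IV L v) {σ : Type} (s : Finset σ) (g : σ → L) (hg : ∀ i ∈ s, g i ≠ 0) : v (∏ i ∈ s, g i) = ∑ i ∈ s, v (g i) := by
  classical
  induction s using Finset.induction_on with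
  | empty =>
    have h := hv.const 1 one_ne_zero
    rw [map_one] at h
    rw [Finset.prod_empty, Finset.sum_empty, h]
  | insert a s ha ih =>
    rw [Finset.prod_insert ha, Finset.sum_insert ha, hv.mul (hg a (Finset.mem_insert_self a s)) (Finset.prod_ne_zero_iff.2 fun i hi => hg i (Finset.mem_insert_of_mem hi)),
      ih fun i hi => hg i (Finset.mem_insert_of_mem hi)]

/-- the leading coefficient of `P` -/
private theorem lead_ne {S : Dt K ι n m D} (hS : S.Base) : S.X (S.cf (Fin.last D)) ≠ 0 := by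
  intro h
  have h1 : S.P.coeff D = S.X (S.cf (Fin.last D)) := by
    unfold Dt.P
    rw [Polynomial.finset_sum_coeff, Finset.sum_eq_single (Fin.last D)]
    · rw [Polynomial.coeff_C_mul, Polynomial.coeff_X_pow, Fin.val_last, if_pos rfl, mul_one]
    · intro i _ hi
      rw [Polynomial.coeff_C_mul, Polynomial.coeff_X_pow, if_neg, mul_zero]
      intro hc
      exact hi (Fin.ext (by rw [Fin.val_last]; exact hc.symm))
    · intro hc
      exact absurd (Finset.mem_univ _) hc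
  have h2 : S.P ≠ 0 := by
    intro hc
    apply hS.zero
    rw [hc, Polynomial.coeff_zero]
  apply h2
  rw [← Polynomial.leadingCoeff_eq_zero, Polynomial.leadingCoeff, hS.deg, h1, h]

/-- the quotients `X a / X c` are functions of the base -/
private theorem al_div {K' : Type} [Field K'] [Algebra K K'] [Algebra ℂ K'] [IsScalarTower ℂ K K'] (S : Dt K ι n m D) (e : Fin r → K') (a c : ι) : (S.up e).AL (algebraMap K K' (S.X a / S.X c)) := by
  have h : algebraMap K K' (S.X a / S.X c) ∈ IntermediateField.adjoin ℂ (Set.range (S.up e).X) := by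
    rw [map_div₀]
    exact div_mem (IntermediateField.subset_adjoin ℂ _ ⟨a, rfl⟩) (IntermediateField.subset_adjoin ℂ _ ⟨c, rfl⟩)
  exact isAlgebraic_algebraMap (⟨_, h⟩ : IntermediateField.adjoin ℂ (Set.range (S.up e).X))

private theorem le_tot {σ : Type} (s : Finset σ) (g : σ → ℤ) (T : ℤ) (hT : ∑ q ∈ s, g q = T) (h : ∀ q ∈ s, 0 ≤ g q) (q : σ) (hq : q ∈ s) : g q ≤ T := by
  rw [← hT]
  exact Finset.single_le_sum h hq

private theorem num (m D r : ℕ) (N₁ N₂ b X Y A T s : ℤ) (hN₁ : 0 ≤ N₁) (hN₂ : 0 ≤ N₂) (hb : 1 ≤ b) (hT : 0 ≤ T) (hA : A ≤ b * T) (hlead : Y ≤ N₁ * A) (hs : s ≤ r * (N₂ * A)) (hR : b * X ≤ m * Y + D * s) :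
    X ≤ (m * N₁ + D * (r * N₂) + 1) * T := by
  have hC : 0 ≤ (m : ℤ) * N₁ + D * (r * N₂) := by positivity
  have h6 : (m : ℤ) * Y ≤ m * (N₁ * A) := mul_le_mul_of_nonneg_left hlead (Nat.cast_nonneg m)
  have h7 : (D : ℤ) * s ≤ D * (r * (N₂ * A)) := mul_le_mul_of_nonneg_left hs (Nat.cast_nonneg D)
  have h5 : b * X ≤ (m * N₁ + D * (r * N₂)) * A := by linarith
  have h8 := h5.trans (mul_le_mul_of_nonneg_left hA hC)
  have h9 : X ≤ (m * N₁ + D * (r * N₂)) * T := by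
    refine le_of_mul_le_mul_left ?_ (show 0 < b by linarith)
    refine h8.trans (le_of_eq ?_)
    ring
  linarith

private theorem aux [Algebra.EssFiniteType ℂ K] [Fintype ι] {w : ℕ} (hpf : p + f = w) {z : Fin w → K} (hz : IsTranscendenceBasis ℂ z) {S : Dt K ι n m D} (hS : S.Base)
    {K' : Type} [Field K'] [Algebra K K'] [Algebra ℂ K'] [IsScalarTower ℂ K K'] [FiniteDimensional K K'] [IsGalois K K'] {e : Fin r → K'} (he : S.IsRoots e) (hr : 2 * m + 1 ≤ r) {J : Fin p → Fin n} (hJ : (S.up e).Bas J)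
    (hov : ∀ E : PrimeDivisorOver K w, ∃ (v : K → ℤ) (o : RatForm K w → ℤ) (ν : K' → ℤ) (o' : RatForm K' w → ℤ) (b : ℤ), FV w v o ∧ (∀ a, a ≠ 0 → E.ord a = (v a : WithTop ℤ)) ∧
      (∀ (M : ℕ) (f : K) (ω : RatForm K w), f ≠ 0 → ω ≠ 0 → (0 ≤ v f + M * o ω → H17GT.RegularAlong E M f ω) ∧ (0 ≤ v f + M * o ω + M → H17LG.LogRegularAlong E M f ω)) ∧
      FV w ν o' ∧ 1 ≤ b ∧ (∀ a, a ≠ 0 → ν (algebraMap K K' a) = b * v a) ∧
      ∀ a : Fin w → K, wd (fun i => dd (a i)) ≠ 0 → wd (fun i => dd (algebraMap K K' (a i))) ≠ 0 ∧ o' (wd fun i => dd (algebraMap K K' (a i))) + 1 = b * (o (wd fun i => dd (a i)) + 1)) :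
    ∃ (f₀ : K) (m₀ : ℕ) (N : ℤ), f₀ ≠ 0 ∧ 1 ≤ m₀ ∧ 1 ≤ N ∧ ∀ E : PrimeDivisorOver K w, ∃ (v : K → ℤ) (o : RatForm K w → ℤ), FV w v o ∧ (∀ a, a ≠ 0 → E.ord a = (v a : WithTop ℤ)) ∧
      (∀ (M : ℕ) (f : K) (ω : RatForm K w), f ≠ 0 → ω ≠ 0 → (0 ≤ v f + M * o ω → H17GT.RegularAlong E M f ω) ∧ (0 ≤ v f + M * o ω + M → H17LG.LogRegularAlong E M f ω)) ∧
      ∀ c l, S.Chart v c l → v S.R - m * v (S.X c) - D * v (S.V l) ≤ N * (v f₀ + m₀ * (o (wd fun i => dd (z i)) + 1)) ∧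
        (v S.R = m * v (S.X c) + D * v (S.V l) → 0 ≤ v f₀ + m₀ * o (wd fun i => dd (z i))) := by
  subst hpf
  classical
  haveI : Algebra.EssFiniteType ℂ K' := Algebra.EssFiniteType.comp ℂ K K'
  have hz' : IsTranscendenceBasis ℂ (algebraMap K K' ∘ z) := hz.algebraMap_comp
  have hS' : (S.up e).Base 1 := base_up S hS he
  obtain ⟨B, hB⟩ := H23.exists_basis_kaehler hz'
  have hB' : ∀ i, B i = dd (algebraMap K K' (z i)) := hB
  obtain ⟨f₀, hf₀, hprod⟩ := exists_f₀ (f := f) hz B hB' S he J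
  obtain ⟨H, hH, hH2⟩ := LH.exists_H (S := S.up e) (d := 1) hS'
  -- the functions of the base
  have hH₀ : ∀ h ∈ (Finset.univ.image fun c : ι => algebraMap K K' (S.X (S.cf (Fin.last D)) / S.X c)).filter (fun h => h ≠ 0), h ≠ 0 ∧ (S.up e).AL h := by
    intro h hh
    obtain ⟨h1, h2⟩ := Finset.mem_filter.1 hh
    obtain ⟨c, -, rfl⟩ := Finset.mem_image.1 h1
    exact ⟨h2, al_div S e _ _⟩
  obtain ⟨N₁, hN₁, hb₁⟩ := LH.base_bound hz' hS' hJ hH₀
  obtain ⟨N₂, hN₂, hb₂⟩ := LH.form_bound hz' hS' hJ hH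
  have hpair : ∀ I' : Finset (Fin r), I'.card = m + 1 → ∃ (i₀ : Fin r) (I : Fin f → Fin r), i₀ ∈ I' ∧ (∀ t, I t ∈ I') ∧ (S.up e).W J i₀ I ≠ 0 ∧ (i₀, I) ∈ pairs (f := f) (S.up e) J := by
    intro I' hI'
    obtain ⟨i₀, I, h1, h2, hW⟩ := LH.exists_I hz' (S.up e) le_rfl hS' hJ hI'
    exact ⟨i₀, I, h1, h2, hW, Finset.mem_filter.2 ⟨Finset.mem_univ _, hW⟩⟩
  have hne : (pairs (f := f) (S.up e) J).Nonempty := by
    obtain ⟨I', -, hI'⟩ := Finset.exists_subset_card_eq (s := (Finset.univ : Finset (Fin r))) (n := m + 1) (by rw [Finset.card_univ, Fintype.card_fin]; omega)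
    obtain ⟨i₀, I, -, -, -, h⟩ := hpair I' hI'
    exact ⟨_, h⟩
  have hC : 0 ≤ (m : ℤ) * N₁ + D * (r * N₂) := by positivity
  refine ⟨f₀, (pairs (f := f) (S.up e) J).card, m * N₁ + D * (r * N₂) + 1, hf₀, Finset.card_pos.2 hne, by linarith, fun E => ?_⟩
  obtain ⟨v, o, ν, o', b, hFV, hord, hreg, hFV', hb, hνv, hwd⟩ := hov E
  refine ⟨v, o, hFV, hord, hreg, fun c l hc => ?_⟩
  have hbpos : 0 < b := by linarith
  have hch := ch_up hS he hb hFV'.toIV hνv hc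
  obtain ⟨hω', ho'⟩ := hwd z (LG.wd_ne_of_basis hz)
  have hWq : ∀ q ∈ pairs (f := f) (S.up e) J, (S.up e).W J q.1 q.2 ≠ 0 := fun q hq => (Finset.mem_filter.1 hq).2
  have hWeq : ∀ q : Fin r × (Fin f → Fin r), (S.up e).W J q.1 q.2 = H23.fc B ((S.up e).W J q.1 q.2) • wd fun i => dd (algebraMap K K' (z i)) := by
    intro q
    have h := H23.eq_fc_smul B ((S.up e).W J q.1 q.2)
    have h2 : (fun i => B i) = fun i => dd (algebraMap K K' (z i)) := funext hB'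
    rw [h2] at h
    exact h
  have hfc : ∀ q ∈ pairs (f := f) (S.up e) J, H23.fc B ((S.up e).W J q.1 q.2) ≠ 0 := by
    intro q hq h0
    apply hWq q hq
    rw [hWeq q, h0, zero_smul]
  have hoW : ∀ q ∈ pairs (f := f) (S.up e) J, o' ((S.up e).W J q.1 q.2) = ν (H23.fc B ((S.up e).W J q.1 q.2)) + o' (wd fun i => dd (algebraMap K K' (z i))) := by
    intro q hq
    conv_lhs => rw [hWeq q]
    exact hFV'.smul (hfc q hq) hω'
  have hsum : ∑ q ∈ pairs (f := f) (S.up e) J, ν (H23.fc B ((S.up e).W J q.1 q.2)) = b * v f₀ := by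
    rw [← iv_prod hFV'.toIV _ _ hfc, ← hprod, hνv f₀ hf₀]
  have hlog : ∀ q ∈ pairs (f := f) (S.up e) J, 0 ≤ o' ((S.up e).W J q.1 q.2) + 1 := fun q hq => LH.W_log hS' hJ hFV' hch (hWq q hq)
  have htot : ∑ q ∈ pairs (f := f) (S.up e) J, (o' ((S.up e).W J q.1 q.2) + 1) = b * (v f₀ + (pairs (f := f) (S.up e) J).card * (o (wd fun i => dd (z i)) + 1)) := by
    have h1 : ∑ q ∈ pairs (f := f) (S.up e) J, (o' ((S.up e).W J q.1 q.2) + 1) =
        ∑ q ∈ pairs (f := f) (S.up e) J, (ν (H23.fc B ((S.up e).W J q.1 q.2)) + b * (o (wd fun i => dd (z i)) + 1)) := by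
      refine Finset.sum_congr rfl fun q hq => ?_
      rw [hoW q hq, add_assoc, ho']
    rw [h1, Finset.sum_add_distrib, hsum, Finset.sum_const, nsmul_eq_mul]
    ring
  have hT : 0 ≤ v f₀ + (pairs (f := f) (S.up e) J).card * (o (wd fun i => dd (z i)) + 1) := by
    have h1 : 0 ≤ b * (v f₀ + (pairs (f := f) (S.up e) J).card * (o (wd fun i => dd (z i)) + 1)) := by
      rw [← htot]
      exact Finset.sum_nonneg hlog
    exact (mul_nonneg_iff_of_pos_left hbpos).1 h1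
  constructor
  · -- the set of the bad indices has at most `m` elements
    have hbad : (Finset.univ.filter fun j : Fin r => ∀ h ∈ H, ν h < ν ((S.up e).F j) - ν ((S.up e).Y j (zc ν e j)) - (1 : ℕ) * ν ((S.up e).V l)).card ≤ m := by
      by_contra hgt
      obtain ⟨I', hsub, hI'⟩ := Finset.exists_subset_card_eq (Nat.succ_le_of_lt (not_le.1 hgt))
      obtain ⟨i, hi, h, hh, hle⟩ := hH2 ν hFV'.toIV c l (zc ν e) hch I' hI'
      have h1 := (Finset.mem_filter.1 (hsub hi)).2 h hh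
      exact absurd h1 (not_lt.2 hle)
    have hgood : m + 1 ≤ (Finset.univ.filter fun j : Fin r => ¬ ∀ h ∈ H, ν h < ν ((S.up e).F j) - ν ((S.up e).Y j (zc ν e j)) - (1 : ℕ) * ν ((S.up e).V l)).card := by
      have h1 := Finset.card_filter_add_card_filter_not (s := (Finset.univ : Finset (Fin r))) (fun j : Fin r => ∀ h ∈ H, ν h < ν ((S.up e).F j) - ν ((S.up e).Y j (zc ν e j)) - (1 : ℕ) * ν ((S.up e).V l))
      rw [Finset.card_univ, Fintype.card_fin] at h1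
      omega
    obtain ⟨I', hsub, hI'⟩ := Finset.exists_subset_card_eq hgood
    have hI2 : ∀ i ∈ I', ∃ h ∈ H, ν ((S.up e).F i) - ν ((S.up e).Y i (zc ν e i)) - (1 : ℕ) * ν ((S.up e).V l) ≤ ν h := by
      intro i hi
      have h1 := (Finset.mem_filter.1 (hsub hi)).2
      push Not at h1
      exact h1
    obtain ⟨i₀, I, h1, h2, hW, hmem⟩ := hpair I' hI'
    have hF := hb₂ ν o' hFV' c l (zc ν e) hch i₀ I hW (hI2 i₀ h1) (fun t => hI2 (I t) (h2 t))
    have hA := le_tot _ _ _ htot hlog (i₀, I) hmem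
    have hlead : ν (algebraMap K K' (S.X (S.cf (Fin.last D)) / S.X c)) ≤ N₁ * (o' ((S.up e).W J i₀ I) + 1) := by
      refine hb₁ ν o' hFV' c l (zc ν e) hch i₀ I hW _ (Finset.mem_filter.2 ⟨Finset.mem_image_of_mem _ (Finset.mem_univ c), ?_⟩)
      rw [Ne, map_eq_zero]
      exact div_ne_zero (lead_ne hS) hc.Xne
    have hsumF : ∑ j, (ν ((S.up e).F j) - ν ((S.up e).Y j (zc ν e j)) - ν ((S.up e).V l)) ≤ r * (N₂ * (o' ((S.up e).W J i₀ I) + 1)) := by
      have h3 : ∑ j : Fin r, (ν ((S.up e).F j) - ν ((S.up e).Y j (zc ν e j)) - ν ((S.up e).V l)) ≤ ∑ _j : Fin r, N₂ * (o' ((S.up e).W J i₀ I) + 1) := by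
        refine Finset.sum_le_sum fun j _ => ?_
        have h4 := hF j
        rw [Nat.cast_one, one_mul] at h4
        exact h4
      rw [Finset.sum_const, Finset.card_univ, Fintype.card_fin, nsmul_eq_mul] at h3
      exact h3
    exact num m D r N₁ N₂ b _ _ _ _ _ hN₁ hN₂ hb hT hA hlead hsumF (le_R hS he hb hFV'.toIV hνv hc)
  · intro hoff
    have hoffj := off_R hS he hb hFV'.toIV hνv hc hoff
    have h1 : 0 ≤ ∑ q ∈ pairs (f := f) (S.up e) J, (ν (H23.fc B ((S.up e).W J q.1 q.2)) + b * o (wd fun i => dd (z i))) :=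
      Finset.sum_nonneg fun q hq => W_reg_up hz B hB' hS he hJ hFV hb hFV'.toIV hνv hc hoffj (hWq q hq)
    rw [Finset.sum_add_distrib, hsum, Finset.sum_const, nsmul_eq_mul] at h1
    have h2 : b * v f₀ + ((pairs (f := f) (S.up e) J).card : ℤ) * (b * o (wd fun i => dd (z i))) = b * (v f₀ + (pairs (f := f) (S.up e) J).card * o (wd fun i => dd (z i))) := by ring
    rw [h2] at h1
    exact (mul_nonneg_iff_of_pos_left hbpos).1 h1

theorem exists_bd [Algebra.EssFiniteType ℂ K] [Fintype ι] {z : Fin (k + 1) → K} (hz : IsTranscendenceBasis ℂ z) {S : Dt K ι n m D} (hS : S.Base) :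
    ∃ (f₀ : K) (m₀ : ℕ) (N : ℤ), f₀ ≠ 0 ∧ 1 ≤ m₀ ∧ 1 ≤ N ∧ ∀ E : PrimeDivisorOver K (k + 1), ∃ (v : K → ℤ) (o : RatForm K (k + 1) → ℤ), FV (k + 1) v o ∧ (∀ a, a ≠ 0 → E.ord a = (v a : WithTop ℤ)) ∧
      (∀ (M : ℕ) (f : K) (ω : RatForm K (k + 1)), f ≠ 0 → ω ≠ 0 → (0 ≤ v f + M * o ω → H17GT.RegularAlong E M f ω) ∧ (0 ≤ v f + M * o ω + M → H17LG.LogRegularAlong E M f ω)) ∧
      ∀ c l, S.Chart v c l → v S.R - m * v (S.X c) - D * v (S.V l) ≤ N * (v f₀ + m₀ * (o (wd fun i => dd (z i)) + 1)) ∧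
        (v S.R = m * v (S.X c) + D * v (S.V l) → 0 ≤ v f₀ + m₀ * o (wd fun i => dd (z i))) := by
  obtain ⟨K', _, _, _, _, r, e, _, _, he, hr⟩ := exists_roots S hS
  haveI : Algebra.EssFiniteType ℂ K' := Algebra.EssFiniteType.comp ℂ K K'
  have hz' : IsTranscendenceBasis ℂ (algebraMap K K' ∘ z) := hz.algebraMap_comp
  obtain ⟨p, f, J, hpf, hJ⟩ := LH.exists_J hz' (S.up e)
  exact aux hpf hz hS he hr hJ fun E => exists_fv_over hz E

end Pool.Agent.LT
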