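import Pool.Agent.LH.Defs

/-!
# LT Defs: the data on the function field for the complements of `{Res (F, x) = 0}` in `A × ℙ^m`

`P` is the polynomial whose roots are the zeros of the binary form `F(y, ·)`, with coefficients `X (cf i)`; `x` is the polynomial with coefficients `V l` (the binary form `x ∈ ℙ^m`); `R` is their resultant, the equation of the boundary.

* `Chart S v c l`: at the valuation `v` the function `X c` has the smallest order and the `δ i` are regular combinations of the `d (X b / X c)`; `V l` has the smallest order.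
* `up`: over an extension `K'` of `K` which contains the roots `e j` of `P` the family of linear forms `F j = x (e j)`, with the local generators `1`, `e j ^ m` (data of `LH`).
-/

set_option autoImplicit false

open MvPolynomial
open Pool.Agent.H23 (RatForm PrimeDivisorOver)
open Pool.Agent.LG (dd wd IV FV)

noncomputable section

namespace Pool.Agent.LT

variable {K : Type} [Field K] [Algebra ℂ K] {ι : Type} {k n m D r : ℕ}

/-- the data on the function field -/
structure Dt (K : Type) [Field K] [Algebra ℂ K] (ι : Type) (n m D : ℕ) where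
  X : ι → K
  δ : Fin n → Ω[K⁄ℂ]
  cf : Fin (D + 1) → ι
  V : Fin (m + 1) → K

/-- the polynomial whose roots are the zeros of `F(y, ·)` -/
def Dt.P (S : Dt K ι n m D) : Polynomial K := ∑ i : Fin (D + 1), Polynomial.C (S.X (S.cf i)) * Polynomial.X ^ (i : ℕ)

/-- the polynomial given by the point of `ℙ^m` -/
def Dt.x (S : Dt K ι n m D) : Polynomial K := ∑ l : Fin (m + 1), Polynomial.C (S.V l) * Polynomial.X ^ (l : ℕ)

/-- the equation of the boundary -/
def Dt.R (S : Dt K ι n m D) : K := Polynomial.resultant S.P S.x D m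

/-- a chart at an integer valued valuation -/
structure Dt.Chart [Fintype ι] (S : Dt K ι n m D) (v : K → ℤ) (c : ι) (l : Fin (m + 1)) : Prop where
  Xne : S.X c ≠ 0
  Xle : ∀ b, S.X b ≠ 0 → v (S.X c) ≤ v (S.X b)
  Vne : S.V l ≠ 0
  Vle : ∀ l', S.V l' ≠ 0 → v (S.V l) ≤ v (S.V l')
  mat : ∃ M : Fin n → ι → K, (∀ i b, M i b ≠ 0 → 0 ≤ v (M i b)) ∧ ∀ i, S.δ i = ∑ b, M i b • dd (S.X b / S.X c)

/-- the properties of the data which do not depend on a divisor -/
structure Dt.Base (S : Dt K ι n m D) : Prop where
  one : ∃ a, S.X a = 1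
  V_ne : ∃ l, S.V l ≠ 0
  R_ne : S.R ≠ 0
  deg : S.P.natDegree = D
  zero : S.P.coeff 0 ≠ 0
  roots : 2 * m + 1 ≤ (S.P.rootSet S.P.SplittingField).ncard
  alg : Algebra.IsAlgebraic (IntermediateField.adjoin ℂ (Set.range S.X ∪ {y | ∃ l l', y = S.V l / S.V l'})) K
  span : ∀ a, dd (S.X a) ∈ Submodule.span K (Set.range S.δ)

/-- the properties of the data; `B E`: the centre of `E` is in the boundary -/
structure Dt.Good [Fintype ι] (S : Dt K ι n m D) (B : PrimeDivisorOver K k → Prop) : Prop extends S.Base where
  chart : ∀ (E : PrimeDivisorOver K k) (v : K → ℤ), (∀ a, a ≠ 0 → E.ord a = (v a : WithTop ℤ)) →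
    ∃ c l, S.Chart v c l ∧ (¬ B E → v S.R = m * v (S.X c) + D * v (S.V l))

variable {K' : Type} [Field K'] [Algebra K K'] [Algebra ℂ K'] [IsScalarTower ℂ K K']

/-- the data over the extension -/
def Dt.up (S : Dt K ι n m D) (e : Fin r → K') : LH.Dat K' ι Bool n m r where
  X b := algebraMap K K' (S.X b)
  δ i := KaehlerDifferential.map ℂ ℂ K K' (S.δ i)
  V l := algebraMap K K' (S.V l)
  F j := ∑ l : Fin (m + 1), algebraMap K K' (S.V l) * e j ^ (l : ℕ)
  Y j s := if s then e j ^ m else 1

/-- the `e j` are the different roots of `P`, which splits in `K'` -/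
structure Dt.IsRoots (S : Dt K ι n m D) (e : Fin r → K') : Prop where
  inj : Function.Injective e
  root : ∀ a : K', (S.P.map (algebraMap K K')).IsRoot a ↔ ∃ j, e j = a
  splits : (S.P.map (algebraMap K K')).Splits

open Classical in
/-- the choice of the local generators at the valuation `ν` -/
def zc (ν : K' → ℤ) (e : Fin r → K') (j : Fin r) : Bool := decide (e j ≠ 0 ∧ ν (e j) < 0)

end Pool.Agent.LT
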