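import Pool.Agent.LG.GD
import Pool.Agent.LT.Defs

/-!
# LT GD: the geometric definitions for `T_m`

`bf x p` is the value at `p` of the binary form of degree `m` with coefficients `x`; `T_m` is the set of the `(y, x) ∈ A × ℙ^m` such that the binary forms `form θ y` and `bf x` have no common zero.

* `V a x`: `x ∈ ℂ^(m+1)` are homogeneous coordinates of the image of `a` in `ℙ^m` (`VMapm`: the properties of a regular map).
* `IsVm Q ξ V Vf`: the rational functions `Vf l` are homogeneous coordinates of the map.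
* `GeoT`: all hypotheses about `Z`.
-/

set_option autoImplicit false

open Topology Filter MvPolynomial
open Pool.Agent.PXF (Cn form IsThetaForm)
open Pool.Agent.LG (Cone GP RegAt BdG IsType Lft RegL NZ IsVal Fam wr)

noncomputable section

namespace Pool.Agent.LT

variable {K : Type} [Field K] [Algebra ℂ K] {N κ d m : ℕ}

/-- the binary form with the coefficients `x` -/
def bf (x : Cn (m + 1)) (p : Cn 2) : ℂ := ∑ l : Fin (m + 1), x l * p 0 ^ (l : ℕ) * p 1 ^ (m - (l : ℕ))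

/-- the map to `ℙ^m` is regular -/
def VMapm (Q : Ideal (MvPolynomial (Fin (N + 1)) ℂ)) (V : (Fin (N + 1) → ℂ) → Cn (m + 1) → Prop) : Prop :=
  ∀ a, Cone Q a → ∃ (D : ℕ) (γ : Fin (m + 1) → MvPolynomial (Fin (N + 1)) ℂ), (∀ i, (γ i).IsHomogeneous D) ∧ (∃ i, eval a (γ i) ≠ 0) ∧
    ∀ a', Cone Q a' → (∃ i, eval a' (γ i) ≠ 0) → ∀ q : Cn (m + 1), V a' q ↔ ∃ c : ℂ, c ≠ 0 ∧ q = fun i => c * eval a' (γ i)

/-- the `Vf l` are homogeneous coordinates of the map -/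
def IsVm (Q : Ideal (MvPolynomial (Fin (N + 1)) ℂ)) (ξ : Fin (N + 1) → K) (V : (Fin (N + 1) → ℂ) → Cn (m + 1) → Prop) (Vf : Fin (m + 1) → K) : Prop :=
  ∀ a x, Cone Q a → V a x → ∀ l, x l ≠ 0 → Vf l ≠ 0 ∧ ∀ l', RegAt ξ a (Vf l' / Vf l) (x l' / x l)

/-- the hypotheses about the variety `Z` -/
structure GeoT {s : ℕ} (Q : Ideal (MvPolynomial (Fin (N + 1)) ℂ)) (ξ : Fin (N + 1) → K) (Λ : AddSubgroup (Cn (κ + 1))) (θ : Fin (d + 1) → Cn (κ + 1) → ℂ) (L : (Fin (N + 1) → ℂ) → Cn (κ + 1) → Prop)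
    (V : (Fin (N + 1) → ℂ) → Cn (m + 1) → Prop) (G : Fin s → MvPolynomial (Fin (N + 1)) ℂ) : Prop where
  prime : Q.IsPrime
  homog : ∀ F ∈ Q, ∀ m, homogeneousComponent m F ∈ Q
  gp : GP Q ξ
  lft : Lft Q Λ L
  reg : RegL Q Λ θ L
  vmap : VMapm Q V
  homG : ∀ m, ∃ D, (G m).IsHomogeneous D
  /-- the variety is in the complement of the boundary: the two binary forms have no common zero -/
  off : ∀ a y x, Cone Q a → (∃ m, eval a (G m) ≠ 0) → L a y → V a x → ∀ p : Cn 2, p ≠ 0 → form θ y p = 0 → bf x p ≠ 0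
  /-- finite fibres -/
  fin : ∀ (γ : ℂ → Fin (N + 1) → ℂ) (y : Cn (κ + 1)) (q : Cn (m + 1)), AnalyticAt ℂ γ 0 → (∀ᶠ t in 𝓝 (0 : ℂ), Cone Q (γ t)) → (∀ᶠ t in 𝓝 (0 : ℂ), L (γ t) y) → (∀ᶠ t in 𝓝 (0 : ℂ), V (γ t) q) →
    ∀ᶠ t in 𝓝 (0 : ℂ), ∃ c : ℂ, γ t = c • γ 0
  /-- not over the special points: over some point the form has `2 m + 1` different zeros -/
  many : ∃ a y, Cone Q a ∧ (∃ m, eval a (G m) ≠ 0) ∧ L a y ∧ ∃ p : Fin (2 * m + 1) → Cn 2, (∀ i, p i ≠ 0 ∧ form θ y (p i) = 0) ∧ ∀ i j, i ≠ j → p i 0 * p j 1 ≠ p i 1 * p j 0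

end Pool.Agent.LT
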