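import Pool.Agent.LG.Sp

/-!
# LT Sm: specialisation of a polynomial and the number of its roots

As `LG.three_of_special` (`LG/Sp.lean`, helper65), for any number of roots.
-/

set_option autoImplicit false

open MvPolynomial
open Pool.Agent.LG (Cone GP RegAt root_of_special)

noncomputable section

namespace Pool.Agent.LT

variable {K : Type} [Field K] [Algebra ℂ K] {N : ℕ} {ξ : Fin (N + 1) → K} {Q : Ideal (MvPolynomial (Fin (N + 1)) ℂ)}

theorem many_of_special (hgp : GP Q ξ) {a : Fin (N + 1) → ℂ} (ha : Cone Q a) {D : ℕ} (u : Fin (D + 1) → K) (c : Fin (D + 1) → ℂ) (h : ∀ i, RegAt ξ a (u i) (c i)) (hl : c (Fin.last D) ≠ 0) {r : ℕ} {t : Fin r → ℂ} (ht : Function.Injective t)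
    (hr : ∀ j, ∑ i, c i * t j ^ (i : ℕ) = 0) {x : K} (hx : x ≠ 0) (P : Polynomial K) (hP : P = ∑ i : Fin (D + 1), Polynomial.C (x * u i) * Polynomial.X ^ (i : ℕ)) :
    r ≤ (P.rootSet P.SplittingField).ncard := by
  classical
  obtain ⟨v, hv⟩ := root_of_special hgp ha u c h hl hx P hP P.SplittingField
    (Polynomial.SplittingField.splits P)
  choose e he hve using fun j => hv (t j) (hr j)
  have hinj : Function.Injective e := fun i j hij => ht (by rw [← hve i, ← hve j, hij])
  have h1 : (Set.range e).ncard = r := by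
    rw [← Set.image_univ, Set.ncard_image_of_injective _ hinj, Set.ncard_univ, Nat.card_eq_fintype_card,
      Fintype.card_fin]
  rw [← h1]
  exact Set.ncard_le_ncard (Set.range_subset_iff.2 he) (Polynomial.rootSet_finite P P.SplittingField)

end Pool.Agent.LT
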