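import Pool.Agent.LT.Gc
import Pool.Agent.LT.Sm

/-!
# LT Gb: the properties of the data which do not depend on a divisor

* `one`: `X b₀ = 1` (`IsVal.one`, `IsVal.eq_of_eq`; see `LG.X_base`).  `R_ne`: `R_value` at `(a₀, y₀)` (`VMapm.ex`; `base`), `RegAt.ne_zero`.
* `deg`, `zero`: `coeff` for `p = (1, 0)` and `(0, 1)`: `Θ (cf (3d)) y₀ = θ_d (y₀)^3 ≠ 0`, `Θ (cf 0) y₀ = θ_0 (y₀)^3 ≠ 0`, the values of `X (cf i)` at `a₀` are `Θ (cf i) y₀ / Θ b₀ y₀`.
* `roots`: `many_of_special` with `x = 1`, the values `Θ (cf i) y₀ / Θ b₀ y₀` and the roots `t i` (`many`, `coeff` for `p = (t, 1)`).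
-/

set_option autoImplicit false

open Topology Filter MvPolynomial
open Pool.Agent.H23 (PrimeDivisorOver)
open Pool.Agent.PXF (Cn form IsThetaForm)
open Pool.Agent.LG (dd Cone GP RegAt BdG IsType Lft RegL NZ IsVal Fam wr)

noncomputable section

namespace Pool.Agent.LT

variable {K : Type} [Field K] [Algebra ℂ K] {N κ d m s n : ℕ} {Q : Ideal (MvPolynomial (Fin (N + 1)) ℂ)} {ξ : Fin (N + 1) → K} {Λ : AddSubgroup (Cn (κ + 1))} {θ : Fin (d + 1) → Cn (κ + 1) → ℂ}
  {L : (Fin (N + 1) → ℂ) → Cn (κ + 1) → Prop} {V : (Fin (N + 1) → ℂ) → Cn (m + 1) → Prop} {G : Fin s → MvPolynomial (Fin (N + 1)) ℂ} {Θ : Fin n → Cn (κ + 1) → ℂ} {a₀ : Fin (N + 1) → ℂ} {y₀ : Cn (κ + 1)} {b₀ : Fin n}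
  {S : Dt K (Fin n) (κ + 1) m (3 * d)}

/-- the value of the form at the second coordinate vector -/
private theorem Gb_form0 (y : Cn (κ + 1)) : form θ y ![0, 1] = θ 0 y := by
  unfold form
  rw [Finset.sum_eq_single (0 : Fin (d + 1))]
  · simp
  · intro i _ hi
    have h2 : (i : ℕ) ≠ 0 := by
      intro h3
      exact hi (Fin.ext h3)
    simp [h2]
  · intro hh
    exact absurd (Finset.mem_univ _) hh

/-- the value of the form at the first coordinate vector -/
private theorem Gb_form1 (y : Cn (κ + 1)) : form θ y ![1, 0] = θ (Fin.last d) y := by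
  unfold form
  rw [Finset.sum_eq_single (Fin.last d)]
  · simp
  · intro i _ hi
    have h2 : d - (i : ℕ) ≠ 0 := by
      intro h3
      apply hi
      apply Fin.ext
      have := i.isLt
      rw [Fin.val_last]
      omega
    simp [h2]
  · intro hh
    exact absurd (Finset.mem_univ _) hh

private theorem Gb_last (hs : SelT Q ξ Λ θ L V G Θ a₀ y₀ b₀ S) :
    Θ (S.cf (Fin.last (3 * d))) y₀ ≠ 0 := by
  have h1 := hs.coeff y₀ ![1, 0]
  rw [Finset.sum_eq_single (Fin.last (3 * d)), Gb_form1] at h1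
  · simp only [Matrix.cons_val_one, Matrix.cons_val_zero, one_pow, mul_one, Fin.val_last, Nat.sub_self, pow_zero] at h1
    rw [h1]
    exact pow_ne_zero _ hs.e1
  · intro i _ hi
    have h2 : 3 * d - (i : ℕ) ≠ 0 := by
      intro h3
      apply hi
      apply Fin.ext
      have := i.isLt
      rw [Fin.val_last]
      omega
    simp [h2]
  · intro hh
    exact absurd (Finset.mem_univ _) hh

private theorem Gb_zero (hs : SelT Q ξ Λ θ L V G Θ a₀ y₀ b₀ S) :
    Θ (S.cf 0) y₀ ≠ 0 := by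
  have h1 := hs.coeff y₀ ![0, 1]
  rw [Finset.sum_eq_single (0 : Fin (3 * d + 1)), Gb_form0] at h1
  · simp only [Matrix.cons_val_one, Matrix.cons_val_zero, one_pow, mul_one, Fin.val_zero, pow_zero] at h1
    rw [h1]
    exact pow_ne_zero _ hs.e0
  · intro i _ hi
    have h2 : (i : ℕ) ≠ 0 := by
      intro h3
      exact hi (Fin.ext h3)
    simp [h2]
  · intro hh
    exact absurd (Finset.mem_univ _) hh

private theorem Gb_coeff (S : Dt K (Fin n) (κ + 1) m (3 * d)) (i : Fin (3 * d + 1)) : S.P.coeff (i : ℕ) = S.X (S.cf i) := by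
  simp only [Dt.P, Polynomial.finsetSum_coeff, Polynomial.coeff_C_mul_X_pow]
  rw [Finset.sum_eq_single i]
  · simp
  · intro j _ hj
    rw [if_neg]
    intro h
    exact hj (Fin.ext h.symm)
  · intro h
    exact absurd (Finset.mem_univ i) h

private theorem Gb_reg (hs : SelT Q ξ Λ θ L V G Θ a₀ y₀ b₀ S) (b : Fin n) :
    RegAt ξ a₀ (S.X b) (Θ b y₀ / Θ b₀ y₀) := hs.val b a₀ y₀ hs.cone hs.lift hs.base

theorem base_of_sel (h : GeoT Q ξ Λ θ L V G) (hs : SelT Q ξ Λ θ L V G Θ a₀ y₀ b₀ S) : S.Base := by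
  have hlast : S.X (S.cf (Fin.last (3 * d))) ≠ 0 :=
    RegAt.ne_zero h.gp hs.cone (Gb_reg hs _) (div_ne_zero (Gb_last hs) hs.base)
  have hzero : S.X (S.cf 0) ≠ 0 :=
    RegAt.ne_zero h.gp hs.cone (Gb_reg hs _) (div_ne_zero (Gb_zero hs) hs.base)
  refine ⟨⟨b₀, ?_⟩, hs.V_ne, ?_, ?_, ?_, ?_, hs.alg, hs.span⟩
  · exact IsVal.eq_of_eq h.prime h.gp h.lft hs.nz hs.nz (hs.val b₀) LG.IsVal.one fun _ _ _ => rfl
  · obtain ⟨x, hx, hV⟩ := h.vmap.ex hs.cone
    obtain ⟨l, hl⟩ := Function.ne_iff.1 hx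
    obtain ⟨-, -, v, hv, hne⟩ := R_value h hs hs.cone hs.lift hV hs.base (l := l) hl
    have h1 := RegAt.ne_zero h.gp hs.cone hv (hne hs.inU)
    intro hR
    rw [hR, zero_div] at h1
    exact h1 rfl
  · apply le_antisymm
    · rw [Polynomial.natDegree_le_iff_coeff_eq_zero]
      intro m' hm'
      simp only [Dt.P, Polynomial.finsetSum_coeff, Polynomial.coeff_C_mul_X_pow]
      refine Finset.sum_eq_zero fun j _ => ?_
      rw [if_neg]
      intro hh
      have := j.isLt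
      omega
    · apply Polynomial.le_natDegree_of_ne_zero
      have := Gb_coeff S (Fin.last (3 * d))
      rw [Fin.val_last] at this
      rw [this]
      exact hlast
  · have := Gb_coeff S 0
    rw [Fin.val_zero] at this
    rw [this]
    exact hzero
  · obtain ⟨t, ht, hf⟩ := hs.many
    refine many_of_special h.gp hs.cone (fun i => S.X (S.cf i)) (fun i => Θ (S.cf i) y₀ / Θ b₀ y₀) (fun i => Gb_reg hs _) (div_ne_zero (Gb_last hs) hs.base)
      ht (fun j => ?_) (one_ne_zero : (1 : K) ≠ 0) S.P ?_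
    · have h1 := hs.coeff y₀ ![t j, 1]
      rw [hf j, zero_pow (by norm_num)] at h1
      simp only [Matrix.cons_val_one, Matrix.cons_val_zero, one_pow, mul_one] at h1
      have h2 : ∑ i, Θ (S.cf i) y₀ / Θ b₀ y₀ * t j ^ (i : ℕ) = (∑ i, Θ (S.cf i) y₀ * t j ^ (i : ℕ)) / Θ b₀ y₀ := by
        rw [Finset.sum_div]
        refine Finset.sum_congr rfl fun i _ => ?_
        ring
      rw [h2, h1, zero_div]
    · simp only [one_mul, Dt.P]

theorem d_pos (h : GeoT Q ξ Λ θ L V G) (hs : SelT Q ξ Λ θ L V G Θ a₀ y₀ b₀ S) : 1 ≤ d := by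
  rcases Nat.eq_zero_or_pos d with hd | hd
  · exfalso
    subst hd
    obtain ⟨t, -, hf⟩ := hs.many
    have h1 := hf 0
    apply hs.e0
    simp only [form, Nat.reduceAdd, Finset.univ_unique, Fin.default_eq_zero, Finset.sum_singleton, Fin.val_zero, pow_zero, mul_one] at h1
    simpa using h1
  · exact hd

end Pool.Agent.LT
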