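import Pool.Agent.LG.Rg
import Mathlib.RingTheory.Polynomial.Resultant.Basic

/-!
# LT Rs: resultants with formal degrees

* `res_ne`: if `p.coeff D ≠ 0`: `Polynomial.resultant_add_right_deg` reduces to `n = x.natDegree` (if `x ≠ 0`) and `Polynomial.resultant_eq_zero_iff` / `resultant_ne_zero` (`p`, `x` have no common root in `ℂ`, so they are coprime); if `x = 0` then `p` has no root, `D = 0`, `resultant p 0 0 m = p.coeff 0 ^ m`.
  If `p.coeff D = 0`: `x.coeff m ≠ 0`, and `resultant_comm`.
* `regAt_resultant`: the resultant is the determinant of the Sylvester matrix, whose entries are coefficients or `0`; the determinant is a sum of products (`RegAt.sum`, `RegAt.prod`).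
-/

set_option autoImplicit false

open Pool.Agent.LG (Cone GP RegAt)

noncomputable section

namespace Pool.Agent.LT

variable {K : Type} [Field K] [Algebra ℂ K] {N : ℕ} {ξ : Fin (N + 1) → K} {a : Fin (N + 1) → ℂ}

theorem res_ne {p x : Polynomial ℂ} {D m : ℕ} (hp : p.natDegree ≤ D) (hx : x.natDegree ≤ m) (hinf : p.coeff D ≠ 0 ∨ x.coeff m ≠ 0) (h : ∀ t, p.eval t = 0 → x.eval t ≠ 0) : Polynomial.resultant p x D m ≠ 0 := by
  have hco : IsCoprime p x := by
    rw [Polynomial.isCoprime_iff_aeval_ne_zero_of_isAlgClosed ℂ ℂ]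
    intro t
    by_cases h1 : Polynomial.aeval t p = 0
    · right
      rw [Polynomial.coe_aeval_eq_eval] at h1 ⊢
      exact h t h1
    · exact Or.inl h1
  have h0 : Polynomial.resultant p x ≠ 0 := Polynomial.resultant_ne_zero p x hco
  rcases hinf with h1 | h1
  · have hD : p.natDegree = D := le_antisymm hp (Polynomial.le_natDegree_of_ne_zero h1)
    subst hD
    obtain ⟨k, rfl⟩ := Nat.exists_eq_add_of_le hx
    rw [Polynomial.resultant_add_right_deg _ _ _ _ _ le_rfl]
    exact mul_ne_zero (pow_ne_zero _ h1) h0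
  · have hD : x.natDegree = m := le_antisymm hx (Polynomial.le_natDegree_of_ne_zero h1)
    subst hD
    obtain ⟨k, rfl⟩ := Nat.exists_eq_add_of_le hp
    rw [Polynomial.resultant_add_left_deg _ _ _ _ _ le_rfl]
    exact mul_ne_zero (mul_ne_zero (pow_ne_zero _ (neg_ne_zero.2 one_ne_zero))
      (pow_ne_zero _ h1)) h0

private theorem regAt_sign {f : K} {c : ℂ} (h : RegAt ξ a f c) (s : ℤˣ) :
    RegAt ξ a (s • f) (s • c) := by
  rcases Int.units_eq_one_or s with h1 | h1
  · rw [h1, one_smul, one_smul]
    exact h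
  · rw [h1, Units.neg_smul, Units.neg_smul, one_smul, one_smul]
    exact h.neg

private theorem regAt_det {n : ℕ} {M : Matrix (Fin n) (Fin n) K} {A : Matrix (Fin n) (Fin n) ℂ}
    (h : ∀ i j, RegAt ξ a (M i j) (A i j)) : RegAt ξ a M.det A.det := by
  rw [Matrix.det_apply, Matrix.det_apply]
  refine Pool.Agent.LG.RegAt.sum _ _ _ fun σ _ => ?_
  exact regAt_sign (Pool.Agent.LG.RegAt.prod _ _ _ fun i _ => h _ _) _

theorem regAt_resultant {P X : Polynomial K} {p x : Polynomial ℂ} (D m : ℕ) (hP : ∀ i, RegAt ξ a (P.coeff i) (p.coeff i)) (hX : ∀ i, RegAt ξ a (X.coeff i) (x.coeff i)) : RegAt ξ a (Polynomial.resultant P X D m) (Polynomial.resultant p x D m) := by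
  unfold Polynomial.resultant
  refine regAt_det fun i j => ?_
  unfold Polynomial.sylvester
  rw [Matrix.of_apply, Matrix.of_apply]
  induction j using Fin.addCases with
  | left j =>
    rw [Fin.addCases_left, Fin.addCases_left]
    split_ifs
    · exact hX _
    · exact Pool.Agent.LG.RegAt.zero ξ a
  | right j =>
    rw [Fin.addCases_right, Fin.addCases_right]
    split_ifs
    · exact hP _
    · exact Pool.Agent.LG.RegAt.zero ξ a

/-- the resultant is homogeneous -/
theorem res_smul (P X : Polynomial K) (D m : ℕ) (u w : K) : Polynomial.resultant (Polynomial.C u * P) (Polynomial.C w * X) D m = u ^ m * w ^ D * Polynomial.resultant P X D m := by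
  rw [Polynomial.resultant_C_mul_left, Polynomial.resultant_C_mul_right, mul_assoc]

end Pool.Agent.LT
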