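import Pool.Agent.LT.Se
import Pool.Agent.LT.Rs
import Pool.Agent.LG.Ce

/-!
# LT Gc: charts at the divisors

As `LG/Gd1.lean` (helper97).  `LG.exists_center`: a point `a` of the centre of `E`; `Lft.ex`: `y`; `VMapm.ex`: `x`, `x l ≠ 0`; `Fam.chart y`: `c`, `b`.  `X b' / X c` is the pull-back of `Θ b' / Θ c` (`IsVal.div_eq`), `V l' / V l` has the value `x l' / x l` (`IsVm`): all are regular at `a`, so of order `≥ 0`.
* `R_value`: `R = X c ^ m * V l ^ (3 d) * resultant (P / X c) (x / V l)` (`res_smul`), and the coefficients of `P / X c`, `x / V l` have at `a` the values `Θ (cf i) y / Θ c y`, `x l' / x l` (`regAt_resultant`).  If `a` is in `U`: `res_ne`: the polynomials `∑ Θ (cf i) y T^i = form θ y (T, 1)^3` and `∑ x_l' T^l' = bf x (T, 1)` have no common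
  root, and not both leading coefficients are `0` (`p = (1, 0)`), by `GeoT.off`.
-/

set_option autoImplicit false

open Topology Filter MvPolynomial
open Pool.Agent.H23 (PrimeDivisorOver)
open Pool.Agent.PXF (Cn form IsThetaForm)
open Pool.Agent.LG (dd Cone GP RegAt BdG IsType Lft RegL NZ IsVal Fam wr)

noncomputable section

namespace Pool.Agent.LT

variable {K : Type} [Field K] [Algebra ℂ K] {N κ d m s n : ℕ} {Q : Ideal (MvPolynomial (Fin (N + 1)) ℂ)} {ξ : Fin (N + 1) → K} {Λ : AddSubgroup (Cn (κ + 1))} {θ : Fin (d + 1) → Cn (κ + 1) → ℂ}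
  {L : (Fin (N + 1) → ℂ) → Cn (κ + 1) → Prop} {V : (Fin (N + 1) → ℂ) → Cn (m + 1) → Prop} {G : Fin s → MvPolynomial (Fin (N + 1)) ℂ} {Θ : Fin n → Cn (κ + 1) → ℂ} {a₀ : Fin (N + 1) → ℂ} {y₀ : Cn (κ + 1)} {b₀ : Fin n}
  {S : Dt K (Fin n) (κ + 1) m (3 * d)}

/-- the quotients of the `X b` by `X c` -/
private theorem ratio (h : GeoT Q ξ Λ θ L V G) (hs : SelT Q ξ Λ θ L V G Θ a₀ y₀ b₀ S) {a : Fin (N + 1) → ℂ} {y : Cn (κ + 1)} (ha : Cone Q a) (hy : L a y) {c : Fin n} (hc : Θ c y ≠ 0) (b : Fin n) :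
    RegAt ξ a (S.X b / S.X c) (Θ b y / Θ c y) :=
  LG.IsVal.div_eq h.prime h.gp h.lft h.reg (hs.fam.type b) (hs.fam.type c) hs.nz (LG.nz_of_type h.reg (hs.fam.type c) ha hy hc) (hs.val b) (hs.val c) a y ha hy hc

private theorem X_ne (h : GeoT Q ξ Λ θ L V G) (hs : SelT Q ξ Λ θ L V G Θ a₀ y₀ b₀ S) {a : Fin (N + 1) → ℂ} {y : Cn (κ + 1)} (ha : Cone Q a) (hy : L a y) {c : Fin n} (hc : Θ c y ≠ 0) :
    S.X c ≠ 0 :=
  LG.IsVal.ne_zero h.prime h.gp h.lft (hs.val c) (LG.nz_of_type h.reg (hs.fam.type c) ha hy hc) hs.nz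

/-- coefficients of a sum of monomials -/
private theorem coeff_sum {R : Type} [Semiring R] {D : ℕ} (f : Fin (D + 1) → R) (i : ℕ) :
    (∑ j : Fin (D + 1), Polynomial.C (f j) * Polynomial.X ^ (j : ℕ)).coeff i = ∑ j : Fin (D + 1), if i = (j : ℕ) then f j else 0 := by
  rw [Polynomial.finsetSum_coeff]
  refine Finset.sum_congr rfl fun j _ => ?_
  rw [Polynomial.coeff_C_mul_X_pow]

private theorem natDegree_sum {R : Type} [Semiring R] {D : ℕ} (f : Fin (D + 1) → R) :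
    (∑ j : Fin (D + 1), Polynomial.C (f j) * Polynomial.X ^ (j : ℕ)).natDegree ≤ D := by
  refine Polynomial.natDegree_sum_le_of_forall_le _ _ fun j _ => ?_
  exact (Polynomial.natDegree_C_mul_X_pow_le _ _).trans (Nat.lt_succ_iff.1 j.2)

private theorem regAt_ite {p : Prop} [Decidable p] {a : Fin (N + 1) → ℂ} {f : K} {c : ℂ} (h : RegAt ξ a f c) : RegAt ξ a (if p then f else 0) (if p then c else 0) := by
  split_ifs
  · exact h
  · exact LG.RegAt.zero ξ a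

private theorem eval_sum' {D : ℕ} (f : Fin (D + 1) → ℂ) (t : ℂ) :
    (∑ j : Fin (D + 1), Polynomial.C (f j) * Polynomial.X ^ (j : ℕ)).eval t = ∑ j : Fin (D + 1), f j * t ^ (j : ℕ) := by
  rw [Polynomial.eval_finsetSum]
  refine Finset.sum_congr rfl fun j _ => ?_
  rw [Polynomial.eval_mul, Polynomial.eval_C, Polynomial.eval_pow, Polynomial.eval_X]

/-- the sum at the point at infinity -/
private theorem sum_inf {D : ℕ} (f : Fin (D + 1) → ℂ) : ∑ j : Fin (D + 1), f j * (1 : ℂ) ^ (j : ℕ) * (0 : ℂ) ^ (D - (j : ℕ)) = f (Fin.last D) := by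
  rw [Finset.sum_eq_single (Fin.last D)]
  · simp
  · intro j _ hj
    have h1 : (j : ℕ) < D := lt_of_le_of_ne (Nat.lt_succ_iff.1 j.2) fun h => hj (Fin.ext h)
    rw [zero_pow (by omega), mul_zero]
  · intro h
    exact absurd (Finset.mem_univ _) h

/-- the value of the normalised resultant -/
theorem R_value (h : GeoT Q ξ Λ θ L V G) (hs : SelT Q ξ Λ θ L V G Θ a₀ y₀ b₀ S) {a : Fin (N + 1) → ℂ} {y : Cn (κ + 1)} {x : Cn (m + 1)} (ha : Cone Q a) (hy : L a y) (hx : V a x) {c : Fin n} (hc : Θ c y ≠ 0) {l : Fin (m + 1)} (hl : x l ≠ 0) :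
    S.X c ≠ 0 ∧ S.V l ≠ 0 ∧ ∃ v, RegAt ξ a (S.R / (S.X c ^ m * S.V l ^ (3 * d))) v ∧ ((∃ t, eval a (G t) ≠ 0) → v ≠ 0) := by
  have hX := X_ne h hs ha hy hc
  obtain ⟨hV, hVr⟩ := hs.isV a x ha hx l hl
  refine ⟨hX, hV, ?_⟩
  obtain ⟨P', hP'⟩ : ∃ P' : Polynomial K, P' = ∑ i : Fin (3 * d + 1), Polynomial.C (S.X (S.cf i) / S.X c) * Polynomial.X ^ (i : ℕ) := ⟨_, rfl⟩
  obtain ⟨X', hX'⟩ : ∃ X' : Polynomial K, X' = ∑ i : Fin (m + 1), Polynomial.C (S.V i / S.V l) * Polynomial.X ^ (i : ℕ) := ⟨_, rfl⟩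
  obtain ⟨p, hp⟩ : ∃ p : Polynomial ℂ, p = ∑ i : Fin (3 * d + 1), Polynomial.C (Θ (S.cf i) y / Θ c y) * Polynomial.X ^ (i : ℕ) := ⟨_, rfl⟩
  obtain ⟨w, hw⟩ : ∃ w : Polynomial ℂ, w = ∑ i : Fin (m + 1), Polynomial.C (x i / x l) * Polynomial.X ^ (i : ℕ) := ⟨_, rfl⟩
  have h1 : S.P = Polynomial.C (S.X c) * P' := by
    rw [hP', Finset.mul_sum]
    unfold Dt.P
    refine Finset.sum_congr rfl fun i _ => ?_
    rw [← mul_assoc, ← Polynomial.C_mul, mul_div_cancel₀ _ hX]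
  have h2 : S.x = Polynomial.C (S.V l) * X' := by
    rw [hX', Finset.mul_sum]
    unfold Dt.x
    refine Finset.sum_congr rfl fun i _ => ?_
    rw [← mul_assoc, ← Polynomial.C_mul, mul_div_cancel₀ _ hV]
  have h3 : S.R / (S.X c ^ m * S.V l ^ (3 * d)) = Polynomial.resultant P' X' (3 * d) m := by
    unfold Dt.R
    rw [h1, h2, res_smul, mul_div_cancel_left₀ _ (mul_ne_zero (pow_ne_zero _ hX) (pow_ne_zero _ hV))]
  refine ⟨Polynomial.resultant p w (3 * d) m, ?_, fun hG => ?_⟩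
  · rw [h3]
    refine regAt_resultant _ _ (fun i => ?_) (fun i => ?_)
    · rw [hP', hp, coeff_sum, coeff_sum]
      exact LG.RegAt.sum _ _ _ fun j _ => regAt_ite (ratio h hs ha hy hc _)
    · rw [hX', hw, coeff_sum, coeff_sum]
      exact LG.RegAt.sum _ _ _ fun j _ => regAt_ite (hVr j)
  · have hoff := h.off a y x ha hG hy hx
    refine res_ne (by rw [hp]; exact natDegree_sum _) (by rw [hw]; exact natDegree_sum _) ?_ ?_
    · by_contra hcon
      push Not at hcon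
      obtain ⟨h4, h5⟩ := hcon
      have e1 : ∀ {D : ℕ} (f : Fin (D + 1) → ℂ), ∑ j : Fin (D + 1), (if D = (j : ℕ) then f j else 0) = f (Fin.last D) := by
        intro D f
        rw [Finset.sum_eq_single (Fin.last D)]
        · simp
        · intro j _ hj
          exact if_neg fun h => hj (Fin.ext h.symm)
        · intro h
          exact absurd (Finset.mem_univ _) h
      rw [hp, coeff_sum, e1] at h4
      rw [hw, coeff_sum, e1] at h5
      have h4' : Θ (S.cf (Fin.last (3 * d))) y = 0 := (div_eq_zero_iff.1 h4).resolve_right hc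
      have h5' : x (Fin.last m) = 0 := (div_eq_zero_iff.1 h5).resolve_right hl
      have h6 := hs.coeff y ![1, 0]
      have h7 : ∑ i : Fin (3 * d + 1), Θ (S.cf i) y * (1 : ℂ) ^ (i : ℕ) * (0 : ℂ) ^ (3 * d - (i : ℕ)) = form θ y ![1, 0] ^ 3 := h6
      rw [sum_inf (fun i => Θ (S.cf i) y), h4'] at h7
      have h8 : form θ y ![1, 0] = 0 := pow_eq_zero_iff (three_ne_zero) |>.1 h7.symm
      refine hoff ![1, 0] (fun h9 => ?_) h8 ?_
      · have := congrFun h9 0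
        simp at this
      · show ∑ i : Fin (m + 1), x i * (1 : ℂ) ^ (i : ℕ) * (0 : ℂ) ^ (m - (i : ℕ)) = 0
        rw [sum_inf x, h5']
    · intro t ht
      rw [hp, eval_sum'] at ht
      have h6 : ∑ i : Fin (3 * d + 1), Θ (S.cf i) y * t ^ (i : ℕ) * (1 : ℂ) ^ (3 * d - (i : ℕ)) = form θ y ![t, 1] ^ 3 := hs.coeff y ![t, 1]
      have h7 : form θ y ![t, 1] = 0 := by
        refine pow_eq_zero_iff (three_ne_zero) |>.1 ?_
        rw [← h6]
        have h8 : ∑ i : Fin (3 * d + 1), Θ (S.cf i) y * t ^ (i : ℕ) * (1 : ℂ) ^ (3 * d - (i : ℕ)) = Θ c y * ∑ i : Fin (3 * d + 1), Θ (S.cf i) y / Θ c y * t ^ (i : ℕ) := by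
          rw [Finset.mul_sum]
          refine Finset.sum_congr rfl fun i _ => ?_
          rw [one_pow, mul_one, ← mul_assoc, mul_div_cancel₀ _ hc]
        rw [h8, ht, mul_zero]
      have h9 := hoff ![t, 1] (fun h9 => by
        have := congrFun h9 1
        simp at this) h7
      rw [hw, eval_sum']
      intro h10
      apply h9
      show ∑ i : Fin (m + 1), x i * t ^ (i : ℕ) * (1 : ℂ) ^ (m - (i : ℕ)) = 0
      have h8 : ∑ i : Fin (m + 1), x i * t ^ (i : ℕ) * (1 : ℂ) ^ (m - (i : ℕ)) = x l * ∑ i : Fin (m + 1), x i / x l * t ^ (i : ℕ) := by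
        rw [Finset.mul_sum]
        refine Finset.sum_congr rfl fun i _ => ?_
        rw [one_pow, mul_one, ← mul_assoc, mul_div_cancel₀ _ hl]
      rw [h8, h10, mul_zero]

theorem exists_chart (h : GeoT Q ξ Λ θ L V G) (hs : SelT Q ξ Λ θ L V G Θ a₀ y₀ b₀ S) {k : ℕ} (E : PrimeDivisorOver K k) (v : K → ℤ) (hv : ∀ a, a ≠ 0 → E.ord a = (v a : WithTop ℤ)) :
    ∃ c l, S.Chart v c l ∧ (¬ BdG ξ G E → v S.R = m * v (S.X c) + (3 * d : ℕ) * v (S.V l)) := by
  obtain ⟨a, ha, hreg, hG⟩ := LG.exists_center h.homog h.gp E G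
  obtain ⟨y, hy⟩ := h.lft.ex a ha
  obtain ⟨x, hx0, hx⟩ := h.vmap.ex ha
  obtain ⟨l, hl⟩ : ∃ l, x l ≠ 0 := by
    by_contra hcon
    push Not at hcon
    exact hx0 (funext hcon)
  obtain ⟨c, b, hc, hdet⟩ := hs.fam.chart y
  obtain ⟨hX, hV, r, hr1, hr2⟩ := R_value h hs ha hy hx hc hl
  have hVr := (hs.isV a x ha hx l hl).2
  -- the valuation
  have vmul : ∀ f g : K, f ≠ 0 → g ≠ 0 → v (f * g) = v f + v g := by
    intro f g hf hg
    have h1 := E.ord.map_mul f g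
    rw [hv _ (mul_ne_zero hf hg), hv _ hf, hv _ hg] at h1
    exact_mod_cast h1
  have vpow : ∀ (f : K) (k : ℕ), f ≠ 0 → v (f ^ k) = k * v f := by
    intro f k hf
    have h1 := E.ord.map_pow f k
    rw [hv _ (pow_ne_zero k hf), hv _ hf] at h1
    have h2 : ((v (f ^ k) : ℤ) : WithTop ℤ) = ((k • v f : ℤ) : WithTop ℤ) := by
      rw [h1, WithTop.coe_nsmul]
    have h3 : v (f ^ k) = k • v f := WithTop.coe_injective h2
    rw [h3, nsmul_eq_mul]
  have vnn : ∀ (f : K) (c : ℂ), f ≠ 0 → RegAt ξ a f c → 0 ≤ v f := by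
    intro f c hf hR
    have h1 := (hreg f c hR).1
    rw [hv _ hf] at h1
    exact_mod_cast h1
  refine ⟨c, l, ⟨hX, fun b' hb' => ?_, hV, fun l' hl' => ?_, ?_⟩, fun hB => ?_⟩
  · have h1 := vnn _ _ (div_ne_zero hb' hX) (ratio h hs ha hy hc b')
    have h2 := vmul (S.X b' / S.X c) (S.X c) (div_ne_zero hb' hX) hX
    rw [div_mul_cancel₀ _ hX] at h2
    omega
  · have h1 := vnn _ _ (div_ne_zero hl' hV) (hVr l')
    have h2 := vmul (S.V l' / S.V l) (S.V l) (div_ne_zero hl' hV) hV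
    rw [div_mul_cancel₀ _ hV] at h2
    omega
  · obtain ⟨M, hM1, hM2⟩ := hs.chart a y ha hy c b hc hdet
    refine ⟨M, fun i b' hne => ?_, hM2⟩
    obtain ⟨w, hw⟩ := hM1 i b'
    exact vnn _ _ hne hw
  · have hr0 := hr2 (hG hB)
    have hne := LG.RegAt.ne_zero h.gp ha hr1 hr0
    have hD : S.X c ^ m * S.V l ^ (3 * d) ≠ 0 := mul_ne_zero (pow_ne_zero _ hX) (pow_ne_zero _ hV)
    have h1 := (hreg _ _ hr1).2 hr0
    rw [hv _ hne] at h1
    have h2 : v (S.R / (S.X c ^ m * S.V l ^ (3 * d))) = 0 := by exact_mod_cast h1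
    have h3 := vmul _ _ hne hD
    rw [div_mul_cancel₀ _ hD, h2, zero_add, vmul _ _ (pow_ne_zero _ hX) (pow_ne_zero _ hV), vpow _ _ hX, vpow _ _ hV] at h3
    exact h3

end Pool.Agent.LT
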