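import Pool.Agent.LT.GD
import Pool.Agent.LG.Co

/-!
# LT Mo: change of the coordinates of `ℙ¹`

`many` gives `(a₀, y₀)` and the zeros `p i`.  `form θ y₀` is not identically `0` (otherwise take `x` with `V a₀ x` (`VMapm`), a zero `p ≠ 0` of `bf x` (`m ≥ 1`): against `off`).  `LG.exists_M`: `M`, `M'` with `form θ y₀ (M e₀) ≠ 0`, `form θ y₀ (M e₁) ≠ 0`.
* `θ' i`: the coefficients of `form θ y (M p)` as a form in `p`: linear combinations of the `θ i` with constant coefficients: `IsThetaForm Λ θ'` (the same weights), and `IsType Λ θ' m g ↔ IsType Λ θ m g` (if some `θ' i y ≠ 0`, both say `g (y + l) = e^m g y` with the common factor `e` of `IsThetaForm.quasiPeriodic`; if all `θ' i y = 0`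
  then all `θ i y = 0`).
* `SM x`: the coefficients of `bf x (M p)`; `SM` is linear and invertible (inverse `SM'`); `V' a x' = V a (SM' x')`: `VMapm` with the forms `SM γ`.
* the zeros: `M' (p i)`; its second coordinate is not `0` because `form θ y₀ (M e₀) ≠ 0`; `t i = (M' (p i)) 0 / (M' (p i)) 1`.
-/

set_option autoImplicit false

open Topology Filter MvPolynomial
open Pool.Agent.PXF (Cn form IsThetaForm)
open Pool.Agent.LG (Cone GP RegAt BdG IsType Lft RegL NZ IsVal Fam wr)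

noncomputable section

namespace Pool.Agent.LT

/-- binary forms of degree `n` -/
private def MoBF (n : ℕ) (F : ℂ → ℂ → ℂ) : Prop :=
  ∃ c : ℕ → ℂ, ∀ p₀ p₁, F p₀ p₁ = ∑ i ∈ Finset.range (n + 1), c i * p₀ ^ i * p₁ ^ (n - i)

private theorem mo_mul {n n' : ℕ} {F F' : ℂ → ℂ → ℂ} (h : MoBF n F) (h' : MoBF n' F') :
    MoBF (n + n') (fun p₀ p₁ => F p₀ p₁ * F' p₀ p₁) := by
  obtain ⟨Φ, hF⟩ := h
  obtain ⟨Ψ, hF'⟩ := h'
  refine ⟨fun s => ∑ p ∈ Finset.range (n + 1) ×ˢ Finset.range (n' + 1), (if p.1 + p.2 = s then Φ p.1 * Ψ p.2 else 0), ?_⟩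
  intro p₀ p₁
  beta_reduce
  rw [hF, hF', Finset.sum_mul_sum, ← Finset.sum_product']
  have h1 : ∀ s ∈ Finset.range (n + n' + 1), (∑ p ∈ Finset.range (n + 1) ×ˢ Finset.range (n' + 1), (if p.1 + p.2 = s then Φ p.1 * Ψ p.2 else 0)) * p₀ ^ s * p₁ ^ (n + n' - s) =
      ∑ p ∈ Finset.range (n + 1) ×ˢ Finset.range (n' + 1), (if p.1 + p.2 = s then Φ p.1 * p₀ ^ p.1 * p₁ ^ (n - p.1) * (Ψ p.2 * p₀ ^ p.2 * p₁ ^ (n' - p.2)) else 0) := by
    intro s _
    rw [Finset.sum_mul, Finset.sum_mul]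
    refine Finset.sum_congr rfl fun p hp => ?_
    rw [Finset.mem_product, Finset.mem_range, Finset.mem_range] at hp
    by_cases hps : p.1 + p.2 = s
    · rw [if_pos hps, if_pos hps, ← hps]
      have h2 : n + n' - (p.1 + p.2) = (n - p.1) + (n' - p.2) := by omega
      rw [h2, pow_add, pow_add]
      ring
    · rw [if_neg hps, if_neg hps, zero_mul, zero_mul]
  rw [Finset.sum_congr rfl h1, Finset.sum_comm]
  refine Finset.sum_congr rfl fun p hp => ?_
  rw [Finset.mem_product, Finset.mem_range, Finset.mem_range] at hp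
  rw [Finset.sum_ite_eq, if_pos (Finset.mem_range.2 (by omega))]

private theorem mo_lin (a b : ℂ) : MoBF 1 (fun p₀ p₁ => a * p₀ + b * p₁) := by
  refine ⟨fun i => if i = 0 then b else a, fun p₀ p₁ => ?_⟩
  simp [Finset.sum_range_succ, add_comm]

private theorem mo_pow (a b : ℂ) (k : ℕ) : MoBF k (fun p₀ p₁ => (a * p₀ + b * p₁) ^ k) := by
  induction k with
  | zero =>
    refine ⟨fun _ => 1, fun p₀ p₁ => ?_⟩
    simp
  | succ k ih =>
    have h1 := mo_mul ih (mo_lin a b)
    simp only [pow_succ]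
    exact h1

/-- the linear substitution `M` on binary forms -/
private theorem mo_T (n : ℕ) (M : Matrix (Fin 2) (Fin 2) ℂ) : ∃ c : Fin (n + 1) → Fin (n + 1) → ℂ,
    ∀ (x : Cn (n + 1)) (p : Cn 2), bf (fun j => ∑ l, x l * c l j) p = bf x (M.mulVec p) := by
  have h1 : ∀ l : Fin (n + 1), MoBF n (fun p₀ p₁ => (M 0 0 * p₀ + M 0 1 * p₁) ^ (l : ℕ) * (M 1 0 * p₀ + M 1 1 * p₁) ^ (n - (l : ℕ))) := by
    intro l
    have h2 := mo_mul (mo_pow (M 0 0) (M 0 1) l) (mo_pow (M 1 0) (M 1 1) (n - l))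
    have h3 : (l : ℕ) + (n - l) = n := by
      have := l.isLt
      omega
    rw [h3] at h2
    exact h2
  choose c hc using h1
  refine ⟨fun l j => c l j, fun x p => ?_⟩
  unfold bf
  have h4 : ∀ l : Fin (n + 1), x l * (M.mulVec p) 0 ^ (l : ℕ) * (M.mulVec p) 1 ^ (n - (l : ℕ)) = ∑ j : Fin (n + 1), x l * (c l j * p 0 ^ (j : ℕ) * p 1 ^ (n - (j : ℕ))) := by
    intro l
    have h5 := hc l (p 0) (p 1)
    rw [Finset.sum_range] at h5
    rw [← Finset.mul_sum, ← h5, mul_assoc]
    simp only [Matrix.mulVec, dotProduct, Fin.sum_univ_two]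
  rw [Finset.sum_congr rfl fun l _ => h4 l, Finset.sum_comm]
  refine Finset.sum_congr rfl fun j _ => ?_
  rw [Finset.sum_mul, Finset.sum_mul]
  exact Finset.sum_congr rfl fun l _ => by ring

/-- a binary form is determined by its values -/
private theorem mo_inj {n : ℕ} {x x' : Cn (n + 1)} (h : ∀ p, bf x p = bf x' p) : x = x' := by
  have h1 : (∑ i : Fin (n + 1), Polynomial.C (x i) * Polynomial.X ^ (i : ℕ) : Polynomial ℂ) = ∑ i : Fin (n + 1), Polynomial.C (x' i) * Polynomial.X ^ (i : ℕ) := by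
    refine Polynomial.funext fun s => ?_
    have h2 := h ![s, 1]
    unfold bf at h2
    simp only [Matrix.cons_val_zero, Matrix.cons_val_one, one_pow, mul_one] at h2
    rw [Polynomial.eval_finsetSum, Polynomial.eval_finsetSum]
    simp only [Polynomial.eval_mul, Polynomial.eval_C, Polynomial.eval_pow, Polynomial.eval_X]
    exact h2
  funext i
  have h3 : ∀ z : Cn (n + 1), (∑ i : Fin (n + 1), Polynomial.C (z i) * Polynomial.X ^ (i : ℕ) : Polynomial ℂ).coeff i = z i := by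
    intro z
    rw [Polynomial.finsetSum_coeff, Finset.sum_eq_single i]
    · rw [Polynomial.coeff_C_mul_X_pow, if_pos rfl]
    · intro j _ hj
      rw [Polynomial.coeff_C_mul_X_pow, if_neg]
      intro hh
      exact hj (Fin.ext hh.symm)
    · intro hh
      exact absurd (Finset.mem_univ i) hh
  rw [← h3 x, h1, h3 x']

/-- a binary form has a zero -/
private theorem mo_zero {n : ℕ} (hn : 1 ≤ n) (x : Cn (n + 1)) : ∃ p : Cn 2, p ≠ 0 ∧ bf x p = 0 := by
  by_cases hx : x (Fin.last n) = 0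
  · refine ⟨![1, 0], fun h => one_ne_zero (congrFun h 0), ?_⟩
    unfold bf
    refine Finset.sum_eq_zero fun i _ => ?_
    by_cases hi : i = Fin.last n
    · rw [hi, hx, zero_mul, zero_mul]
    · have h1 : n - (i : ℕ) ≠ 0 := by
        have h2 := i.isLt
        have h3 : (i : ℕ) ≠ n := fun h => hi (Fin.ext h)
        omega
      simp [h1]
  · obtain ⟨f, hf⟩ : ∃ f : Polynomial ℂ, f = ∑ i : Fin (n + 1), Polynomial.C (x i) * Polynomial.X ^ (i : ℕ) := ⟨_, rfl⟩
    have hco : f.coeff n = x (Fin.last n) := by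
      rw [hf, Polynomial.finsetSum_coeff, Finset.sum_eq_single (Fin.last n)]
      · rw [Polynomial.coeff_C_mul_X_pow, if_pos (Fin.val_last n).symm]
      · intro j _ hj
        rw [Polynomial.coeff_C_mul_X_pow, if_neg]
        intro hh
        exact hj (Fin.ext hh.symm)
      · intro hh
        exact absurd (Finset.mem_univ _) hh
    have hdeg : f.degree ≠ 0 := by
      intro h
      have h1 := Polynomial.le_degree_of_ne_zero (p := f) (n := n) (by rw [hco]; exact hx)
      rw [h] at h1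
      have h2 : (n : WithBot ℕ) ≤ ((0 : ℕ) : WithBot ℕ) := h1
      have h3 : n ≤ 0 := by exact_mod_cast h2
      omega
    obtain ⟨s, hs⟩ := IsAlgClosed.exists_root f hdeg
    refine ⟨![s, 1], fun h => one_ne_zero (congrFun h 1), ?_⟩
    rw [Polynomial.IsRoot.def, hf, Polynomial.eval_finsetSum] at hs
    simp only [Polynomial.eval_mul, Polynomial.eval_C, Polynomial.eval_pow, Polynomial.eval_X] at hs
    unfold bf
    simp only [Matrix.cons_val_zero, Matrix.cons_val_one, one_pow, mul_one]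
    exact hs

variable {K : Type} [Field K] [Algebra ℂ K] {N κ d m s : ℕ} {ξ : Fin (N + 1) → K} {Q : Ideal (MvPolynomial (Fin (N + 1)) ℂ)} {Λ : AddSubgroup (Cn (κ + 1))} {θ : Fin (d + 1) → Cn (κ + 1) → ℂ}
  {L : (Fin (N + 1) → ℂ) → Cn (κ + 1) → Prop} {V : (Fin (N + 1) → ℂ) → Cn (m + 1) → Prop} {G : Fin s → MvPolynomial (Fin (N + 1)) ℂ}

private theorem mo_form (θ : Fin (d + 1) → Cn (κ + 1) → ℂ) (y : Cn (κ + 1)) (p : Cn 2) : form θ y p = bf (fun i => θ i y) p := rfl

/-- the change of coordinates, for a given pair of inverse matrices -/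
private theorem mo_change (hθ : IsThetaForm Λ θ) (h : GeoT Q ξ Λ θ L V G) (M M' : Matrix (Fin 2) (Fin 2) ℂ) (h1 : M * M' = 1) (h2 : M' * M = 1) :
    ∃ (θ' : Fin (d + 1) → Cn (κ + 1) → ℂ) (V' : (Fin (N + 1) → ℂ) → Cn (m + 1) → Prop), IsThetaForm Λ θ' ∧ GeoT Q ξ Λ θ' L V' G ∧ ∀ y p, form θ' y p = form θ y (M.mulVec p) := by
  have hMM' : ∀ p : Cn 2, M.mulVec (M'.mulVec p) = p := fun p => by rw [Matrix.mulVec_mulVec, h1, Matrix.one_mulVec]
  have hM'M : ∀ p : Cn 2, M'.mulVec (M.mulVec p) = p := fun p => by rw [Matrix.mulVec_mulVec, h2, Matrix.one_mulVec]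
  obtain ⟨c, hc⟩ := mo_T d M
  obtain ⟨c', hc'⟩ := mo_T d M'
  obtain ⟨b, hb⟩ := mo_T m M
  obtain ⟨b', hb'⟩ := mo_T m M'
  obtain ⟨θ', hθ'⟩ : ∃ θ' : Fin (d + 1) → Cn (κ + 1) → ℂ, θ' = fun j y => ∑ l, θ l y * c l j := ⟨_, rfl⟩
  obtain ⟨S, hS⟩ : ∃ S : Cn (m + 1) → Cn (m + 1), S = fun x j => ∑ l, x l * b l j := ⟨_, rfl⟩
  obtain ⟨S', hS'⟩ : ∃ S' : Cn (m + 1) → Cn (m + 1), S' = fun x j => ∑ l, x l * b' l j := ⟨_, rfl⟩
  have hSb : ∀ x p, bf (S x) p = bf x (M.mulVec p) := fun x p => by rw [hS]; exact hb x p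
  have hS'b : ∀ x p, bf (S' x) p = bf x (M'.mulVec p) := fun x p => by rw [hS']; exact hb' x p
  have hSS' : ∀ x, S (S' x) = x := fun x => mo_inj fun p => by rw [hSb, hS'b, hM'M]
  have hS'S : ∀ x, S' (S x) = x := fun x => mo_inj fun p => by rw [hS'b, hSb, hMM']
  have hSsmul : ∀ (e : ℂ) x, S (fun i => e * x i) = fun i => e * S x i := by
    intro e x
    rw [hS]
    funext j
    beta_reduce
    rw [Finset.mul_sum]
    exact Finset.sum_congr rfl fun l _ => by ring
  have hS'smul : ∀ (e : ℂ) x, S' (fun i => e * x i) = fun i => e * S' x i := by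
    intro e x
    rw [hS']
    funext j
    beta_reduce
    rw [Finset.mul_sum]
    exact Finset.sum_congr rfl fun l _ => by ring
  have hform : ∀ y p, form θ' y p = form θ y (M.mulVec p) := by
    intro y p
    rw [mo_form, mo_form, hθ']
    exact hc _ p
  have hback : ∀ y i, θ i y = ∑ l, θ' l y * c' l i := by
    intro y i
    have h3 : (fun i => θ i y) = fun i => ∑ l, θ' l y * c' l i := mo_inj fun p => by
      rw [hc' (fun l => θ' l y) p, ← mo_form, ← mo_form, hform, hMM']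
    exact congrFun h3 i
  have hθ'form : IsThetaForm Λ θ' := by
    refine ⟨fun j => ?_, ?_⟩
    · rw [hθ']
      exact Differentiable.fun_sum fun l _ => (hθ.holomorphic l).mul_const _
    · obtain ⟨r, W, hW, hq⟩ := hθ.quasiPeriodic
      refine ⟨r, W, hW, fun l hl y => ?_⟩
      obtain ⟨e, he, hee⟩ := hq l hl y
      refine ⟨e, he, fun i => ?_⟩
      rw [hθ']
      beta_reduce
      rw [Finset.mul_sum]
      exact Finset.sum_congr rfl fun j _ => by rw [hee]; ring
  have htype : ∀ (r : ℕ) (g : Cn (κ + 1) → ℂ), IsType Λ θ' r g → IsType Λ θ r g := by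
    intro r g hg
    refine ⟨hg.1, fun l hl y i => ?_⟩
    obtain ⟨r', W, -, hq⟩ := hθ'form.quasiPeriodic
    obtain ⟨e, -, hee⟩ := hq l hl y
    have h3 : θ i (y + l) = e * θ i y := by
      rw [hback, hback y, Finset.mul_sum]
      exact Finset.sum_congr rfl fun j _ => by rw [hee]; ring
    by_cases hi : θ i y = 0
    · rcases Nat.eq_zero_or_pos r with rfl | hr
      · have h4 := hg.2 l hl y 0
        rw [pow_zero, pow_zero] at h4 ⊢
        exact h4
      · rw [h3, hi, mul_zero, zero_pow hr.ne', mul_zero, zero_mul]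
    · obtain ⟨j, hj⟩ : ∃ j, θ' j y ≠ 0 := by
        by_contra hcon
        push Not at hcon
        apply hi
        rw [hback]
        exact Finset.sum_eq_zero fun l _ => by rw [hcon, zero_mul]
      have h4 := hg.2 l hl y j
      rw [hee, mul_pow] at h4
      have h5 : g (y + l) = e ^ r * g y := mul_right_cancel₀ (pow_ne_zero r hj) (by rw [h4]; ring)
      rw [h5, h3, mul_pow]
      ring
  refine ⟨θ', fun a x => V a (S' x), hθ'form, ?_, hform⟩
  refine ⟨h.prime, h.homog, h.gp, h.lft, ?_, ?_, h.homG, ?_, ?_, ?_⟩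
  · intro r g g' hg hg'
    exact h.reg r g g' (htype r g hg) (htype r g' hg')
  · intro a ha
    obtain ⟨D, γ, hγ, hγa, hV⟩ := h.vmap a ha
    have hev : ∀ a' : Fin (N + 1) → ℂ, (fun j => eval a' (∑ l, γ l * C (b l j))) = S fun i => eval a' (γ i) := by
      intro a'
      rw [hS]
      funext j
      rw [map_sum]
      exact Finset.sum_congr rfl fun l _ => by rw [map_mul, eval_C]
    have hne : ∀ a' : Fin (N + 1) → ℂ, (∃ i, eval a' (∑ l, γ l * C (b l i)) ≠ 0) ↔ ∃ i, eval a' (γ i) ≠ 0 := by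
      intro a'
      rw [← not_iff_not]
      push Not
      constructor
      · intro h3
        have h4 : (fun i => eval a' (γ i)) = S' (fun _ => 0) := by
          rw [← hS'S fun i => eval a' (γ i), ← hev]
          congr 1
          funext j
          exact h3 j
        have h5 : S' (fun _ => 0) = fun _ => 0 := by
          rw [hS']
          funext j
          simp
        intro i
        exact congrFun (h4.trans h5) i
      · intro h3 i
        rw [map_sum]
        exact Finset.sum_eq_zero fun l _ => by rw [map_mul, h3, zero_mul]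
    refine ⟨D, fun j => ∑ l, γ l * C (b l j), fun j => ?_, (hne a).2 hγa, fun a' ha' hne' q => ?_⟩
    · refine IsHomogeneous.sum _ _ _ fun l _ => ?_
      have h3 := (hγ l).mul (isHomogeneous_C (Fin (N + 1)) (b l j))
      rwa [add_zero] at h3
    · show V a' (S' q) ↔ ∃ c : ℂ, c ≠ 0 ∧ q = fun i => c * eval a' (∑ l, γ l * C (b l i))
      rw [hV a' ha' ((hne a').1 hne') (S' q)]
      refine exists_congr fun e => and_congr_right fun he => ?_
      have h3 : (fun i => e * eval a' (∑ l, γ l * C (b l i))) = S fun i => e * eval a' (γ i) := by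
        rw [hSsmul, ← hev]
      rw [h3]
      constructor
      · intro h4
        rw [← h4, hSS']
      · intro h4
        rw [h4, hS'S]
  · intro a y x ha hG hL hV p hp hf
    have h3 : M.mulVec p ≠ 0 := by
      intro h4
      apply hp
      rw [← hM'M p, h4, Matrix.mulVec_zero]
    have h4 := h.off a y (S' x) ha hG hL hV (M.mulVec p) h3 (by rw [← hform]; exact hf)
    rwa [hS'b, hM'M] at h4
  · intro γ y q hγ hC hL hV
    exact h.fin γ y (S' q) hγ hC hL hV
  · obtain ⟨a, y, ha, hG, hL, p, hp, hpp⟩ := h.many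
    refine ⟨a, y, ha, hG, hL, fun i => M'.mulVec (p i), fun i => ⟨?_, ?_⟩, fun i j hij => ?_⟩
    · intro h4
      have h4' : M'.mulVec (p i) = 0 := h4
      apply (hp i).1
      rw [← hMM' (p i), h4', Matrix.mulVec_zero]
    · rw [hform, hMM']
      exact (hp i).2
    · have h3 : M' 0 0 * M' 1 1 - M' 0 1 * M' 1 0 ≠ 0 := by
        have h4 : M.det * M'.det = 1 := by rw [← Matrix.det_mul, h1, Matrix.det_one]
        rw [← Matrix.det_fin_two]
        exact right_ne_zero_of_mul_eq_one h4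
      have h5 : M'.mulVec (p i) 0 * M'.mulVec (p j) 1 - M'.mulVec (p i) 1 * M'.mulVec (p j) 0 =
          (M' 0 0 * M' 1 1 - M' 0 1 * M' 1 0) * (p i 0 * p j 1 - p i 1 * p j 0) := by
        simp only [Matrix.mulVec, dotProduct, Fin.sum_univ_two]
        ring
      rw [← sub_ne_zero, h5]
      exact mul_ne_zero h3 (sub_ne_zero.2 (hpp i j hij))

theorem exists_change (hm : 1 ≤ m) (hθ : IsThetaForm Λ θ) (h : GeoT Q ξ Λ θ L V G) : ∃ (θ' : Fin (d + 1) → Cn (κ + 1) → ℂ) (V' : (Fin (N + 1) → ℂ) → Cn (m + 1) → Prop), IsThetaForm Λ θ' ∧ GeoT Q ξ Λ θ' L V' G ∧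
    ∃ a₀ y₀, Cone Q a₀ ∧ (∃ t, eval a₀ (G t) ≠ 0) ∧ L a₀ y₀ ∧ θ' 0 y₀ ≠ 0 ∧ θ' (Fin.last d) y₀ ≠ 0 ∧ ∃ t : Fin (2 * m + 1) → ℂ, Function.Injective t ∧ ∀ i, form θ' y₀ ![t i, 1] = 0 := by
  obtain ⟨a₀, y₀, ha, hG, hL, p, hp, hpp⟩ := h.many
  have hne : ∃ x, form θ y₀ x ≠ 0 := by
    by_contra hcon
    push Not at hcon
    obtain ⟨D, γ, hγ, hγa, hV⟩ := h.vmap a₀ ha
    have hV1 : V a₀ fun i => eval a₀ (γ i) := (hV a₀ ha hγa _).2 ⟨1, one_ne_zero, by simp⟩
    obtain ⟨q, hq, hq0⟩ := mo_zero hm fun i => eval a₀ (γ i)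
    exact h.off a₀ y₀ _ ha hG hL hV1 q hq (hcon q) hq0
  obtain ⟨M, M', h1, h2, h3, h4, -, -⟩ := LG.exists_M (q₀ := ![1, 0]) (fun h => one_ne_zero (congrFun h 0)) hne
  obtain ⟨θ', V', hθ', hG', hform⟩ := mo_change hθ h M M' h1 h2
  have hMM' : ∀ p : Cn 2, M.mulVec (M'.mulVec p) = p := fun p => by rw [Matrix.mulVec_mulVec, h1, Matrix.one_mulVec]
  have h5 : form θ' y₀ ![0, 1] = θ' 0 y₀ := by
    unfold form
    rw [Finset.sum_eq_single 0]
    · simp
    · intro i _ hi
      have : (i : ℕ) ≠ 0 := fun h => hi (Fin.ext h)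
      simp [this]
    · intro h
      exact absurd (Finset.mem_univ _) h
  have h6 : form θ' y₀ ![1, 0] = θ' (Fin.last d) y₀ := by
    unfold form
    rw [Finset.sum_eq_single (Fin.last d)]
    · simp
    · intro i _ hi
      have h7 : d - (i : ℕ) ≠ 0 := by
        have h8 := i.isLt
        have h9 : (i : ℕ) ≠ d := fun h => hi (Fin.ext h)
        omega
      simp [h7]
    · intro h
      exact absurd (Finset.mem_univ _) h
  have h7 : θ' (Fin.last d) y₀ ≠ 0 := by rw [← h6, hform]; exact h3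
  refine ⟨θ', V', hθ', hG', a₀, y₀, ha, hG, hL, by rw [← h5, hform]; exact h4, h7, ?_⟩
  have hz : ∀ i, form θ' y₀ (M'.mulVec (p i)) = 0 := fun i => by rw [hform, hMM']; exact (hp i).2
  have hnz : ∀ i, M'.mulVec (p i) ≠ 0 := fun i h8 => (hp i).1 (by rw [← hMM' (p i), h8, Matrix.mulVec_zero])
  have h1ne : ∀ i, M'.mulVec (p i) 1 ≠ 0 := by
    intro i h8
    have h9 : M'.mulVec (p i) = (M'.mulVec (p i) 0) • ![1, 0] := by
      funext j
      fin_cases j
      · simp
      · simpa using h8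
    have h10 : M'.mulVec (p i) 0 ≠ 0 := by
      intro h11
      apply hnz i
      rw [h9, h11, zero_smul]
    have h12 := hz i
    rw [h9, LG.form_smul, h6] at h12
    exact mul_ne_zero (pow_ne_zero d h10) h7 h12
  have hcoord : ∀ i, M'.mulVec (p i) = (M'.mulVec (p i) 1) • ![M'.mulVec (p i) 0 / M'.mulVec (p i) 1, 1] := by
    intro i
    funext j
    fin_cases j
    · show M'.mulVec (p i) 0 = M'.mulVec (p i) 1 * (M'.mulVec (p i) 0 / M'.mulVec (p i) 1)
      rw [mul_div_cancel₀ _ (h1ne i)]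
    · simp
  refine ⟨fun i => M'.mulVec (p i) 0 / M'.mulVec (p i) 1, fun i j hij => ?_, fun i => ?_⟩
  · by_contra hne'
    have hij' : M'.mulVec (p i) 0 * M'.mulVec (p j) 1 - M'.mulVec (p i) 1 * M'.mulVec (p j) 0 = 0 := by
      have h8 : M'.mulVec (p i) 0 / M'.mulVec (p i) 1 = M'.mulVec (p j) 0 / M'.mulVec (p j) 1 := hij
      rw [div_eq_div_iff (h1ne i) (h1ne j)] at h8
      rw [h8]
      ring
    have h9 : M'.mulVec (p i) 0 * M'.mulVec (p j) 1 - M'.mulVec (p i) 1 * M'.mulVec (p j) 0 =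
        (M' 0 0 * M' 1 1 - M' 0 1 * M' 1 0) * (p i 0 * p j 1 - p i 1 * p j 0) := by
      simp only [Matrix.mulVec, dotProduct, Fin.sum_univ_two]
      ring
    have h10 : M' 0 0 * M' 1 1 - M' 0 1 * M' 1 0 ≠ 0 := by
      have h4 : M.det * M'.det = 1 := by rw [← Matrix.det_mul, h1, Matrix.det_one]
      rw [← Matrix.det_fin_two]
      exact right_ne_zero_of_mul_eq_one h4
    rw [h9] at hij'
    exact mul_ne_zero h10 (sub_ne_zero.2 (hpp i j hne')) hij'
  · have h8 := hz i
    rw [hcoord i, LG.form_smul] at h8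
    exact (mul_eq_zero.1 h8).resolve_left (pow_ne_zero d (h1ne i))

end Pool.Agent.LT
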