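import Pool.Agent.LG.Fv
import Pool.Agent.LG.Wd
import Pool.Agent.LG.Ex
import Mathlib.RingTheory.Kaehler.Basic

/-!
# LT Ov: a prime divisor over a prime divisor, and the orders of forms

`K' / K` finite.  `E` has a uniformizer `t` and `s` with algebraically independent residues (`residue_trdeg`).
* `ov_coords`: the proof of `H23.exists_divisorCoords` (and `H17LG.exists_logDivisorCoords`) for given `t`, `s`.
* `ov_fv`: the proof of `LG.exists_fv` for given coordinates.
* `ov_ext`: an extension `ν` of the order of `E` to `K'` (`LG.exists_ext`, normalised: the value group of `ν` is `ℤ`); ramification index `b`.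
* the orders of forms: coordinates `(τ, s)` of `K'`, `ν τ = 1`, dual derivations `Δ_0`, `Δ_i` of `K'`.  `t = u τ^b`, `Δ_0 t = τ^(b-1) (b u + τ Δ_0 u)`, so `ν (Δ_0 t) = b - 1` (`ov_ram`).  The determinant of `(dt, ds)` in the basis
  `(dτ, ds)` is `Δ_0 t` (`ov_det`), and the coordinates of `da` in `Ω_K` and in `Ω_K'` are related by `KaehlerDifferential.map` (`ov_mat`).
-/

set_option autoImplicit false

open MvPolynomial
open Pool.Agent.H23 (RatForm PrimeDivisorOver)
open Pool.Agent.LG (dd wd IV FV)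

noncomputable section

namespace Pool.Agent.LT

section Coords

open Pool.Agent.H23 (dualDer dualDer_coord exists_int ev ev_injective aeval_cons exists_poly_of_basis exists_basis_kaehler der_nonneg fc)

variable {L : Type} [Field L] [Algebra ℂ L] {k : ℕ}

omit [Algebra ℂ L] in
private lemma ov_val_zpow (v : AddValuation L (WithTop ℤ)) {t : L} (ht : v t = 1) (n : ℤ) :
    v (t ^ n) = (n : WithTop ℤ) := by
  have h0 : ∀ m : ℕ, v (t ^ m) = ((m : ℤ) : WithTop ℤ) := by
    intro m
    rw [v.map_pow, ht]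
    simp
  have ht0 : t ≠ 0 := by
    rintro rfl
    simp at ht
  obtain ⟨m, rfl | rfl⟩ := n.eq_nat_or_neg
  · rw [zpow_natCast]
    exact h0 m
  · have h1 : t ^ (-(m : ℤ)) * t ^ m = 1 := by
      rw [← zpow_natCast, ← zpow_add₀ ht0]
      simp
    have h2 : v (t ^ (-(m : ℤ))) + v (t ^ m) = 0 := by
      rw [← v.map_mul, h1, v.map_one]
    obtain ⟨a, ha⟩ := exists_int v (zpow_ne_zero (-(m : ℤ)) ht0)
    rw [ha, h0] at h2
    rw [ha]
    have h3 : a + (m : ℤ) = 0 := by exact_mod_cast h2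
    exact congrArg _ (by omega : a = -(m : ℤ))

omit [Algebra ℂ L] in
private lemma ov_log (v : AddValuation L (WithTop ℤ)) {t : L} (ht : v t = 1)
    (D : Derivation ℤ L L) (h : ∀ f, 0 ≤ v f → 0 ≤ v (D f)) (hDt : 1 ≤ v (D t)) (f : L) :
    v f ≤ v (D f) := by
  have ht0 : t ≠ 0 := by
    rintro rfl
    simp at ht
  by_cases hf : f = 0
  · rw [hf, D.map_zero]
  obtain ⟨μ, hμ⟩ := exists_int v hf
  have hfu : f = t ^ μ * (t ^ (-μ) * f) := by
    rw [← mul_assoc, ← zpow_add₀ ht0]
    simp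
  obtain ⟨u, hu⟩ : ∃ u, u = t ^ (-μ) * f := ⟨_, rfl⟩
  rw [← hu] at hfu
  have hvu : v u = 0 := by
    rw [hu, v.map_mul, ov_val_zpow v ht, hμ]
    have : ((-μ + μ : ℤ) : WithTop ℤ) = 0 := by
      rw [neg_add_cancel]
      rfl
    exact_mod_cast this
  have hD : D f = t ^ μ * D u + u * (μ * (t ^ (μ - 1) * D t)) := by
    conv_lhs => rw [hfu]
    rw [D.leibniz, D.leibniz_zpow]
    simp only [smul_eq_mul, zsmul_eq_mul]
  rw [hD, hμ]
  apply v.map_le_add
  · rw [v.map_mul, ov_val_zpow v ht]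
    exact le_add_of_nonneg_right (h u (by rw [hvu]))
  · have hμ0 : 0 ≤ v ((μ : ℤ) : L) := by
      have h0 : ∀ m : ℕ, 0 ≤ v ((m : ℕ) : L) := by
        intro m
        induction m with
        | zero => simp
        | succ m ih =>
          push_cast
          exact v.map_le_add ih (by rw [v.map_one])
      obtain ⟨m, rfl | rfl⟩ := μ.eq_nat_or_neg
      · simpa using h0 m
      · simpa using h0 m
    rw [v.map_mul u, hvu, v.map_mul, v.map_mul, ov_val_zpow v ht, zero_add]
    have h1 : ((μ : ℤ) : WithTop ℤ) = ((μ - 1 : ℤ) : WithTop ℤ) + 1 := by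
      have : (μ : ℤ) = (μ - 1) + 1 := by ring
      conv_lhs => rw [this]
      push_cast
      rfl
    rw [h1]
    exact le_trans (add_le_add le_rfl hDt) (le_add_of_nonneg_left hμ0)

/-- the coordinates at a prime divisor for given `t`, `s` -/
private theorem ov_coords [Algebra.EssFiniteType ℂ L] {z : Fin (k + 1) → L} (hz : IsTranscendenceBasis ℂ z)
    (w : AddValuation L (WithTop ℤ)) {t : L} (ht : w t = 1) {s : Fin k → L}
    (hs : ∀ p : MvPolynomial (Fin k) ℂ, p ≠ 0 → w (aeval s p) = 0) :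
    ∃ b : Module.Basis (Fin (k + 1)) L Ω[L⁄ℂ],
      (∀ i, b i = KaehlerDifferential.D ℂ L ((Fin.cons t s : Fin (k + 1) → L) i)) ∧
      (∀ i f, 0 ≤ w f → 0 ≤ w (dualDer b i f)) ∧
      (∀ i, i ≠ 0 → ∀ f, w f ≤ w (dualDer b i f)) ∧
      ∀ f, w f ≤ w (t * dualDer b 0 f) := by
  set g : Fin (k + 1) → L := Fin.cons t s with hg
  have hind : AlgebraicIndependent ℂ g := by
    rw [algebraicIndependent_iff_injective_aeval]
    have h1 : (MvPolynomial.aeval g : MvPolynomial (Fin (k + 1)) ℂ → L) =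
        ev s t ∘ MvPolynomial.finSuccEquiv ℂ k := by
      funext p
      exact aeval_cons s t p
    rw [h1]
    exact (ev_injective w hs ht).comp (MvPolynomial.finSuccEquiv ℂ k).injective
  have hbasis : IsTranscendenceBasis ℂ g := by
    apply hind.isTranscendenceBasis_of_trdeg_le_of_finite
    rw [← hz.cardinalMk_eq_trdeg]
  obtain ⟨b, hb⟩ := exists_basis_kaehler hbasis
  have h4 : ∀ i f, 0 ≤ w f → 0 ≤ w (dualDer b i f) := by
    intro i
    apply der_nonneg w hs ht
    · intro f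
      obtain ⟨F, h1, h2⟩ := exists_poly_of_basis hbasis f
      refine ⟨F.map (MvPolynomial.finSuccEquiv ℂ k).toRingEquiv.toRingHom, ?_, ?_⟩
      · rwa [Ne, Polynomial.map_eq_zero_iff]
        exact (MvPolynomial.finSuccEquiv ℂ k).injective
      · rw [Polynomial.eval₂_map]
        have h3 : (ev s t).comp (MvPolynomial.finSuccEquiv ℂ k).toRingEquiv.toRingHom =
            (MvPolynomial.aeval g).toRingHom :=
          RingHom.ext fun p => (aeval_cons s t p).symm
        rw [h3]
        exact h2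
    · have := dualDer_coord b hb i 0
      rw [hg, Fin.cons_zero] at this
      rw [this]
      split_ifs <;> simp
    · intro j
      have := dualDer_coord b hb i j.succ
      rw [hg, Fin.cons_succ] at this
      rw [this]
      split_ifs <;> simp
  have hg0 : g 0 = t := by rw [hg, Fin.cons_zero]
  refine ⟨b, hb, h4, ?_, ?_⟩
  · intro i hi
    refine ov_log w ht ((dualDer b i).restrictScalars ℤ) (h4 i) ?_
    change 1 ≤ w (dualDer b i t)
    rw [← hg0, dualDer_coord b hb, if_neg hi]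
    simp
  · refine ov_log w ht ((t • dualDer b 0).restrictScalars ℤ) (fun f hf => ?_) ?_
    · change 0 ≤ w (t * dualDer b 0 f)
      rw [w.map_mul, ht]
      exact add_nonneg (by norm_num) (h4 0 f hf)
    · change 1 ≤ w (t * dualDer b 0 t)
      have h5 : dualDer b 0 t = 1 := by
        rw [← hg0, dualDer_coord b hb, if_pos rfl]
      rw [h5, mul_one, ht]

omit [Algebra ℂ L] in
private lemma ov_ord_prod (w : AddValuation L (WithTop ℤ)) {σ : Type} (s : Finset σ) (f : σ → L) :
    w (∏ i ∈ s, f i) = ∑ i ∈ s, w (f i) := by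
  classical
  induction s using Finset.induction_on with
  | empty => simp
  | insert a s ha ih => rw [Finset.prod_insert ha, Finset.sum_insert ha, w.map_mul, ih]

omit [Algebra ℂ L] in
private lemma ov_le_sum (w : AddValuation L (WithTop ℤ)) {σ : Type} (s : Finset σ) (f : σ → L)
    (c : WithTop ℤ) (h : ∀ i ∈ s, c ≤ w (f i)) : c ≤ w (∑ i ∈ s, f i) := by
  classical
  induction s using Finset.induction_on with
  | empty => simp
  | insert a s ha ih =>
    rw [Finset.sum_insert ha]
    exact w.map_le_add (h a (Finset.mem_insert_self _ _))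
      (ih fun i hi => h i (Finset.mem_insert_of_mem hi))

omit [Algebra ℂ L] in
private lemma ov_le_det (w : AddValuation L (WithTop ℤ)) {r : ℕ} (A : Matrix (Fin r) (Fin r) L)
    (c : Fin r → WithTop ℤ) (h : ∀ i j, c j ≤ w (A i j)) : ∑ j, c j ≤ w A.det := by
  rw [Matrix.det_apply]
  apply ov_le_sum
  intro σ _
  have h1 : ∑ j, c j ≤ w (∏ i, A (σ i) i) := by
    rw [ov_ord_prod]
    exact Finset.sum_le_sum fun i _ => h (σ i) i
  rcases Int.units_eq_one_or (Equiv.Perm.sign σ) with hs | hs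
  · rw [hs, one_smul]
    exact h1
  · rw [hs, Units.neg_smul, one_smul, w.map_neg]
    exact h1

private lemma ov_nsmul (m : ℕ) (x : ℤ) : m • (x : WithTop ℤ) = ((m * x : ℤ) : WithTop ℤ) := by
  induction m with
  | zero => simp
  | succ m ih =>
    rw [succ_nsmul, ih, ← WithTop.coe_add]
    congr 1
    push_cast
    ring

private theorem ov_fcdet (b : Module.Basis (Fin (k + 1)) L Ω[L⁄ℂ]) (a : Fin (k + 1) → L) :
    fc b (wd fun i => dd (a i)) = (Matrix.of fun i j => dualDer b i (a j)).det := by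
  rw [wd, Pool.Agent.H23.fc_ιMulti, Module.Basis.det_apply]
  rfl

private theorem ov_fcne (b : Module.Basis (Fin (k + 1)) L Ω[L⁄ℂ]) {ω : RatForm L (k + 1)} (hω : ω ≠ 0) : fc b ω ≠ 0 := by
  intro h0
  apply hω
  rw [Pool.Agent.H23.eq_fc_smul b ω, h0, zero_smul]

/-- the orders of forms from the coordinates -/
private theorem ov_fv (w : AddValuation L (WithTop ℤ)) (hc : ∀ c : ℂ, 0 ≤ w (algebraMap ℂ L c)) {v : L → ℤ}
    (hv : ∀ a, a ≠ 0 → w a = (v a : WithTop ℤ)) {t : L} (ht : w t = 1) (b : Module.Basis (Fin (k + 1)) L Ω[L⁄ℂ])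
    (hη : ∀ i f, 0 ≤ w f → 0 ≤ w (dualDer b i f)) (hη' : ∀ i, i ≠ 0 → ∀ f, w f ≤ w (dualDer b i f))
    (hη0 : ∀ f, w f ≤ w (t * dualDer b 0 f)) : FV (k + 1) v (fun ω => v (fc b ω)) := by
  classical
  have hfc : ∀ ω : RatForm L (k + 1), ω ≠ 0 → fc b ω ≠ 0 := fun ω hω => ov_fcne b hω
  have hpos : ∀ a : L, a ≠ 0 → (0 ≤ w a ↔ 0 ≤ v a) := by
    intro a ha
    rw [hv a ha]
    exact_mod_cast Iff.rfl
  have hIV : IV L v := by
    refine ⟨?_, ?_, ?_⟩
    · intro a c ha hc
      have h1 := w.map_mul a c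
      rw [hv a ha, hv c hc, hv _ (mul_ne_zero ha hc)] at h1
      exact_mod_cast h1
    · intro a c ha hc hac
      have h1 := w.map_add a c
      rw [hv a ha, hv c hc, hv _ hac] at h1
      exact_mod_cast h1
    · intro c hc0
      have hc1 : algebraMap ℂ L c ≠ 0 := by
        rwa [Ne, map_eq_zero]
      have h1 : 0 ≤ v (algebraMap ℂ L c) := (hpos _ hc1).1 (hc c)
      have hc2 : algebraMap ℂ L c⁻¹ ≠ 0 := by
        rw [Ne, map_eq_zero]
        exact inv_ne_zero hc0
      have h2 : 0 ≤ v (algebraMap ℂ L c⁻¹) := (hpos _ hc2).1 (hc c⁻¹)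
      have h3 : v (algebraMap ℂ L c) + v (algebraMap ℂ L c⁻¹) = 0 := by
        have h4 := w.map_mul (algebraMap ℂ L c) (algebraMap ℂ L c⁻¹)
        rw [← map_mul, mul_inv_cancel₀ hc0, map_one, w.map_one, hv _ hc1, hv _ hc2] at h4
        exact_mod_cast h4.symm
      omega
  refine ⟨hIV, ?_, ?_, ?_, ?_⟩
  · intro c ω hc hω
    rw [map_smul, smul_eq_mul]
    exact hIV.mul hc (hfc ω hω)
  · intro ω ω' hω hω' h
    rw [map_add]
    refine hIV.add (hfc ω hω) (hfc ω' hω') ?_
    rw [← map_add]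
    exact hfc _ h
  · intro a ha hne
    have hne' := hfc _ hne
    have h1 : ∑ j, w (a j) ≤ w (t * fc b (wd fun i => dd (a i))) := by
      have h2 : t * fc b (wd fun i => dd (a i)) =
          (Matrix.of fun i j => (if i = 0 then t else 1) * dualDer b i (a j)).det := by
        rw [ov_fcdet]
        have h3 := Matrix.det_mul_column (fun i : Fin (k + 1) => if i = 0 then t else 1)
          (Matrix.of fun i j => dualDer b i (a j))
        simp only [Matrix.of_apply] at h3
        rw [h3]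
        congr 1
        rw [Fin.prod_univ_succ]
        simp
      rw [h2]
      apply ov_le_det
      intro i j
      rw [Matrix.of_apply]
      by_cases hi : i = 0
      · rw [if_pos hi, hi]
        exact hη0 (a j)
      · rw [if_neg hi, one_mul]
        exact hη' i hi (a j)
    rw [w.map_mul, ht, hv _ hne', Finset.sum_congr rfl fun j _ => hv _ (ha j)] at h1
    have h4 : ((∑ j, v (a j) : ℤ) : WithTop ℤ) ≤
        ((1 + v (fc b (wd fun i => dd (a i))) : ℤ) : WithTop ℤ) := by
      push_cast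
      exact h1
    have h5 := WithTop.coe_le_coe.1 h4
    change ∑ i, v (a i) ≤ v (fc b (wd fun i => dd (a i))) + 1
    linarith
  · intro a ha hne
    have hne' := hfc _ hne
    have ha' : ∀ i, 0 ≤ w (a i) := by
      intro i
      by_cases h0 : a i = 0
      · rw [h0, w.map_zero]
        exact le_top
      · exact (hpos _ h0).2 (ha i h0)
    have h1 : ∑ j : Fin (k + 1), (0 : WithTop ℤ) ≤ w (fc b (wd fun i => dd (a i))) := by
      rw [ov_fcdet]
      apply ov_le_det
      intro i j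
      exact hη i (a j) (ha' j)
    rw [Finset.sum_const_zero] at h1
    exact (hpos _ hne').1 h1

end Coords

section Ext

variable {K : Type} [Field K] [Algebra ℂ K]
variable {K' : Type} [Field K'] [Algebra K K'] [Algebra ℂ K'] [IsScalarTower ℂ K K']

private theorem ov_one {ν : K' → ℤ} (h : IV K' ν) : ν 1 = 0 := by
  simpa using h.const 1 one_ne_zero

private theorem ov_inv {ν : K' → ℤ} (h : IV K' ν) {a : K'} (ha : a ≠ 0) : ν a⁻¹ = - ν a := by
  have h1 := h.mul (a := a) (b := a⁻¹) ha (inv_ne_zero ha)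
  rw [mul_inv_cancel₀ ha, ov_one h] at h1
  linarith

private theorem ov_pow {ν : K' → ℤ} (h : IV K' ν) {a : K'} (ha : a ≠ 0) (m : ℕ) : ν (a ^ m) = m * ν a := by
  induction m with
  | zero => simp [ov_one h]
  | succ m ih =>
    rw [pow_succ, h.mul (pow_ne_zero m ha) ha, ih]
    push_cast
    ring

private theorem ov_zpow {ν : K' → ℤ} (h : IV K' ν) {a : K'} (ha : a ≠ 0) (m : ℤ) : ν (a ^ m) = m * ν a := by
  cases m with
  | ofNat m => simpa using ov_pow h ha m
  | negSucc m =>
    rw [zpow_negSucc, ov_inv h (pow_ne_zero _ ha), ov_pow h ha]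
    push_cast
    rw [Int.negSucc_eq]
    ring

/-- the extension of a valuation, normalised -/
private theorem ov_ext [FiniteDimensional K K'] {v : K → ℤ} (hv : IV K v) (ht : ∃ t, t ≠ 0 ∧ v t = 1) :
    ∃ (ν : K' → ℤ) (b : ℤ), 1 ≤ b ∧ IV K' ν ∧ (∃ τ, τ ≠ 0 ∧ ν τ = 1) ∧ ∀ a : K, a ≠ 0 → ν (algebraMap K K' a) = b * v a := by
  classical
  obtain ⟨ν, e, he, hν, hνv⟩ := Pool.Agent.LG.exists_ext (K' := K') hv ht
  obtain ⟨t, ht0, ht1⟩ := ht
  have hex : ∃ n : ℕ, 0 < n ∧ ∃ x : K', x ≠ 0 ∧ ν x = n := by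
    refine ⟨e.toNat, by omega, algebraMap K K' t, by simpa using ht0, ?_⟩
    rw [hνv t ht0, ht1]
    omega
  obtain ⟨hd0, τ, hτ0, hτ⟩ := Nat.find_spec hex
  have hmin := fun m => Nat.find_min hex (m := m)
  set d := Nat.find hex with hd
  have hdvd : ∀ x : K', x ≠ 0 → (d : ℤ) ∣ ν x := by
    intro x hx
    have h1 : x * (τ ^ (ν x / d))⁻¹ ≠ 0 := mul_ne_zero hx (inv_ne_zero (zpow_ne_zero _ hτ0))
    have h2 : ν (x * (τ ^ (ν x / d))⁻¹) = ν x % d := by
      rw [hν.mul hx (inv_ne_zero (zpow_ne_zero _ hτ0)), ov_inv hν (zpow_ne_zero _ hτ0), ov_zpow hν hτ0, hτ]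
      have := Int.emod_add_mul_ediv (ν x) d
      linarith [mul_comm (d : ℤ) (ν x / d)]
    have h3 : 0 ≤ ν x % d := Int.emod_nonneg _ (by omega)
    have h4 : ν x % d < d := Int.emod_lt_of_pos _ (by omega)
    rw [Int.dvd_iff_emod_eq_zero]
    by_contra hne
    refine hmin (ν x % d).toNat (by omega) ⟨by omega, _, h1, ?_⟩
    rw [h2]
    omega
  have hd1 : (0 : ℤ) < d := by omega
  have hdiv : ∀ x : K', x ≠ 0 → ν x = d * (ν x / d) := fun x hx => (Int.mul_ediv_cancel' (hdvd x hx)).symm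
  refine ⟨fun x => ν x / d, e / d, ?_, ⟨?_, ?_, ?_⟩, ⟨τ, hτ0, ?_⟩, ?_⟩
  · have h1 := hdvd (algebraMap K K' t) (by simpa using ht0)
    rw [hνv t ht0, ht1, mul_one] at h1
    obtain ⟨c, hc⟩ := h1
    rw [hc, Int.mul_ediv_cancel_left _ (by omega)]
    by_contra hcon
    have : c ≤ 0 := by omega
    nlinarith
  · intro a c ha hc
    have h1 := hν.mul ha hc
    rw [hdiv a ha, hdiv c hc, hdiv _ (mul_ne_zero ha hc), ← mul_add] at h1
    exact mul_left_cancel₀ (by omega) h1
  · intro a c ha hc hac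
    have h1 := hν.add ha hc hac
    exact Int.le_ediv_of_mul_le hd1 (by
      rcases le_total (ν a / d) (ν c / d) with h | h
      · rw [min_eq_left h]
        rw [min_le_iff] at h1
        rcases h1 with h1 | h1
        · linarith [hdiv a ha, mul_comm (d : ℤ) (ν a / d)]
        · nlinarith [hdiv c hc]
      · rw [min_eq_right h]
        rw [min_le_iff] at h1
        rcases h1 with h1 | h1
        · nlinarith [hdiv a ha]
        · linarith [hdiv c hc, mul_comm (d : ℤ) (ν c / d)])
  · intro c hc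
    rw [hν.const c hc]
    simp
  · change ν τ / d = 1
    rw [hτ]
    exact Int.ediv_self (by omega)
  · intro a ha
    change ν (algebraMap K K' a) / d = _
    have h1 := hdvd (algebraMap K K' t) (by simpa using ht0)
    rw [hνv t ht0, ht1, mul_one] at h1
    obtain ⟨c, hc⟩ := h1
    rw [hνv a ha, hc, mul_assoc, Int.mul_ediv_cancel_left _ (by omega), Int.mul_ediv_cancel_left _ (by omega)]

/-- the additive valuation of an integer valued valuation -/
private def ov_val {ν : K' → ℤ} (h : IV K' ν) : AddValuation K' (WithTop ℤ) :=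
  open Classical in
  AddValuation.of (fun x => if x = 0 then ⊤ else (ν x : WithTop ℤ)) (by simp) (by simp [ov_one h])
    (by
      classical
      intro x y
      change min (if x = 0 then ⊤ else (ν x : WithTop ℤ)) (if y = 0 then ⊤ else (ν y : WithTop ℤ)) ≤ (if x + y = 0 then ⊤ else (ν (x + y) : WithTop ℤ))
      by_cases hx : x = 0
      · rw [hx, zero_add]
        exact min_le_right _ _
      by_cases hy : y = 0
      · rw [hy, add_zero]
        exact min_le_left _ _
      by_cases hxy : x + y = 0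
      · simp [hxy]
      simp only [hx, hy, hxy, if_false]
      have h1 := h.add hx hy hxy
      exact_mod_cast h1)
    (by
      intro x y
      by_cases hx : x = 0
      · subst hx
        simp
      by_cases hy : y = 0
      · subst hy
        simp
      have hxy : x * y ≠ 0 := mul_ne_zero hx hy
      simp only [hx, hy, hxy, if_false]
      rw [h.mul hx hy]
      exact_mod_cast rfl)

private theorem ov_val_apply {ν : K' → ℤ} (h : IV K' ν) {a : K'} (ha : a ≠ 0) : ov_val h a = (ν a : WithTop ℤ) := by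
  unfold ov_val
  rw [AddValuation.of_apply, if_neg ha]

end Ext

section Forms

open Pool.Agent.H23 (dualDer dualDer_coord fc)

variable {K : Type} [Field K] [Algebra ℂ K] {k : ℕ}
variable {K' : Type} [Field K'] [Algebra K K'] [Algebra ℂ K'] [IsScalarTower ℂ K K']

/-- a derivation of `K'` on `K` in terms of the coordinates of `K` -/
private theorem ov_chain (b : Module.Basis (Fin (k + 1)) K Ω[K⁄ℂ]) {g : Fin (k + 1) → K} (hb : ∀ i, b i = KaehlerDifferential.D ℂ K (g i))
    (Δ : Derivation ℂ K' K') (a : K) :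
    Δ (algebraMap K K' a) = ∑ l, algebraMap K K' (dualDer b l a) * Δ (algebraMap K K' (g l)) := by
  have h1 : (Δ.compAlgebraMap K) a = ∑ l, dualDer b l a • (Δ.compAlgebraMap K) (g l) := by
    have h2 : KaehlerDifferential.D ℂ K a = ∑ l, dualDer b l a • KaehlerDifferential.D ℂ K (g l) := by
      conv_lhs => rw [← b.sum_repr (KaehlerDifferential.D ℂ K a)]
      refine Finset.sum_congr rfl fun l _ => ?_
      rw [hb]
      rfl
    have h3 := congrArg (Δ.compAlgebraMap K).liftKaehlerDifferential h2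
    rw [map_sum] at h3
    simpa only [map_smul, Derivation.liftKaehlerDifferential_comp_D] using h3
  simpa [Algebra.smul_def] using h1

omit [Algebra ℂ K'] in
/-- the determinant of `(dt, ds)` in the basis `(dτ, ds)` -/
private theorem ov_det (N : Matrix (Fin (k + 1)) (Fin (k + 1)) K') (h : ∀ i (j : Fin k), N i j.succ = if i = j.succ then 1 else 0) : N.det = N 0 0 := by
  rw [Matrix.det_succ_row_zero, Fin.sum_univ_succ, Finset.sum_eq_zero, add_zero]
  · have h1 : N.submatrix Fin.succ (Fin.succAbove 0) = 1 := by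
      ext i j
      rw [Matrix.submatrix_apply, Fin.succAbove_zero, h, Matrix.one_apply]
      simp only [Fin.succ_inj]
    rw [h1, Matrix.det_one]
    simp
  · intro j _
    rw [h, if_neg (Fin.succ_ne_zero j).symm]
    simp

/-- the order of the derivative of `t` -/
private theorem ov_ram (w : AddValuation K' (WithTop ℤ)) (hc : ∀ c : ℂ, c ≠ 0 → w (algebraMap ℂ K' c) = 0) {τ : K'} (hτ : w τ = 1)
    (Δ : Derivation ℂ K' K') (hΔ : ∀ f, 0 ≤ w f → 0 ≤ w (Δ f)) (hΔτ : Δ τ = 1) {T : K'} {m : ℕ} (hm : 1 ≤ m) (hT : w T = (m : ℤ)) :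
    w (Δ T) = ((m - 1 : ℕ) : ℤ) := by
  have hτ0 : τ ≠ 0 := by
    rintro rfl
    simp at hτ
  obtain ⟨n, rfl⟩ : ∃ n, m = n + 1 := ⟨m - 1, by omega⟩
  obtain ⟨u, hu⟩ : ∃ u, u = T * (τ ^ (n + 1))⁻¹ := ⟨_, rfl⟩
  have hTu : T = τ ^ (n + 1) * u := by
    rw [hu]
    field_simp
  have hwp : ∀ q : ℕ, w (τ ^ q) = ((q : ℤ) : WithTop ℤ) := by
    intro q
    rw [w.map_pow, hτ]
    simp
  have hwu : w u = 0 := by
    have h1 := w.map_mul (τ ^ (n + 1)) u
    rw [← hTu, hT, hwp] at h1
    have hu0 : u ≠ 0 := by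
      rintro rfl
      rw [mul_zero] at hTu
      rw [hTu, w.map_zero] at hT
      exact WithTop.top_ne_coe hT
    obtain ⟨q, hq⟩ := Pool.Agent.H23.exists_int w hu0
    rw [hq] at h1 ⊢
    have h2 : ((n + 1 : ℕ) : ℤ) = ((n + 1 : ℕ) : ℤ) + q := by exact_mod_cast h1
    have h3 : q = 0 := by omega
    rw [h3]
    rfl
  have h1 : Δ T = τ ^ n * (algebraMap ℂ K' (n + 1) * u + τ * Δ u) := by
    rw [hTu, Δ.leibniz, Δ.leibniz_pow, hΔτ, map_add, map_one, map_natCast]
    simp only [smul_eq_mul, nsmul_eq_mul, Nat.add_sub_cancel, mul_one]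
    push_cast
    ring
  have h2 : w (algebraMap ℂ K' (n + 1) * u) = 0 := by
    rw [w.map_mul, hwu, add_zero]
    exact hc _ (by exact_mod_cast Nat.succ_ne_zero n)
  have h3 : w (algebraMap ℂ K' (n + 1) * u + τ * Δ u) = 0 := by
    rw [w.map_add_eq_of_lt_left, h2]
    rw [h2, w.map_mul, hτ]
    have h4 := hΔ u (by rw [hwu])
    exact lt_of_lt_of_le (by norm_num) (le_add_of_nonneg_right h4)
  rw [h1, w.map_mul, h3, hwp, add_zero, Nat.add_sub_cancel]

end Forms

variable {K : Type} [Field K] [Algebra ℂ K] {k : ℕ}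
variable {K' : Type} [Field K'] [Algebra K K'] [Algebra ℂ K'] [IsScalarTower ℂ K K']

theorem exists_fv_over [Algebra.EssFiniteType ℂ K] [FiniteDimensional K K'] {z : Fin (k + 1) → K} (hz : IsTranscendenceBasis ℂ z) (E : PrimeDivisorOver K (k + 1)) :
    ∃ (v : K → ℤ) (o : RatForm K (k + 1) → ℤ) (ν : K' → ℤ) (o' : RatForm K' (k + 1) → ℤ) (b : ℤ), FV (k + 1) v o ∧ (∀ a, a ≠ 0 → E.ord a = (v a : WithTop ℤ)) ∧
      (∀ (M : ℕ) (f : K) (ω : RatForm K (k + 1)), f ≠ 0 → ω ≠ 0 → (0 ≤ v f + M * o ω → H17GT.RegularAlong E M f ω) ∧ (0 ≤ v f + M * o ω + M → H17LG.LogRegularAlong E M f ω)) ∧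
      FV (k + 1) ν o' ∧ 1 ≤ b ∧ (∀ a, a ≠ 0 → ν (algebraMap K K' a) = b * v a) ∧
      ∀ a : Fin (k + 1) → K, wd (fun i => dd (a i)) ≠ 0 → wd (fun i => dd (algebraMap K K' (a i))) ≠ 0 ∧ o' (wd fun i => dd (algebraMap K K' (a i))) + 1 = b * (o (wd fun i => dd (a i)) + 1) := by
  classical
  obtain ⟨t, ht⟩ := E.exists_uniformizer
  obtain ⟨s, hs0, hs⟩ := E.residue_trdeg
  change Fin k → K at s
  change ∀ i : Fin k, 0 ≤ E.ord (s i) at hs0
  change ∀ p : MvPolynomial (Fin k) ℂ, p ≠ 0 → E.ord (MvPolynomial.aeval s p) = 0 at hs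
  have ht0 : t ≠ 0 := by
    rintro rfl
    simp at ht
  -- the coordinates of `K`
  obtain ⟨β, hβ, hβ1, hβ2, hβ3⟩ := ov_coords hz E.ord ht hs
  have hex : ∀ a : K, ∃ q : ℤ, a ≠ 0 → E.ord a = (q : WithTop ℤ) := by
    intro a
    by_cases ha : a = 0
    · exact ⟨0, fun h => absurd ha h⟩
    · obtain ⟨q, hq⟩ := Pool.Agent.H23.exists_int E.ord ha
      exact ⟨q, fun _ => hq⟩
  choose v hv using hex
  have hFV : FV (k + 1) v (fun ω => v (Pool.Agent.H23.fc β ω)) := ov_fv E.ord E.ord_const hv ht β hβ1 hβ2 hβ3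
  have hvt : v t = 1 := by
    rw [hv t ht0] at ht
    exact_mod_cast ht
  -- the extension
  obtain ⟨ν, b, hb1, hν, ⟨τ, hτ0, hτ1⟩, hνv⟩ := ov_ext (K' := K') hFV.toIV ⟨t, ht0, hvt⟩
  have hw : ∀ a : K', a ≠ 0 → ov_val hν a = (ν a : WithTop ℤ) := fun a ha => ov_val_apply hν ha
  have hinj : ∀ a : K, a ≠ 0 → algebraMap K K' a ≠ 0 := fun a ha => by simpa using ha
  have hwτ : ov_val hν τ = 1 := by
    rw [hw τ hτ0, hτ1]
    rfl
  have hwc : ∀ c : ℂ, c ≠ 0 → ov_val hν (algebraMap ℂ K' c) = 0 := by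
    intro c hc
    rw [hw _ (by simpa using hc), hν.const c hc]
    rfl
  have hwc' : ∀ c : ℂ, 0 ≤ ov_val hν (algebraMap ℂ K' c) := by
    intro c
    by_cases hc : c = 0
    · subst hc
      simp
    · rw [hwc c hc]
  have hs' : ∀ p : MvPolynomial (Fin k) ℂ, p ≠ 0 → ov_val hν (aeval (fun i => algebraMap K K' (s i)) p) = 0 := by
    intro p hp
    have h1 : aeval (fun i => algebraMap K K' (s i)) p = algebraMap K K' (aeval s p) := by
      rw [← MvPolynomial.aeval_algebraMap_apply]
      rfl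
    have h2 := hs p hp
    have h3 : aeval s p ≠ 0 := by
      intro h
      rw [h] at h2
      simp at h2
    rw [hv _ h3] at h2
    have h4 : v (aeval s p) = 0 := by exact_mod_cast h2
    rw [h1, hw _ (hinj _ h3), hνv _ h3, h4, mul_zero]
    rfl
  have : Algebra.EssFiniteType ℂ K' := Algebra.EssFiniteType.comp ℂ K K'
  have hz' : IsTranscendenceBasis ℂ (algebraMap K K' ∘ z) := hz.algebraMap_comp
  obtain ⟨β', hβ', hβ1', hβ2', hβ3'⟩ := ov_coords hz' (ov_val hν) hwτ hs'
  have hFV' : FV (k + 1) ν (fun ω => ν (Pool.Agent.H23.fc β' ω)) := ov_fv (ov_val hν) hwc' hw hwτ β' hβ1' hβ2' hβ3'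
  have hmem : exteriorPower.ιMulti K (k + 1) (fun i => β i) ∈
      Pool.Agent.H23.regularForms (k + 1) E.localRing := by
    apply AddSubgroup.subset_closure
    refine ⟨1, Fin.cons t s, E.localRing.one_mem, ?_, ?_⟩
    · intro i
      refine Fin.cases ?_ (fun j => ?_) i
      · rw [Fin.cons_zero]
        change 0 ≤ E.ord t
        rw [ht]
        norm_num
      · rw [Fin.cons_succ]
        exact hs0 j
    · rw [one_smul]
      simp only [hβ]
  have hpow : ∀ (m : ℕ) (f : K) (ω : RatForm K (k + 1)), f ≠ 0 → ω ≠ 0 →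
      E.ord (f * Pool.Agent.H23.fc β ω ^ m) = ((v f + m * v (Pool.Agent.H23.fc β ω) : ℤ) : WithTop ℤ) := by
    intro m f ω hf hω
    rw [E.ord.map_mul, E.ord.map_pow, hv f hf, hv _ (ov_fcne β hω), ov_nsmul, ← WithTop.coe_add]
  refine ⟨v, fun ω => v (Pool.Agent.H23.fc β ω), ν, fun ω => ν (Pool.Agent.H23.fc β' ω), b, hFV, hv, ?_, hFV', hb1, hνv, ?_⟩
  · intro m f ω hf hω
    constructor
    · intro h
      refine ⟨Pool.Agent.H23.fc β ω, _, hmem, Pool.Agent.H23.eq_fc_smul β ω, ?_⟩
      rw [hpow m f ω hf hω]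
      exact_mod_cast h
    · intro h
      refine ⟨Pool.Agent.H23.fc β ω, _, hmem, Pool.Agent.H23.eq_fc_smul β ω, ?_⟩
      rw [hpow m f ω hf hω]
      exact_mod_cast h
  · intro a ha
    -- the determinants
    set M : Matrix (Fin (k + 1)) (Fin (k + 1)) K := Matrix.of fun i j => Pool.Agent.H23.dualDer β i (a j) with hM
    set N : Matrix (Fin (k + 1)) (Fin (k + 1)) K' := Matrix.of fun i j =>
      Pool.Agent.H23.dualDer β' i (algebraMap K K' ((Fin.cons t s : Fin (k + 1) → K) j)) with hN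
    have h1 : Pool.Agent.H23.fc β (wd fun i => dd (a i)) = M.det := ov_fcdet β a
    have h2 : Pool.Agent.H23.fc β' (wd fun i => dd (algebraMap K K' (a i))) = N.det * algebraMap K K' M.det := by
      rw [ov_fcdet β' fun i => algebraMap K K' (a i), RingHom.map_det, ← Matrix.det_mul]
      congr 1
      ext i j
      rw [Matrix.of_apply, Matrix.mul_apply, ov_chain β hβ]
      refine Finset.sum_congr rfl fun l _ => ?_
      rw [mul_comm]
      rfl
    have h3 : N.det = Pool.Agent.H23.dualDer β' 0 (algebraMap K K' t) := by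
      rw [ov_det N]
      · rw [hN, Matrix.of_apply, Fin.cons_zero]
      · intro i j
        rw [hN, Matrix.of_apply, Fin.cons_succ]
        have h4 := Pool.Agent.H23.dualDer_coord β' hβ' i j.succ
        rw [Fin.cons_succ] at h4
        exact h4
    have hτΔ : Pool.Agent.H23.dualDer β' 0 τ = 1 := by
      have h4 := Pool.Agent.H23.dualDer_coord β' hβ' 0 0
      rw [Fin.cons_zero, if_pos rfl] at h4
      exact h4
    have hb2 : ((b.toNat : ℕ) : ℤ) = b := by omega
    have h5 : ov_val hν (Pool.Agent.H23.dualDer β' 0 (algebraMap K K' t)) = ((b.toNat - 1 : ℕ) : ℤ) := by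
      apply ov_ram (ov_val hν) hwc hwτ _ (hβ1' 0) hτΔ (by omega)
      rw [hw _ (hinj t ht0), hνv t ht0, hvt, mul_one, hb2]
    have h6 : Pool.Agent.H23.dualDer β' 0 (algebraMap K K' t) ≠ 0 := by
      intro h
      rw [h] at h5
      simp at h5
    have h7 : ν (Pool.Agent.H23.dualDer β' 0 (algebraMap K K' t)) = b - 1 := by
      rw [hw _ h6] at h5
      have h8 := WithTop.coe_inj.1 h5
      omega
    have h9 : M.det ≠ 0 := by
      rw [← h1]
      exact ov_fcne β ha
    have h10 : Pool.Agent.H23.fc β' (wd fun i => dd (algebraMap K K' (a i))) ≠ 0 := by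
      rw [h2, h3]
      exact mul_ne_zero h6 (hinj _ h9)
    refine ⟨?_, ?_⟩
    · intro h
      apply h10
      rw [h, map_zero]
    · change ν (Pool.Agent.H23.fc β' (wd fun i => dd (algebraMap K K' (a i)))) + 1 = b * (v (Pool.Agent.H23.fc β (wd fun i => dd (a i))) + 1)
      rw [h2, h3, h1, hν.mul h6 (hinj _ h9), h7, hνv _ h9]
      ring

end Pool.Agent.LT
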