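import Pool.Agent.LT.Defs

/-!
# LT Sb: the data over the splitting field

* `exists_roots`: the splitting field of `P` over `K` (characteristic `0`: it is a Galois extension); the list of the roots.
* `base_up`: `F_ne`: `R = lead (P)^m ∏ x (e)` over the roots with multiplicities (`Polynomial.resultant_eq_prod_eval`, `deg`), `R ≠ 0`.  `Y_alg`: `e j` is a root of `P`, whose coefficients are `X (cf i)`.  `gp` with `N = 0`: the Vandermonde matrix `(e j ^ l)`, `j ∈ I`, `l ≤ m`, is invertible (`Matrix.det_vandermonde_ne_zero_iff`); the entries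
  of the inverse are algebraic; `V l = ∑ C_j F j`; a monomial `β` of degree `1` is `V l`.  `alg`, `span`: `K' / K` is algebraic; `KaehlerDifferential.map` of `dd (X a)` is `dd (algebraMap (X a))`.
-/

set_option autoImplicit false

open MvPolynomial
open Pool.Agent.H23 (RatForm PrimeDivisorOver)
open Pool.Agent.LG (dd wd IV FV)

noncomputable section

namespace Pool.Agent.LT

variable {K : Type} [Field K] [Algebra ℂ K] {ι : Type} {k n m D r : ℕ}

theorem P_ne (S : Dt K ι n m D) (hS : S.Base) : S.P ≠ 0 := fun h =>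
  hS.zero (by rw [h, Polynomial.coeff_zero])

theorem exists_roots (S : Dt K ι n m D) (hS : S.Base) : ∃ (K' : Type) (_ : Field K') (_ : Algebra K K') (_ : Algebra ℂ K') (_ : IsScalarTower ℂ K K') (r : ℕ) (e : Fin r → K'),
    FiniteDimensional K K' ∧ IsGalois K K' ∧ S.IsRoots e ∧ 2 * m + 1 ≤ r := by
  classical
  haveI : CharZero K := charZero_of_injective_algebraMap (algebraMap ℂ K).injective
  haveI : Normal K S.P.SplittingField := Normal.of_isSplittingField S.P
  haveI : IsGalois K S.P.SplittingField := ⟨⟩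
  have hP := P_ne S hS
  let f : Fin (Nat.card (S.P.rootSet S.P.SplittingField)) ≃ S.P.rootSet S.P.SplittingField :=
    (Finite.equivFin _).symm
  refine ⟨S.P.SplittingField, inferInstance, inferInstance, inferInstance, inferInstance, _,
    fun i => (f i : S.P.SplittingField), inferInstance, inferInstance, ⟨?_, ?_, ?_⟩, ?_⟩
  · exact Subtype.val_injective.comp f.injective
  · intro a
    rw [Polynomial.IsRoot.def, Polynomial.eval_map_algebraMap]
    constructor
    · intro h
      exact ⟨f.symm ⟨a, (Polynomial.mem_rootSet.2 ⟨hP, h⟩)⟩, by rw [Equiv.apply_symm_apply]⟩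
    · rintro ⟨j, rfl⟩
      exact (Polynomial.mem_rootSet.1 (f j).2).2
  · exact Polynomial.SplittingField.splits S.P
  · exact hS.roots

variable {K' : Type} [Field K'] [Algebra K K'] [Algebra ℂ K'] [IsScalarTower ℂ K K']

theorem lead_eq (S : Dt K ι n m D) (hS : S.Base) : S.P.leadingCoeff = S.X (S.cf (Fin.last D)) := by
  rw [Polynomial.leadingCoeff, hS.deg, Dt.P, Polynomial.finset_sum_coeff,
    Finset.sum_eq_single (Fin.last D)]
  · rw [Polynomial.coeff_C_mul, Polynomial.coeff_X_pow, if_pos (Fin.val_last D).symm, mul_one]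
  · intro i _ hi
    rw [Polynomial.coeff_C_mul, Polynomial.coeff_X_pow, if_neg, mul_zero]
    intro h
    exact hi (Fin.ext (h.symm.trans (Fin.val_last D).symm))
  · intro h
    exact absurd (Finset.mem_univ _) h

theorem x_deg (S : Dt K ι n m D) : (S.x.map (algebraMap K K')).natDegree ≤ m := by
  refine Polynomial.natDegree_map_le.trans ?_
  rw [Dt.x]
  refine Polynomial.natDegree_sum_le_of_forall_le _ _ fun i _ => ?_
  exact (Polynomial.natDegree_C_mul_X_pow_le _ _).trans (Nat.lt_succ_iff.1 i.2)

theorem x_eval (S : Dt K ι n m D) (e : Fin r → K') (j : Fin r) :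
    (S.x.map (algebraMap K K')).eval (e j) = (S.up e).F j := by
  rw [Dt.x, Polynomial.map_sum, Polynomial.eval_finset_sum]
  refine Finset.sum_congr rfl fun l _ => ?_
  rw [Polynomial.map_mul, Polynomial.map_C, Polynomial.map_pow, Polynomial.map_X,
    Polynomial.eval_mul, Polynomial.eval_C, Polynomial.eval_pow, Polynomial.eval_X]

theorem R_eq_prod (S : Dt K ι n m D) (hS : S.Base) {e : Fin r → K'} (he : S.IsRoots e) :
    algebraMap K K' S.R = algebraMap K K' (S.X (S.cf (Fin.last D))) ^ m * ∏ j, (S.up e).F j ^ ((S.P.map (algebraMap K K')).rootMultiplicity (e j)) := by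
  classical
  have hP' : S.P.map (algebraMap K K') ≠ 0 :=
    (Polynomial.map_ne_zero_iff (algebraMap K K').injective).2 (P_ne S hS)
  have h1 := Polynomial.resultant_eq_prod_eval (S.P.map (algebraMap K K'))
    (S.x.map (algebraMap K K')) m (x_deg S) he.splits
  rw [Polynomial.natDegree_map, hS.deg, Polynomial.resultant_map_map,
    Polynomial.leadingCoeff_map, lead_eq S hS] at h1
  rw [Dt.R, h1]
  congr 1
  rw [Finset.prod_multiset_map_count]
  have h2 : (S.P.map (algebraMap K K')).roots.toFinset = Finset.univ.image e := by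
    ext a
    rw [Multiset.mem_toFinset, Polynomial.mem_roots hP', he.root, Finset.mem_image]
    exact ⟨fun ⟨j, hj⟩ => ⟨j, Finset.mem_univ _, hj⟩, fun ⟨j, _, hj⟩ => ⟨j, hj⟩⟩
  rw [h2, Finset.prod_image fun _ _ _ _ h => he.inj h]
  refine Finset.prod_congr rfl fun j _ => ?_
  rw [Polynomial.count_roots, x_eval]

theorem F_ne (S : Dt K ι n m D) (hS : S.Base) {e : Fin r → K'} (he : S.IsRoots e) (j : Fin r) :
    (S.up e).F j ≠ 0 := by
  intro h
  have hP' : S.P.map (algebraMap K K') ≠ 0 :=
    (Polynomial.map_ne_zero_iff (algebraMap K K').injective).2 (P_ne S hS)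
  apply hS.R_ne
  apply (algebraMap K K').injective
  rw [map_zero, R_eq_prod S hS he]
  refine mul_eq_zero_of_right _ (Finset.prod_eq_zero (Finset.mem_univ j) ?_)
  rw [h]
  refine zero_pow ?_
  exact ((Polynomial.rootMultiplicity_pos hP').2 ((he.root _).2 ⟨j, rfl⟩)).ne'

theorem e_alg (S : Dt K ι n m D) (hS : S.Base) {e : Fin r → K'} (he : S.IsRoots e) (j : Fin r) :
    (S.up e).AL (e j) := by
  have hm : ∀ i, algebraMap K K' (S.X i) ∈ IntermediateField.adjoin ℂ (Set.range (S.up e).X) :=
    fun i => IntermediateField.subset_adjoin _ _ ⟨i, rfl⟩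
  let Q : Polynomial (IntermediateField.adjoin ℂ (Set.range (S.up e).X)) :=
    ∑ i : Fin (D + 1), Polynomial.C ⟨algebraMap K K' (S.X (S.cf i)), hm _⟩ * Polynomial.X ^ (i : ℕ)
  have hQ : Q.map (algebraMap _ K') = S.P.map (algebraMap K K') := by
    rw [Dt.P, Polynomial.map_sum, Polynomial.map_sum]
    refine Finset.sum_congr rfl fun i _ => ?_
    rw [Polynomial.map_mul, Polynomial.map_C, Polynomial.map_mul, Polynomial.map_C,
      Polynomial.map_pow, Polynomial.map_pow, Polynomial.map_X, Polynomial.map_X]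
    rfl
  have hP' : S.P.map (algebraMap K K') ≠ 0 :=
    (Polynomial.map_ne_zero_iff (algebraMap K K').injective).2 (P_ne S hS)
  refine ⟨Q, ?_, ?_⟩
  · intro h
    rw [h, Polynomial.map_zero] at hQ
    exact hP' hQ.symm
  · rw [← Polynomial.eval_map_algebraMap, hQ]
    exact (he.root _).2 ⟨j, rfl⟩

/-- the homomorphism of the fields which are generated -/
theorem adjoin_hom (A : Set K) (A' : Set K') (h : ∀ a ∈ A, algebraMap K K' a ∈ IntermediateField.adjoin ℂ A') :
    ∀ a ∈ IntermediateField.adjoin ℂ A, algebraMap K K' a ∈ IntermediateField.adjoin ℂ A' := by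
  have h1 : IntermediateField.adjoin ℂ A ≤
      (IntermediateField.adjoin ℂ A').comap (IsScalarTower.toAlgHom ℂ K K') :=
    IntermediateField.adjoin_le_iff.2 h
  exact fun a ha => h1 ha

theorem alg_up (S : Dt K ι n m D) (hS : S.Base) [Algebra.IsAlgebraic K K'] (e : Fin r → K') :
    Algebra.IsAlgebraic (IntermediateField.adjoin ℂ (Set.range (S.up e).X ∪ {y | ∃ l l', y = (S.up e).V l / (S.up e).V l'})) K' := by
  haveI := hS.alg
  haveI : Algebra.IsAlgebraic (IntermediateField.adjoin ℂ (Set.range S.X ∪ {y | ∃ l l', y = S.V l / S.V l'})) K' :=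
    Algebra.IsAlgebraic.trans _ K _
  have h0 := adjoin_hom (Set.range S.X ∪ {y | ∃ l l', y = S.V l / S.V l'})
    (Set.range (S.up e).X ∪ {y | ∃ l l', y = (S.up e).V l / (S.up e).V l'}) (by
      rintro a (⟨b, rfl⟩ | ⟨l, l', rfl⟩)
      · exact IntermediateField.subset_adjoin _ _ (Or.inl ⟨b, rfl⟩)
      · refine IntermediateField.subset_adjoin _ _ (Or.inr ⟨l, l', ?_⟩)
        rw [map_div₀]
        rfl)
  let g : IntermediateField.adjoin ℂ (Set.range S.X ∪ {y | ∃ l l', y = S.V l / S.V l'}) →+*
      IntermediateField.adjoin ℂ (Set.range (S.up e).X ∪ {y | ∃ l l', y = (S.up e).V l / (S.up e).V l'}) :=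
    { toFun := fun a => ⟨algebraMap K K' a, h0 a a.2⟩
      map_one' := Subtype.ext (map_one (algebraMap K K'))
      map_mul' := fun a b => Subtype.ext (map_mul (algebraMap K K') (a : K) (b : K))
      map_zero' := Subtype.ext (map_zero (algebraMap K K'))
      map_add' := fun a b => Subtype.ext (map_add (algebraMap K K') (a : K) (b : K)) }
  exact Algebra.IsAlgebraic.ringHom_of_comp_eq g (RingHom.id K') g.injective
    Function.surjective_id (by ext a; rfl)

theorem gp_up (S : Dt K ι n m D) (hS : S.Base) {e : Fin r → K'} (he : S.IsRoots e)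
    (I : Finset (Fin r)) (hI : I.card = m + 1) : (S.up e).GP 1 I := by
  classical
  let t : Fin (m + 1) ↪o Fin r := I.orderEmbOfFin hI
  let L := algebraicClosure (IntermediateField.adjoin ℂ (Set.range (S.up e).X)) K'
  have heL : ∀ j, e j ∈ L := fun j => mem_algebraicClosure_iff.2 (e_alg S hS he j)
  let M : Matrix (Fin (m + 1)) (Fin (m + 1)) L := Matrix.vandermonde fun i => ⟨e (t i), heL _⟩
  have hM : M.det ≠ 0 := Matrix.det_vandermonde_ne_zero_iff.2 fun a b h =>
    t.injective (he.inj (congrArg Subtype.val h))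
  have hinv : M⁻¹ * M = 1 := Matrix.nonsing_inv_mul M (isUnit_iff_ne_zero.2 hM)
  have hV : ∀ l, (S.up e).V l = ∑ i, ((M⁻¹ l i : L) : K') * (S.up e).F (t i) := by
    intro l
    have h1 : ∀ l' : Fin (m + 1), ∑ i, ((M⁻¹ l i : L) : K') * e (t i) ^ (l' : ℕ) = if l = l' then 1 else 0 := by
      intro l'
      have h2 := congrArg (fun X : Matrix (Fin (m + 1)) (Fin (m + 1)) L => ((X l l' : L) : K')) hinv
      simp only [Matrix.mul_apply, Matrix.one_apply] at h2
      rw [IntermediateField.coe_sum] at h2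
      rw [← Finset.sum_congr rfl fun i _ => (show _ = ((M⁻¹ l i : L) : K') * e (t i) ^ (l' : ℕ) from rfl)]
      refine h2.trans ?_
      split_ifs <;> rfl
    calc (S.up e).V l = ∑ l', (if l = l' then 1 else 0) * (S.up e).V l' := by
          simp only [ite_mul, one_mul, zero_mul, Finset.sum_ite_eq, Finset.mem_univ, if_true]
      _ = ∑ l' : Fin (m + 1), (∑ i, ((M⁻¹ l i : L) : K') * e (t i) ^ (l' : ℕ)) * (S.up e).V l' :=
          Finset.sum_congr rfl fun l' _ => by rw [h1]
      _ = ∑ i, ∑ l' : Fin (m + 1), ((M⁻¹ l i : L) : K') * e (t i) ^ (l' : ℕ) * (S.up e).V l' := by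
          rw [Finset.sum_comm]
          exact Finset.sum_congr rfl fun l' _ => Finset.sum_mul _ _ _
      _ = _ := by
          refine Finset.sum_congr rfl fun i _ => ?_
          change _ = _ * ∑ l' : Fin (m + 1), algebraMap K K' (S.V l') * e (t i) ^ (l' : ℕ)
          rw [Finset.mul_sum]
          refine Finset.sum_congr rfl fun l' _ => ?_
          change _ * algebraMap K K' (S.V l') = _
          ring
  refine ⟨0, fun β hβ => ?_⟩
  obtain ⟨l, hl⟩ : ∃ l, β l ≠ 0 := by
    by_contra h
    push Not at h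
    rw [Finset.sum_eq_zero fun l _ => h l] at hβ
    omega
  have hsum := Finset.add_sum_erase Finset.univ (fun l => β l) (Finset.mem_univ l)
  have hβl : β l = 1 := by
    omega
  have hβ' : ∀ l', l' ≠ l → β l' = 0 := by
    intro l' hl'
    have h1 : ∑ x ∈ Finset.univ.erase l, β x = 0 := by
      omega
    exact Finset.sum_eq_zero_iff.1 h1 l' (Finset.mem_erase.2 ⟨hl', Finset.mem_univ _⟩)
  refine ⟨fun i => MvPolynomial.C (∑ k, if t k = i then ((M⁻¹ l k : L) : K') else 0), ?_, ?_, ?_⟩
  · intro i
    exact MvPolynomial.isHomogeneous_C _ _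
  · intro i γ
    rw [MvPolynomial.coeff_C]
    split_ifs
    · have h3 : (∑ k, if t k = i then ((M⁻¹ l k : L) : K') else 0) ∈ L := by
        refine sum_mem fun k _ => ?_
        split_ifs
        · exact (M⁻¹ l k).2
        · exact zero_mem _
      exact mem_algebraicClosure_iff.1 h3
    · exact isAlgebraic_zero
  · have h4 : (S.up e).mon β = (S.up e).V l := by
      rw [LH.Dat.mon, Finset.prod_eq_single l, hβl, pow_one]
      · intro l' _ hl'
        rw [hβ' l' hl', pow_zero]
      · intro h
        exact absurd (Finset.mem_univ _) h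
    rw [h4, hV l]
    simp only [MvPolynomial.eval_C, Finset.sum_mul, ite_mul, zero_mul]
    rw [Finset.sum_comm]
    refine Finset.sum_congr rfl fun k _ => ?_
    rw [Finset.sum_ite_eq, if_pos (Finset.orderEmbOfFin_mem I hI k)]

theorem base_up (S : Dt K ι n m D) (hS : S.Base) [Algebra.IsAlgebraic K K'] {e : Fin r → K'} (he : S.IsRoots e) : (S.up e).Base 1 where
  one := by
    obtain ⟨a, ha⟩ := hS.one
    exact ⟨a, by change algebraMap K K' (S.X a) = 1; rw [ha, map_one]⟩
  V_ne := by
    obtain ⟨l, hl⟩ := hS.V_ne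
    exact ⟨l, (map_ne_zero (algebraMap K K')).2 hl⟩
  F_ne := F_ne S hS he
  Y_alg := by
    intro j s
    change IsAlgebraic _ (if s then e j ^ m else 1)
    split_ifs
    · exact IsAlgebraic.pow (e_alg S hS he j) m
    · exact isAlgebraic_one
  gp := gp_up S hS he
  alg := alg_up S hS e
  span := by
    intro a
    have h1 := hS.span a
    rw [Submodule.mem_span_range_iff_exists_fun] at h1
    obtain ⟨c, hc⟩ := h1
    change KaehlerDifferential.D ℂ K' (algebraMap K K' (S.X a)) ∈ _
    rw [← KaehlerDifferential.map_D ℂ ℂ K K']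
    change KaehlerDifferential.map ℂ ℂ K K' (dd (S.X a)) ∈ _
    rw [← hc, map_sum]
    refine Submodule.sum_mem _ fun i _ => ?_
    rw [map_smul, ← algebraMap_smul K']
    exact Submodule.smul_mem _ _ (Submodule.subset_span ⟨i, rfl⟩)

end Pool.Agent.LT
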