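import Pool.Agent.LT.Sb

/-!
# LT Sc: charts over the splitting field, and the order of the resultant

`ν` is an integer valued valuation of `K'`, `ν = b v` on `K`, `b ≥ 1`; `z = zc ν e`; `a_j = ν (F j) - ν (Y j (z j)) - ν (V l)`.

* `ch_up`: `Fle`: if `0 ≤ ν (e j)` (or `e j = 0`) all terms `V_l' e_j^l'` of `F j` have order `≥ ν (V l)`; if `ν (e j) < 0`, order `≥ ν (V l) + m ν (e j)`.
* Gauss: let `P = lead ∏ (T - e)` (roots with multiplicities), `γ = ν (lead) + ∑ mult_j min (0, ν (e j))`.  If all coefficients of `P` have order `≥ g` then `γ ≥ g` (`sc_gauss`: divide by one linear factor after the other, `sc_div`).  So `γ ≥ ν (X c)`, and `γ ≤ ν (lead)`.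
  With `R_eq_prod`: `ν (R) = m ν (lead) + ∑ mult_j ν (F j) = m γ + ∑ mult_j (a_j + ν (V l))`, `∑ mult_j = D`, so `ν (R) - m ν (X c) - D ν (V l) = m (γ - ν (X c)) + ∑ mult_j a_j`, all terms `≥ 0`, `1 ≤ mult_j ≤ D`.
-/

set_option autoImplicit false

open MvPolynomial
open Pool.Agent.H23 (RatForm PrimeDivisorOver)
open Pool.Agent.LG (dd wd IV FV)

noncomputable section

namespace Pool.Agent.LT

variable {K : Type} [Field K] [Algebra ℂ K] {ι : Type} {k n m D r : ℕ}
variable {K' : Type} [Field K'] [Algebra K K'] [Algebra ℂ K'] [IsScalarTower ℂ K K']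

section Val

variable {L : Type} [Field L] [Algebra ℂ L] {ν : L → ℤ}

/-- the order of `x` is at least `g` -/
private def Ge (ν : L → ℤ) (g : ℤ) (x : L) : Prop := x = 0 ∨ g ≤ ν x

omit [Algebra ℂ L] in
private theorem ge_mono {g g' : ℤ} {x : L} (h : Ge ν g x) (hg : g' ≤ g) : Ge ν g' x :=
  h.imp id fun h => hg.trans h

private theorem ge_add (hν : IV L ν) {g : ℤ} {x y : L} (hx : Ge ν g x) (hy : Ge ν g y) : Ge ν g (x + y) := by
  by_cases hx0 : x = 0
  · rwa [hx0, zero_add]
  by_cases hy0 : y = 0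
  · rwa [hy0, add_zero]
  by_cases h : x + y = 0
  · exact Or.inl h
  · exact Or.inr ((le_min (hx.resolve_left hx0) (hy.resolve_left hy0)).trans (hν.add hx0 hy0 h))

private theorem ge_sum (hν : IV L ν) {g : ℤ} {σ : Type} (s : Finset σ) (f : σ → L) (h : ∀ i ∈ s, Ge ν g (f i)) : Ge ν g (∑ i ∈ s, f i) := by
  classical
  induction s using Finset.induction_on with
  | empty => exact Or.inl Finset.sum_empty
  | insert a s ha ih =>
    rw [Finset.sum_insert ha]
    exact ge_add hν (h a (Finset.mem_insert_self _ _)) (ih fun i hi => h i (Finset.mem_insert_of_mem hi))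

private theorem ge_mul (hν : IV L ν) {g g' : ℤ} {x y : L} (hx : Ge ν g x) (hy : Ge ν g' y) : Ge ν (g + g') (x * y) := by
  by_cases hx0 : x = 0
  · exact Or.inl (by rw [hx0, zero_mul])
  by_cases hy0 : y = 0
  · exact Or.inl (by rw [hy0, mul_zero])
  · refine Or.inr ?_
    rw [hν.mul hx0 hy0]
    exact add_le_add (hx.resolve_left hx0) (hy.resolve_left hy0)

private theorem sc_one (hν : IV L ν) : ν 1 = 0 := by
  simpa using hν.const 1 one_ne_zero

private theorem sc_neg_one (hν : IV L ν) : ν (-1) = 0 := by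
  simpa using hν.const (-1) (by simp)

private theorem ge_neg (hν : IV L ν) {g : ℤ} {x : L} (hx : Ge ν g x) : Ge ν g (-x) := by
  have h := ge_mul hν (show Ge ν 0 (-1 : L) from Or.inr (sc_neg_one hν).ge) hx
  rwa [zero_add, neg_one_mul] at h

private theorem sc_inv (hν : IV L ν) {a : L} (ha : a ≠ 0) : ν a⁻¹ = - ν a := by
  have h1 := hν.mul ha (inv_ne_zero ha)
  rw [mul_inv_cancel₀ ha, sc_one hν] at h1
  linarith

private theorem sc_pow (hν : IV L ν) {a : L} (ha : a ≠ 0) (q : ℕ) : ν (a ^ q) = q * ν a := by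
  induction q with
  | zero => simp [sc_one hν]
  | succ q ih =>
    rw [pow_succ, hν.mul (pow_ne_zero q ha) ha, ih]
    push_cast
    ring

private theorem sc_prod (hν : IV L ν) {σ : Type} (s : Finset σ) (f : σ → L) (h : ∀ i ∈ s, f i ≠ 0) : ν (∏ i ∈ s, f i) = ∑ i ∈ s, ν (f i) := by
  classical
  induction s using Finset.induction_on with
  | empty => rw [Finset.prod_empty, Finset.sum_empty, sc_one hν]
  | insert a s ha ih =>
    rw [Finset.prod_insert ha, Finset.sum_insert ha, hν.mul (h a (Finset.mem_insert_self _ _))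
      (Finset.prod_ne_zero_iff.2 fun i hi => h i (Finset.mem_insert_of_mem hi)), ih fun i hi => h i (Finset.mem_insert_of_mem hi)]

open Classical in
/-- `min (0, ν a)`, and `0` for `a = 0` -/
private def mu (ν : L → ℤ) (a : L) : ℤ := if a ≠ 0 ∧ ν a < 0 then ν a else 0

omit [Algebra ℂ L] in
private theorem mu_le (a : L) : mu ν a ≤ 0 := by
  unfold mu
  split_ifs with h
  · exact h.2.le
  · exact le_rfl

/-- division by a linear factor -/
private theorem sc_div (hν : IV L ν) {g : ℤ} {a : L} {Q : Polynomial L} (h : ∀ i, Ge ν g ((Q * (Polynomial.X - Polynomial.C a)).coeff i)) :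
    ∀ i, Ge ν (g - mu ν a) (Q.coeff i) := by
  by_cases ha : a ≠ 0 ∧ ν a < 0
  · have hmu : mu ν a = ν a := by
      unfold mu
      rw [if_pos ha]
    rw [hmu]
    have hia : Ge ν (-ν a) a⁻¹ := Or.inr (sc_inv hν ha.1).ge
    intro i
    induction i with
    | zero =>
      have h0 := h 0
      rw [Polynomial.mul_coeff_zero, Polynomial.coeff_sub, Polynomial.coeff_X_zero, Polynomial.coeff_C_zero, zero_sub] at h0
      have h1 := ge_mul hν (ge_neg hν h0) hia
      have h2 : -(Q.coeff 0 * -a) * a⁻¹ = Q.coeff 0 := by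
        have := ha.1
        field_simp
      rw [h2] at h1
      exact ge_mono h1 (by linarith)
    | succ i ih =>
      have h0 := h (i + 1)
      rw [Polynomial.coeff_mul_X_sub_C] at h0
      have h1 := ge_mul hν (ge_add hν (ge_mono ih (by linarith [ha.2] : g ≤ g - ν a)) (ge_neg hν h0)) hia
      have h2 : (Q.coeff i + -(Q.coeff i - Q.coeff (i + 1) * a)) * a⁻¹ = Q.coeff (i + 1) := by
        have := ha.1
        field_simp
        ring
      rw [h2] at h1
      exact ge_mono h1 (by linarith)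
  · have hmu : mu ν a = 0 := by
      unfold mu
      rw [if_neg ha]
    rw [hmu, sub_zero]
    have ha' : Ge ν 0 a := by
      by_cases h0 : a = 0
      · exact Or.inl h0
      · refine Or.inr ?_
        by_contra hcon
        exact ha ⟨h0, by omega⟩
    have key : ∀ q i : ℕ, Q.natDegree + 1 ≤ i + q → Ge ν g (Q.coeff i) := by
      intro q
      induction q with
      | zero =>
        intro i hi
        exact Or.inl (Polynomial.coeff_eq_zero_of_natDegree_lt (by omega))
      | succ q ih =>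
        intro i hi
        have h0 := h (i + 1)
        rw [Polynomial.coeff_mul_X_sub_C] at h0
        have h1 := ge_mul hν (ih (i + 1) (by omega)) ha'
        rw [add_zero] at h1
        have h2 := ge_add hν h0 h1
        rwa [sub_add_cancel] at h2
    exact fun i => key (Q.natDegree + 1) i (by omega)

/-- the order of the leading coefficient -/
private theorem sc_gauss (hν : IV L ν) (s : Multiset L) {c : L} : ∀ {g : ℤ}, (∀ i, Ge ν g ((Polynomial.C c * (s.map fun a => Polynomial.X - Polynomial.C a).prod).coeff i)) →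
    Ge ν (g - (s.map (mu ν)).sum) c := by
  induction s using Multiset.induction_on with
  | empty =>
    intro g h
    have h0 := h 0
    simpa using h0
  | cons a s ih =>
    intro g h
    have h1 : Polynomial.C c * ((a ::ₘ s).map fun a => Polynomial.X - Polynomial.C a).prod =
        (Polynomial.C c * (s.map fun a => Polynomial.X - Polynomial.C a).prod) * (Polynomial.X - Polynomial.C a) := by
      rw [Multiset.map_cons, Multiset.prod_cons]
      ring
    rw [h1] at h
    have h2 := ih (sc_div hν h)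
    rw [Multiset.map_cons, Multiset.sum_cons]
    exact ge_mono h2 (by linarith)

end Val

/-- the order of the local generator -/
private theorem sc_Y (S : Dt K ι n m D) (e : Fin r → K') {ν : K' → ℤ} (hν : IV K' ν) (j : Fin r) :
    (S.up e).Y j (zc ν e j) ≠ 0 ∧ ν ((S.up e).Y j (zc ν e j)) = m * mu ν (e j) := by
  classical
  change (if zc ν e j then e j ^ m else 1) ≠ 0 ∧ ν (if zc ν e j then e j ^ m else 1) = m * mu ν (e j)
  by_cases h : e j ≠ 0 ∧ ν (e j) < 0
  · have hz : zc ν e j = true := by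
      unfold zc
      exact decide_eq_true h
    have hm : mu ν (e j) = ν (e j) := by
      unfold mu
      exact if_pos h
    rw [if_pos hz, hm]
    exact ⟨pow_ne_zero _ h.1, sc_pow hν h.1 m⟩
  · have hz : ¬ zc ν e j = true := by
      unfold zc
      intro hcon
      exact h (of_decide_eq_true hcon)
    have hm : mu ν (e j) = 0 := by
      unfold mu
      exact if_neg h
    rw [if_neg hz, hm]
    exact ⟨one_ne_zero, by rw [sc_one hν, mul_zero]⟩

/-- the order of `F j` -/
private theorem sc_F {S : Dt K ι n m D} (hS : S.Base) {e : Fin r → K'} (he : S.IsRoots e) {ν : K' → ℤ} (hν : IV K' ν) {l : Fin (m + 1)}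
    (hl : ∀ l', S.V l' ≠ 0 → ν (algebraMap K K' (S.V l)) ≤ ν (algebraMap K K' (S.V l'))) (j : Fin r) :
    m * mu ν (e j) + ν (algebraMap K K' (S.V l)) ≤ ν ((S.up e).F j) := by
  have h1 : Ge ν (m * mu ν (e j) + ν (algebraMap K K' (S.V l))) ((S.up e).F j) := by
    change Ge ν _ (∑ l' : Fin (m + 1), algebraMap K K' (S.V l') * e j ^ (l' : ℕ))
    refine ge_sum hν _ _ fun l' _ => ?_
    rw [mul_comm (algebraMap K K' (S.V l'))]
    refine ge_mul hν ?_ ?_
    · by_cases h0 : e j ^ (l' : ℕ) = 0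
      · exact Or.inl h0
      refine Or.inr ?_
      have hl' : (l' : ℕ) ≤ m := Nat.lt_succ_iff.1 l'.2
      by_cases h2 : e j = 0
      · rw [h2] at h0 ⊢
        have h3 : (l' : ℕ) = 0 := by
          by_contra hcon
          exact h0 (zero_pow hcon)
        rw [h3, pow_zero, sc_one hν]
        exact mul_nonpos_of_nonneg_of_nonpos (Nat.cast_nonneg m) (mu_le _)
      · rw [sc_pow hν h2]
        unfold mu
        split_ifs with h3
        · have h4 : ((l' : ℕ) : ℤ) ≤ m := by exact_mod_cast hl'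
          nlinarith [h3.2]
        · rw [mul_zero]
          refine mul_nonneg (Nat.cast_nonneg _) ?_
          by_contra hcon
          exact h3 ⟨h2, by omega⟩
    · by_cases h0 : S.V l' = 0
      · exact Or.inl (by rw [h0, map_zero])
      · exact Or.inr (hl l' h0)
  exact h1.resolve_left (F_ne S hS he j)

theorem ch_up [Fintype ι] {S : Dt K ι n m D} (hS : S.Base) [Algebra.IsAlgebraic K K'] {e : Fin r → K'} (he : S.IsRoots e) {v : K → ℤ} {ν : K' → ℤ} {b : ℤ} (hb : 1 ≤ b) (hν : IV K' ν) (hνv : ∀ a, a ≠ 0 → ν (algebraMap K K' a) = b * v a)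
    {c : ι} {l : Fin (m + 1)} (hc : S.Chart v c l) : LH.CH (S.up e) 1 ν c l (zc ν e) := by
  have hinj : ∀ a : K, algebraMap K K' a ≠ 0 ↔ a ≠ 0 := fun a => map_ne_zero (algebraMap K K')
  have hle : ∀ x y : K, x ≠ 0 → y ≠ 0 → v x ≤ v y → ν (algebraMap K K' x) ≤ ν (algebraMap K K' y) := fun x y hx hy h => by
    rw [hνv x hx, hνv y hy]
    exact mul_le_mul_of_nonneg_left h (by omega)
  refine ⟨(hinj _).2 hc.Xne, ?_, (hinj _).2 hc.Vne, ?_, ?_, ?_, ?_⟩
  · intro b' hb'
    exact hle _ _ hc.Xne ((hinj _).1 hb') (hc.Xle b' ((hinj _).1 hb'))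
  · intro l' hl'
    exact hle _ _ hc.Vne ((hinj _).1 hl') (hc.Vle l' ((hinj _).1 hl'))
  · exact fun j => (sc_Y S e hν j).1
  · intro j
    rw [(sc_Y S e hν j).2, Nat.cast_one, one_mul]
    exact sc_F hS he hν (fun l' hl' => hle _ _ hc.Vne hl' (hc.Vle l' hl')) j
  · obtain ⟨M, hM, hδ⟩ := hc.mat
    refine ⟨fun i b' => algebraMap K K' (M i b'), fun i b' h => ?_, fun i => ?_⟩
    · rw [hνv _ ((hinj _).1 h)]
      exact mul_nonneg (by omega) (hM i b' ((hinj _).1 h))
    · change KaehlerDifferential.map ℂ ℂ K K' (S.δ i) = _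
      rw [hδ i, map_sum]
      refine Finset.sum_congr rfl fun b' _ => ?_
      rw [map_smul, ← algebraMap_smul K']
      congr 1
      change KaehlerDifferential.map ℂ ℂ K K' (KaehlerDifferential.D ℂ K (S.X b' / S.X c)) = _
      rw [KaehlerDifferential.map_D, map_div₀]
      rfl

/-- the order of the resultant -/
private theorem sc_R {S : Dt K ι n m D} (hS : S.Base) {e : Fin r → K'} (he : S.IsRoots e) {v : K → ℤ} {ν : K' → ℤ} {b : ℤ} (hν : IV K' ν) (hνv : ∀ a, a ≠ 0 → ν (algebraMap K K' a) = b * v a) :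
    ∃ q : Fin r → ℕ, (∀ j, 1 ≤ q j) ∧ ∑ j, q j = D ∧ b * v S.R = m * ν (algebraMap K K' (S.X (S.cf (Fin.last D)))) + ∑ j, q j * ν ((S.up e).F j) ∧
      ∀ g : ℤ, (∀ b', S.X b' ≠ 0 → g ≤ ν (algebraMap K K' (S.X b'))) → g - ∑ j, q j * mu ν (e j) ≤ ν (algebraMap K K' (S.X (S.cf (Fin.last D)))) := by
  classical
  have hP' : S.P.map (algebraMap K K') ≠ 0 :=
    (Polynomial.map_ne_zero_iff (algebraMap K K').injective).2 (P_ne S hS)
  have hlead : S.X (S.cf (Fin.last D)) ≠ 0 := by
    rw [← lead_eq S hS]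
    exact Polynomial.leadingCoeff_ne_zero.2 (P_ne S hS)
  have hlead' : algebraMap K K' (S.X (S.cf (Fin.last D))) ≠ 0 := (map_ne_zero (algebraMap K K')).2 hlead
  have hroots : (S.P.map (algebraMap K K')).roots.toFinset = Finset.univ.image e := by
    ext a
    rw [Multiset.mem_toFinset, Polynomial.mem_roots hP', he.root, Finset.mem_image]
    exact ⟨fun ⟨j, hj⟩ => ⟨j, Finset.mem_univ _, hj⟩, fun ⟨j, _, hj⟩ => ⟨j, hj⟩⟩
  refine ⟨fun j => (S.P.map (algebraMap K K')).rootMultiplicity (e j), ?_, ?_, ?_, ?_⟩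
  · intro j
    exact (Polynomial.rootMultiplicity_pos hP').2 ((he.root _).2 ⟨j, rfl⟩)
  · have h1 := Multiset.toFinset_sum_count_eq (S.P.map (algebraMap K K')).roots
    rw [hroots, Finset.sum_image fun _ _ _ _ h => he.inj h, ← he.splits.natDegree_eq_card_roots, Polynomial.natDegree_map, hS.deg] at h1
    exact (Finset.sum_congr rfl fun j _ => (Polynomial.count_roots _).symm).trans h1
  · rw [← hνv _ hS.R_ne, R_eq_prod S hS he, hν.mul (pow_ne_zero _ hlead') (Finset.prod_ne_zero_iff.2 fun j _ => pow_ne_zero _ (F_ne S hS he j)),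
      sc_pow hν hlead', sc_prod hν _ _ fun j _ => pow_ne_zero _ (F_ne S hS he j)]
    congr 1
    exact Finset.sum_congr rfl fun j _ => sc_pow hν (F_ne S hS he j) _
  · intro g hg
    have h1 := he.splits.eq_prod_roots
    have h2 : ∀ i, Ge ν g ((S.P.map (algebraMap K K')).coeff i) := by
      intro i
      rw [Polynomial.coeff_map, Dt.P, Polynomial.finsetSum_coeff, map_sum]
      refine ge_sum hν _ _ fun i' _ => ?_
      rw [Polynomial.coeff_C_mul, Polynomial.coeff_X_pow]
      split_ifs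
      · rw [mul_one]
        by_cases h0 : S.X (S.cf i') = 0
        · exact Or.inl (by rw [h0, map_zero])
        · exact Or.inr (hg _ h0)
      · exact Or.inl (by rw [mul_zero, map_zero])
    rw [h1] at h2
    have h3 := (sc_gauss hν _ h2).resolve_left (Polynomial.leadingCoeff_ne_zero.2 hP')
    rw [Polynomial.leadingCoeff_map, lead_eq S hS, Finset.sum_multiset_map_count, hroots, Finset.sum_image fun _ _ _ _ h => he.inj h] at h3
    have h4 : ∑ j, Multiset.count (e j) (S.P.map (algebraMap K K')).roots • mu ν (e j) =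
        ∑ j, (((S.P.map (algebraMap K K')).rootMultiplicity (e j) : ℕ) : ℤ) * mu ν (e j) :=
      Finset.sum_congr rfl fun j _ => by rw [Polynomial.count_roots, nsmul_eq_mul]
    rwa [h4] at h3

theorem le_R [Fintype ι] {S : Dt K ι n m D} (hS : S.Base) [Algebra.IsAlgebraic K K'] {e : Fin r → K'} (he : S.IsRoots e) {v : K → ℤ} {ν : K' → ℤ} {b : ℤ} (hb : 1 ≤ b) (hν : IV K' ν) (hνv : ∀ a, a ≠ 0 → ν (algebraMap K K' a) = b * v a)
    {c : ι} {l : Fin (m + 1)} (hc : S.Chart v c l) :
    b * (v S.R - m * v (S.X c) - D * v (S.V l)) ≤ m * ν (algebraMap K K' (S.X (S.cf (Fin.last D)) / S.X c)) + D * ∑ j, (ν ((S.up e).F j) - ν ((S.up e).Y j (zc ν e j)) - ν ((S.up e).V l)) := by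
  obtain ⟨q, hq, hqD, hR, -⟩ := sc_R hS he hν hνv
  have hch := ch_up hS he hb hν hνv hc
  have hlead : S.X (S.cf (Fin.last D)) ≠ 0 := by
    rw [← lead_eq S hS]
    exact Polynomial.leadingCoeff_ne_zero.2 (P_ne S hS)
  have hX : ν (algebraMap K K' (S.X (S.cf (Fin.last D)) / S.X c)) = ν (algebraMap K K' (S.X (S.cf (Fin.last D)))) - b * v (S.X c) := by
    rw [div_eq_mul_inv, map_mul, map_inv₀, hν.mul ((map_ne_zero _).2 hlead) (inv_ne_zero ((map_ne_zero _).2 hc.Xne)), sc_inv hν ((map_ne_zero _).2 hc.Xne),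
      hνv _ hc.Xne]
    ring
  have hV : ν ((S.up e).V l) = b * v (S.V l) := hνv _ hc.Vne
  have hqD' : ∑ j, (q j : ℤ) = D := by exact_mod_cast hqD
  have h1 : ∀ j, (q j : ℤ) * ν ((S.up e).F j) ≤ D * (ν ((S.up e).F j) - ν ((S.up e).Y j (zc ν e j)) - ν ((S.up e).V l)) + q j * ν ((S.up e).V l) := by
    intro j
    have h2 := hch.Fle j
    rw [Nat.cast_one, one_mul] at h2
    have h3 := (sc_Y S e hν j).2
    have h4 : ν ((S.up e).Y j (zc ν e j)) ≤ 0 := by
      rw [h3]
      exact mul_nonpos_of_nonneg_of_nonpos (Nat.cast_nonneg m) (mu_le _)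
    have h5 : (q j : ℤ) ≤ D := by
      rw [← hqD']
      exact Finset.single_le_sum (f := fun j => (q j : ℤ)) (fun i _ => Nat.cast_nonneg _) (Finset.mem_univ j)
    have h6 : (0 : ℤ) ≤ q j := Nat.cast_nonneg _
    have h7 : (q j : ℤ) * (ν ((S.up e).F j) - ν ((S.up e).Y j (zc ν e j)) - ν ((S.up e).V l)) ≤
        D * (ν ((S.up e).F j) - ν ((S.up e).Y j (zc ν e j)) - ν ((S.up e).V l)) :=
      mul_le_mul_of_nonneg_right h5 (by linarith)
    have h8 : (q j : ℤ) * ν ((S.up e).Y j (zc ν e j)) ≤ 0 := mul_nonpos_of_nonneg_of_nonpos h6 h4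
    linarith
  have h9 := Finset.sum_le_sum fun j (_ : j ∈ Finset.univ) => h1 j
  rw [Finset.sum_add_distrib, ← Finset.mul_sum, ← Finset.sum_mul, hqD'] at h9
  rw [hX, mul_sub, mul_sub, hR]
  rw [hV] at h9 ⊢
  linarith

theorem off_R [Fintype ι] {S : Dt K ι n m D} (hS : S.Base) [Algebra.IsAlgebraic K K'] {e : Fin r → K'} (he : S.IsRoots e) {v : K → ℤ} {ν : K' → ℤ} {b : ℤ} (hb : 1 ≤ b) (hν : IV K' ν) (hνv : ∀ a, a ≠ 0 → ν (algebraMap K K' a) = b * v a)
    {c : ι} {l : Fin (m + 1)} (hc : S.Chart v c l) (h : v S.R = m * v (S.X c) + D * v (S.V l)) (j : Fin r) : ν ((S.up e).F j) = ν ((S.up e).Y j (zc ν e j)) + ν ((S.up e).V l) := by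
  obtain ⟨q, hq, hqD, hR, hG⟩ := sc_R hS he hν hνv
  have hch := ch_up hS he hb hν hνv hc
  have hV : ν ((S.up e).V l) = b * v (S.V l) := hνv _ hc.Vne
  have hqD' : ∑ j, (q j : ℤ) = D := by exact_mod_cast hqD
  have h1 := hG (b * v (S.X c)) fun b' hb' => by
    rw [hνv _ hb']
    exact mul_le_mul_of_nonneg_left (hc.Xle b' hb') (by omega)
  have h2 : ∀ j, 0 ≤ (q j : ℤ) * (ν ((S.up e).F j) - m * mu ν (e j) - ν ((S.up e).V l)) := by
    intro j
    have h3 := hch.Fle j
    rw [Nat.cast_one, one_mul, (sc_Y S e hν j).2] at h3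
    exact mul_nonneg (Nat.cast_nonneg _) (by linarith)
  have h3 : ∑ j, (q j : ℤ) * (ν ((S.up e).F j) - m * mu ν (e j) - ν ((S.up e).V l)) ≤ 0 := by
    have h4 : ∑ j, (q j : ℤ) * (ν ((S.up e).F j) - m * mu ν (e j) - ν ((S.up e).V l)) =
        ∑ j, (q j : ℤ) * ν ((S.up e).F j) - m * ∑ j, (q j : ℤ) * mu ν (e j) - D * ν ((S.up e).V l) := by
      rw [← hqD', Finset.sum_mul, Finset.mul_sum, ← Finset.sum_sub_distrib, ← Finset.sum_sub_distrib]
      exact Finset.sum_congr rfl fun j _ => by ring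
    rw [h4, hV]
    have h5 : (m : ℤ) * (b * v (S.X c) - ∑ j, (q j : ℤ) * mu ν (e j)) ≤ m * ν (algebraMap K K' (S.X (S.cf (Fin.last D)))) :=
      mul_le_mul_of_nonneg_left h1 (Nat.cast_nonneg m)
    rw [h] at hR
    have h6 : b * (m * v (S.X c) + D * v (S.V l)) = m * (b * v (S.X c)) + D * (b * v (S.V l)) := by ring
    rw [h6] at hR
    linarith
  have h7 := Finset.sum_eq_zero_iff_of_nonneg fun j (_ : j ∈ Finset.univ) => h2 j
  have h8 := h7.1 (le_antisymm h3 (Finset.sum_nonneg fun j _ => h2 j)) j (Finset.mem_univ j)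
  have h9 : (q j : ℤ) ≠ 0 := by
    have := hq j
    omega
  rw [(sc_Y S e hν j).2]
  have h10 := (mul_eq_zero.1 h8).resolve_left h9
  linarith

end Pool.Agent.LT
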