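import Pool.Agent.LT.Mo
import Pool.Agent.LT.Alm
import Pool.Agent.LG.Dl
import Pool.Agent.LG.Fa
import Pool.Agent.LG.Co

/-!
# LT Se: the choice of the data

As `LG/Se.lean`.  The hypotheses are those after `exists_change`.  `LG.exists_coeff` for the matrix `!![0, 1; 1, 0]` (so `∑ Φ_i p_1^i p_0^(3d-i) = form θ y (p_1, p_0)^3`): `Φ`.  `LG.exists_fam_extra` with `extra = Φ`: `Θ`, `cf`.  `exists_vm`: `V`.  `Fam.chart y₀`: `b₀` with `Θ b₀ y₀ ≠ 0`, `LG.nz_of_type`; `LG.exists_val`: `X b`.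
`LG.exists_delta`: `δ`.  `algebraic_of_fin`.
-/

set_option autoImplicit false

open Topology Filter MvPolynomial
open Pool.Agent.PXF (Cn form IsThetaForm)
open Pool.Agent.LG (dd Cone GP RegAt BdG IsType Lft RegL NZ IsVal Fam wr)

noncomputable section

namespace Pool.Agent.LT

variable {K : Type} [Field K] [Algebra ℂ K] {N κ d m : ℕ}

/-- the chosen data -/
structure SelT {s n : ℕ} (Q : Ideal (MvPolynomial (Fin (N + 1)) ℂ)) (ξ : Fin (N + 1) → K) (Λ : AddSubgroup (Cn (κ + 1))) (θ : Fin (d + 1) → Cn (κ + 1) → ℂ) (L : (Fin (N + 1) → ℂ) → Cn (κ + 1) → Prop)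
    (V : (Fin (N + 1) → ℂ) → Cn (m + 1) → Prop) (G : Fin s → MvPolynomial (Fin (N + 1)) ℂ) (Θ : Fin n → Cn (κ + 1) → ℂ) (a₀ : Fin (N + 1) → ℂ) (y₀ : Cn (κ + 1)) (b₀ : Fin n) (S : Dt K (Fin n) (κ + 1) m (3 * d)) : Prop where
  fam : Fam Λ θ Θ
  coeff : ∀ y (p : Cn 2), ∑ i, Θ (S.cf i) y * p 0 ^ (i : ℕ) * p 1 ^ (3 * d - i) = form θ y p ^ 3
  cone : Cone Q a₀
  inU : ∃ m, eval a₀ (G m) ≠ 0
  lift : L a₀ y₀
  e0 : θ 0 y₀ ≠ 0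
  e1 : θ (Fin.last d) y₀ ≠ 0
  many : ∃ t : Fin (2 * m + 1) → ℂ, Function.Injective t ∧ ∀ i, form θ y₀ ![t i, 1] = 0
  V_ne : ∃ l, S.V l ≠ 0
  isV : IsVm Q ξ V S.V
  base : Θ b₀ y₀ ≠ 0
  nz : NZ Q L (Θ b₀)
  val : ∀ b, IsVal Q ξ L (S.X b) (Θ b) (Θ b₀)
  chart : ∀ a y, Cone Q a → L a y → ∀ (c : Fin n) (b : Fin (κ + 1) → Fin n), Θ c y ≠ 0 → (Matrix.of fun i j => wr (Θ c) (Θ (b j)) i y).det ≠ 0 →
    ∃ M : Fin (κ + 1) → Fin n → K, (∀ i b, ∃ v, RegAt ξ a (M i b) v) ∧ ∀ i, S.δ i = ∑ b, M i b • dd (S.X b / S.X c)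
  span : ∀ a, dd (S.X a) ∈ Submodule.span K (Set.range S.δ)
  alg : Algebra.IsAlgebraic (IntermediateField.adjoin ℂ (Set.range S.X ∪ {y | ∃ l l', y = S.V l / S.V l'})) K

theorem exists_selT [Algebra.EssFiniteType ℂ K] {k : ℕ} {z : Fin k → K} (hz : IsTranscendenceBasis ℂ z) {s : ℕ} {Q : Ideal (MvPolynomial (Fin (N + 1)) ℂ)} {ξ : Fin (N + 1) → K} {Λ : AddSubgroup (Cn (κ + 1))} {θ : Fin (d + 1) → Cn (κ + 1) → ℂ}
    {L : (Fin (N + 1) → ℂ) → Cn (κ + 1) → Prop} {V : (Fin (N + 1) → ℂ) → Cn (m + 1) → Prop} {G : Fin s → MvPolynomial (Fin (N + 1)) ℂ} (hΛ : Submodule.span ℝ (Λ : Set (Cn (κ + 1))) = ⊤) (hθ : IsThetaForm Λ θ) (h : GeoT Q ξ Λ θ L V G)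
    {a₀ : Fin (N + 1) → ℂ} {y₀ : Cn (κ + 1)} (ha : Cone Q a₀) (hG : ∃ m, eval a₀ (G m) ≠ 0) (hy : L a₀ y₀) (h0 : θ 0 y₀ ≠ 0) (h1 : θ (Fin.last d) y₀ ≠ 0) (ht : ∃ t : Fin (2 * m + 1) → ℂ, Function.Injective t ∧ ∀ i, form θ y₀ ![t i, 1] = 0) :
    ∃ (n : ℕ) (Θ : Fin n → Cn (κ + 1) → ℂ) (b₀ : Fin n) (S : Dt K (Fin n) (κ + 1) m (3 * d)), SelT Q ξ Λ θ L V G Θ a₀ y₀ b₀ S := by
  obtain ⟨Φ, hΦ, hc⟩ := LG.exists_coeff hθ !![0, 1; 1, 0]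
  obtain ⟨n, Θ, cf, hfam, hcf⟩ := LG.exists_fam_extra hθ ⟨0, y₀, h0⟩ hΛ Φ hΦ
  obtain ⟨Vf, hVne, hVf⟩ := exists_vm h.prime h.gp h.vmap
  obtain ⟨b₀, b, hb₀, -⟩ := hfam.chart y₀
  have hnz : NZ Q L (Θ b₀) := LG.nz_of_type h.reg (hfam.type b₀) ha hy hb₀
  have hval := fun b => LG.exists_val h.prime h.gp h.lft h.reg (hfam.type b) (hfam.type b₀) hnz
  choose X hX using hval
  obtain ⟨δ, hchart, hspan⟩ := LG.exists_delta hz hθ h.prime h.homog h.gp h.lft h.reg hfam hnz X hX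
  have halg := algebraic_of_fin hz h.prime h.homog h.gp h.lft h.vmap h.fin hfam hnz X hX hVf
  refine ⟨n, Θ, b₀, ⟨X, δ, cf, Vf⟩,
    { fam := hfam
      coeff := fun y p => ?_
      cone := ha
      inU := hG
      lift := hy
      e0 := h0
      e1 := h1
      many := ht
      V_ne := hVne
      isV := hVf
      base := hb₀
      nz := hnz
      val := hX
      chart := hchart
      span := hspan
      alg := halg }⟩
  have h2 := hc y ![p 1, p 0]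
  have h3 : (!![0, 1; 1, 0] : Matrix (Fin 2) (Fin 2) ℂ).mulVec ![p 1, p 0] = p := by
    ext i
    fin_cases i <;> simp [Matrix.mulVec, dotProduct, Fin.sum_univ_two]
  rw [h3] at h2
  rw [← h2]
  refine Finset.sum_congr rfl fun i _ => ?_
  show Θ (cf i) y * p 0 ^ (i : ℕ) * p 1 ^ (3 * d - i) = _
  rw [hcf]
  simp

end Pool.Agent.LT
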