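import Pool.Agent.LT.Gb
import Pool.Agent.LT.Cr
import Pool.Agent.LG.Zl

/-!
# LT Zl: the varieties over `T_m` are of log general type
-/

set_option autoImplicit false

open Topology Filter MvPolynomial
open Pool.Agent.PXF (Cn form IsThetaForm)
open Pool.Agent.LG (dd Cone GP RegAt BdG IsType Lft RegL NZ IsVal Fam wr)

noncomputable section

namespace Pool.Agent.LT

variable {K : Type} [Field K] [Algebra ℂ K] {N κ d m s n : ℕ} {Q : Ideal (MvPolynomial (Fin (N + 1)) ℂ)} {ξ : Fin (N + 1) → K} {Λ : AddSubgroup (Cn (κ + 1))} {θ : Fin (d + 1) → Cn (κ + 1) → ℂ}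
  {L : (Fin (N + 1) → ℂ) → Cn (κ + 1) → Prop} {V : (Fin (N + 1) → ℂ) → Cn (m + 1) → Prop} {G : Fin s → MvPolynomial (Fin (N + 1)) ℂ}

theorem lgt_of_geoT [Algebra.EssFiniteType ℂ K] {k : ℕ} {z : Fin (k + 1) → K} (hz : IsTranscendenceBasis ℂ z) (hΛ : Submodule.span ℝ (Λ : Set (Cn (κ + 1))) = ⊤) (hm : 1 ≤ m) (hθ : IsThetaForm Λ θ) (h : GeoT Q ξ Λ θ L V G) :
    H17LG.IsLogGeneralType (BdG (k := k + 1) ξ G) := by
  obtain ⟨θ', V', hθ', h', a₀, y₀, ha, hG, hy, h0, h1, ht⟩ := exists_change hm hθ h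
  obtain ⟨n, Θ, b₀, S, hs⟩ := exists_selT hz hΛ hθ' h' ha hG hy h0 h1 ht
  have hd := d_pos h' hs
  exact core hz S hm (by omega) ⟨base_of_sel h' hs, fun E v hv => exists_chart h' hs E v hv⟩

/-- **the varieties over `T_m`, not over the special points, are of log general type** -/
theorem lg_final_T (hspan : Submodule.span ℝ (Λ : Set (Cn (κ + 1))) = ⊤) (hm : 1 ≤ m) (hθ : IsThetaForm Λ θ) (hG : GeoT Q ξ Λ θ L V G) {w : ℕ} (hw : 1 ≤ w) {z : Fin w → K} (hz : IsTranscendenceBasis ℂ z) :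
    H17LG.IsLogGeneralType (BdG (k := w) ξ G) := by
  have := hG.gp.essFiniteType
  obtain ⟨k, rfl⟩ : ∃ k, w = k + 1 := ⟨w - 1, by omega⟩
  exact lgt_of_geoT hz hspan hm hθ hG

end Pool.Agent.LT
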